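import Pool.Agent.MP_b2c033_nt.UN.Defs

/-!
One-prime newform theory: the shared elementary lemmas.
-/

set_option autoImplicit false

noncomputable section

namespace Pool.Agent.MP_b2c033_nt.UN

open U Finset CongruenceSubgroup
open scoped InnerProductSpace

/-! ### The exponential -/

theorem ee_add (x y : ℚ) : ee (x + y) = ee x * ee y := by
  rw [ee, ee, ee, ← Complex.exp_add]; push_cast; ring_nf

theorem ee_zero : ee 0 = 1 := by simp [ee]

theorem ee_eq_one_iff (x : ℚ) : ee x = 1 ↔ ∃ n : ℤ, x = n := by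
  rw [ee, Complex.exp_eq_one_iff]
  refine exists_congr fun n => ⟨fun h => ?_, fun h => by rw [h]; push_cast; ring⟩
  have h2 : (x : ℂ) = (n : ℂ) :=
    mul_left_cancel₀ Complex.two_pi_I_ne_zero (by rw [h]; ring)
  exact_mod_cast h2

theorem ee_int (n : ℤ) : ee n = 1 := (ee_eq_one_iff _).2 ⟨n, rfl⟩

theorem ee_mul_nat (x : ℚ) (t : ℕ) : ee (x * t) = ee x ^ t := by
  induction t with
  | zero => simp [ee_zero]
  | succ t ih => rw [Nat.cast_succ, mul_add, mul_one, ee_add, ih, pow_succ]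

theorem sum_ee_int {x : ℚ} (n : ℤ) (h : x = n) (p : ℕ) : ∑ t ∈ range p, ee (x * t) = p := by
  have : ∀ t ∈ range p, ee (x * t) = 1 := fun t _ => by rw [ee_mul_nat, h, ee_int, one_pow]
  rw [sum_congr rfl this]; simp

theorem sum_ee_zero {x : ℚ} {p : ℕ} (h1 : ¬∃ n : ℤ, x = n) (h2 : ∃ n : ℤ, x * p = n) :
    ∑ t ∈ range p, ee (x * t) = 0 := by
  have h3 : ee x - 1 ≠ 0 := sub_ne_zero.2 fun h => h1 ((ee_eq_one_iff x).1 h)
  have h4 : ee x ^ p = 1 := by rw [← ee_mul_nat]; exact (ee_eq_one_iff _).2 h2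
  have h5 := mul_geom_sum (ee x) p
  rw [h4, sub_self] at h5
  rw [sum_congr rfl fun t _ => ee_mul_nat x t]
  exact (mul_eq_zero.1 h5).resolve_left h3

/-! ### Matrices -/

theorem det_zm (a b c d : ℤ) : (zm a b c d).det = ((a * d - b * c : ℤ) : ℚ) := by
  simp [zm, Mt.det]

theorem det_zm_pos {a b c d : ℤ} (h : a * d - b * c = 1) : 0 < (zm a b c d).det := by
  rw [det_zm, h]; norm_num

theorem zm_mul (a b c d a' b' c' d' : ℤ) : zm a b c d * zm a' b' c' d' =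
    zm (a * a' + b * c') (a * b' + b * d') (c * a' + d * c') (c * b' + d * d') := by
  ext <;> simp [zm]

theorem ofZ_eq (γ : SZ) : ofZ γ = zm (γ 0 0) (γ 0 1) (γ 1 0) (γ 1 1) := rfl

theorem ofZ_mkZ (a b c d : ℤ) (h : a * d - b * c = 1) : ofZ (mkZ a b c d h) = zm a b c d := rfl

theorem mem_G0 (N : ℕ) (γ : SZ) : γ ∈ Gamma0 N ↔ (N : ℤ) ∣ γ 1 0 := by
  rw [Gamma0_mem, ZMod.intCast_zmod_eq_zero_iff_dvd]

theorem cast_eq_one (N : ℕ) (x : ℤ) : (x : ZMod N) = 1 ↔ (N : ℤ) ∣ x - 1 := by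
  rw [← ZMod.intCast_zmod_eq_zero_iff_dvd, Int.cast_sub, Int.cast_one, sub_eq_zero]

theorem mem_G1 (N : ℕ) (γ : SZ) : γ ∈ Gamma1 N ↔ (N : ℤ) ∣ γ 1 0 ∧ (N : ℤ) ∣ γ 1 1 - 1 := by
  rw [Gamma1_mem, cast_eq_one, cast_eq_one, ZMod.intCast_zmod_eq_zero_iff_dvd]
  refine ⟨fun h => ⟨h.2.2, h.2.1⟩, fun h => ⟨?_, h.2, h.1⟩⟩
  have : γ 0 0 - 1 = γ 0 1 * γ 1 0 - γ 0 0 * (γ 1 1 - 1) := by linear_combination detZ γ
  rw [this]
  exact dvd_sub (h.1.mul_left _) (h.2.mul_left _)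

theorem mem_GG (N : ℕ) (γ : SZ) :
    γ ∈ Gamma N ↔ (N : ℤ) ∣ γ 0 1 ∧ (N : ℤ) ∣ γ 1 0 ∧ (N : ℤ) ∣ γ 1 1 - 1 := by
  rw [Gamma_mem, cast_eq_one, cast_eq_one, ZMod.intCast_zmod_eq_zero_iff_dvd,
    ZMod.intCast_zmod_eq_zero_iff_dvd]
  refine ⟨fun h => ⟨h.2.1, h.2.2.1, h.2.2.2⟩, fun h => ⟨?_, h.1, h.2.1, h.2.2⟩⟩
  have : γ 0 0 - 1 = γ 0 1 * γ 1 0 - γ 0 0 * (γ 1 1 - 1) := by linear_combination detZ γ
  rw [this]
  exact dvd_sub (h.2.1.mul_left _) (h.2.2.mul_left _)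

variable {V : Type} [NormedAddCommGroup V] [InnerProductSpace ℂ V] {C : CS V}

theorem fix0_iff {N : ℕ} {f : V} : C.Fix (Gamma0 N) f ↔ G0 C N f :=
  ⟨fun h a b c d h1 h2 => h (mkZ a b c d h1) ((mem_G0 _ _).2 h2),
    fun h γ hγ => h _ _ _ _ (detZ γ) ((mem_G0 _ _).1 hγ)⟩

theorem fix1_iff {N : ℕ} {f : V} : C.Fix (Gamma1 N) f ↔ G1 C N f :=
  ⟨fun h a b c d h1 h2 h3 => h (mkZ a b c d h1) ((mem_G1 _ _).2 ⟨h2, h3⟩),
    fun h γ hγ => h _ _ _ _ (detZ γ) ((mem_G1 _ _).1 hγ).1 ((mem_G1 _ _).1 hγ).2⟩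

theorem fixG_iff {N : ℕ} {f : V} : C.Fix (Gamma N) f ↔ GG C N f :=
  ⟨fun h a b c d h1 h2 h3 h4 => h (mkZ a b c d h1) ((mem_GG _ _).2 ⟨h2, h3, h4⟩),
    fun h γ hγ => h _ _ _ _ (detZ γ) ((mem_GG _ _).1 hγ).1 ((mem_GG _ _).1 hγ).2.1
      ((mem_GG _ _).1 hγ).2.2⟩

theorem per1_iff {Λ : AddSubgroup ℂ} {N : ℕ} {f : V} : C.Per (Gamma1 N) f Λ ↔ Per1 C Λ N f :=
  ⟨fun h a b c d h1 h2 h3 => h (mkZ a b c d h1) ((mem_G1 _ _).2 ⟨h2, h3⟩),
    fun h γ hγ => h _ _ _ _ (detZ γ) ((mem_G1 _ _).1 hγ).1 ((mem_G1 _ _).1 hγ).2⟩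

/-! ### The action -/

theorem act_act {x y : Mt} (hx : 0 < x.det) (hy : 0 < y.det) (v : V) :
    C.act y (C.act x v) = C.act (x * y) v := (C.act_mul x y v hx hy).symm

theorem act_one (v : V) : C.act 1 v = v := C.act_sc 1 v one_ne_zero

/-- Proportional matrices act in the same way. -/
theorem act_prop {x y : Mt} (r : ℚ) (hr : r ≠ 0) (hx : 0 < x.det)
    (h : y = ⟨r, 0, 0, r⟩ * x) (v : V) : C.act y v = C.act x v := by
  have h1 : 0 < (⟨r, 0, 0, r⟩ : Mt).det := by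
    simp only [Mt.det, mul_zero, sub_zero]; exact mul_self_pos.2 hr
  rw [h, C.act_mul _ _ _ h1 hx, C.act_sc r v hr]

/-- The basic move: `x y = r x' y'`. -/
theorem act_comm {x y x' y' : Mt} (r : ℚ) (hr : r ≠ 0) (hx : 0 < x.det) (hy : 0 < y.det)
    (hx' : 0 < x'.det) (hy' : 0 < y'.det) (h : x * y = ⟨r, 0, 0, r⟩ * (x' * y')) (v : V) :
    C.act y (C.act x v) = C.act y' (C.act x' v) := by
  rw [act_act hx hy, act_act hx' hy']
  exact act_prop r hr (by rw [Mt.det_mul]; exact mul_pos hx' hy') h v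

theorem act_inj {x : Mt} (hx : 0 < x.det) {v : V} (h : C.act x v = 0) : v = 0 := by
  have := C.inner_act x v v hx
  rw [h, inner_zero_left] at this
  exact inner_self_eq_zero.1 this.symm

theorem norm_act {x : Mt} (hx : 0 < x.det) (v : V) : ‖C.act x v‖ = ‖v‖ := by
  rw [norm_eq_sqrt_re_inner (𝕜 := ℂ), C.inner_act x v v hx, ← norm_eq_sqrt_re_inner (𝕜 := ℂ)]

theorem inner_fix {x : Mt} (hx : 0 < x.det) (v : V) {w : V} (h : C.act x w = w) :
    ⟪C.act x v, w⟫_ℂ = ⟪v, w⟫_ℂ := by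
  have := C.inner_act x v w hx
  rwa [h] at this

theorem Vd_Vd {r s : ℚ} (hr : 0 < r) (hs : 0 < s) (v : V) :
    C.act (Vd s) (C.act (Vd r) v) = C.act (Vd (r * s)) v := by
  rw [act_act (by simpa) (by simpa)]
  exact congrArg (fun x => C.act x v) (by ext <;> simp [Vd])

theorem Vd_one (v : V) : C.act (Vd 1) v = v := act_one v

theorem Tr_Tr (x y : ℚ) (v : V) : C.act (Tr y) (C.act (Tr x) v) = C.act (Tr (x + y)) v := by
  rw [act_act (by simp) (by simp)]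
  exact congrArg (fun x => C.act x v) (by ext <;> simp [Tr, add_comm])

theorem Tr_Vd {r : ℚ} (hr : 0 < r) (x : ℚ) (v : V) :
    C.act (Tr x) (C.act (Vd r) v) = C.act (Vd r) (C.act (Tr (r * x)) v) :=
  act_comm 1 one_ne_zero (by simpa) (by simp) (by simp) (by simpa)
    (by ext <;> simp [Tr, Vd]) v

theorem Lw_Vd {r : ℚ} (hr : 0 < r) (x : ℚ) (v : V) :
    C.act (Lw x) (C.act (Vd r) v) = C.act (Vd r) (C.act (Lw (x / r)) v) :=
  act_comm 1 one_ne_zero (by simpa) (by simp) (by simp) (by simpa)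
    (by ext <;> simp [Lw, Vd, hr.ne']) v

theorem up_eq {p : ℕ} (hp : 0 < p) (t : ℚ) (v : V) :
    C.act ⟨1, t, 0, p⟩ v = C.act (Tr t) (C.act (Vd (1 / p)) v) := by
  have hp' : (0 : ℚ) < p := by exact_mod_cast hp
  rw [act_act (by simpa) (by simp)]
  refine act_prop p hp'.ne' (by rw [Mt.det_mul]; simpa) ?_ v
  ext <;> simp [Tr, Vd, hp'.ne']

theorem Up_apply (p : ℕ) (v : V) : Up C p v = ∑ t ∈ range p, C.act ⟨1, t, 0, p⟩ v := by
  rw [Up, LinearMap.sum_apply]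

theorem Ls_apply (p : ℕ) (y : ℚ) (v : V) :
    Ls C p y v = ∑ t ∈ range p, C.act (Lw (t * y)) v := by
  rw [Ls, LinearMap.sum_apply]

theorem Pj_apply (p : ℕ) (v : V) :
    Pj C p v = (p : ℂ)⁻¹ • ∑ t ∈ range p, C.act (Tr (t / p)) v := by
  rw [Pj, LinearMap.smul_apply, LinearMap.sum_apply]

theorem QQ_apply (a ε : ℂ) (p : ℕ) (v : V) : QQ C a ε p v =
    v - (a / p) • C.act (Vd p) v + (ε / p) • C.act (Vd (p ^ 2)) v := rfl

omit [InnerProductSpace ℂ V] in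
/-- A family of representatives may be replaced by an equivalent family. -/
theorem sum_reps {I : Type} [Fintype I] (u w : I → V) (j : I → I) (hj : Function.Injective j)
    (h : ∀ i, u i = w (j i)) : ∑ i, u i = ∑ i, w i := by
  rw [Fintype.sum_congr _ _ h]
  exact Function.Bijective.sum_comp (Finite.injective_iff_bijective.1 hj) w

/-! ### Levels -/

section Levels

variable {N N' : ℕ} {f g : V}

theorem G0.mono (h : G0 C N f) (hN : N ∣ N') : G0 C N' f :=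
  fun a b c d h1 h2 => h a b c d h1 ((Int.natCast_dvd_natCast.2 hN).trans h2)

theorem G1.mono (h : G1 C N f) (hN : N ∣ N') : G1 C N' f := fun a b c d h1 h2 h3 =>
  h a b c d h1 ((Int.natCast_dvd_natCast.2 hN).trans h2) ((Int.natCast_dvd_natCast.2 hN).trans h3)

theorem GG.mono (h : GG C N f) (hN : N ∣ N') : GG C N' f := fun a b c d h1 h2 h3 h4 =>
  h a b c d h1 ((Int.natCast_dvd_natCast.2 hN).trans h2) ((Int.natCast_dvd_natCast.2 hN).trans h3)
    ((Int.natCast_dvd_natCast.2 hN).trans h4)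

theorem G0.g1 (h : G0 C N f) : G1 C N f := fun a b c d h1 h2 _ => h a b c d h1 h2

theorem G1.gg (h : G1 C N f) : GG C N f := fun a b c d h1 _ h3 h4 => h a b c d h1 h3 h4

theorem G1.t1 (h : G1 C N f) : T1 C f := by
  have := h 1 1 0 1 (by norm_num) (dvd_zero _) (by simp)
  simpa [zm, T1, Tr] using this

theorem G0.t1 (h : G0 C N f) : T1 C f := h.g1.t1

theorem G0.add (h : G0 C N f) (h' : G0 C N g) : G0 C N (f + g) :=
  fun a b c d h1 h2 => by rw [map_add, h a b c d h1 h2, h' a b c d h1 h2]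

theorem G0.sub (h : G0 C N f) (h' : G0 C N g) : G0 C N (f - g) :=
  fun a b c d h1 h2 => by rw [map_sub, h a b c d h1 h2, h' a b c d h1 h2]

theorem G0.smul (h : G0 C N f) (s : ℂ) : G0 C N (s • f) :=
  fun a b c d h1 h2 => by rw [map_smul, h a b c d h1 h2]

theorem G0.zero : G0 C N (0 : V) := fun _ _ _ _ _ _ => map_zero _

theorem G1.add (h : G1 C N f) (h' : G1 C N g) : G1 C N (f + g) :=
  fun a b c d h1 h2 h3 => by rw [map_add, h a b c d h1 h2 h3, h' a b c d h1 h2 h3]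

theorem G1.sub (h : G1 C N f) (h' : G1 C N g) : G1 C N (f - g) :=
  fun a b c d h1 h2 h3 => by rw [map_sub, h a b c d h1 h2 h3, h' a b c d h1 h2 h3]

theorem G1.smul (h : G1 C N f) (s : ℂ) : G1 C N (s • f) :=
  fun a b c d h1 h2 h3 => by rw [map_smul, h a b c d h1 h2 h3]

theorem zm_Vd {δ : ℕ} (hδ : 0 < δ) {a b c d : ℤ} (h1 : a * d - b * (c * δ) = 1) (f : V) :
    C.act (zm a b (c * δ) d) (C.act (Vd δ) f) = C.act (Vd δ) (C.act (zm a (b * δ) c d) f) := by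
  have hδ' : (0 : ℚ) < δ := by exact_mod_cast hδ
  exact act_comm 1 one_ne_zero (by simpa) (det_zm_pos h1)
    (det_zm_pos (by linear_combination h1)) (by simpa) (by ext <;> simp [zm, Vd, mul_comm]) f

theorem G0.vd (h : G0 C N f) {δ : ℕ} (hδ : 0 < δ) : G0 C (N * δ) (C.act (Vd δ) f) := by
  rintro a b c d h1 ⟨k, rfl⟩
  have e : ((N * δ : ℕ) : ℤ) * k = N * k * δ := by push_cast; ring
  rw [e] at h1 ⊢
  rw [zm_Vd hδ h1, h _ _ _ _ (by linear_combination h1) (Dvd.intro _ rfl)]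

theorem G1.vd (h : G1 C N f) {δ : ℕ} (hδ : 0 < δ) : G1 C (N * δ) (C.act (Vd δ) f) := by
  rintro a b c d h1 ⟨k, rfl⟩ h3
  have e : ((N * δ : ℕ) : ℤ) * k = N * k * δ := by push_cast; ring
  rw [e] at h1 ⊢
  rw [zm_Vd hδ h1, h _ _ _ _ (by linear_combination h1) (Dvd.intro _ rfl)
    ((Int.natCast_dvd_natCast.2 (dvd_mul_right N δ)).trans h3)]

theorem G0.qq (h : G0 C N f) (a ε : ℂ) {p : ℕ} (hp : 0 < p) :
    G0 C (N * p ^ 2) (QQ C a ε p f) := by
  have h2 := h.vd (pow_pos hp 2)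
  rw [Nat.cast_pow] at h2
  exact ((h.mono (dvd_mul_right _ _)).sub (((h.vd hp).mono
    (mul_dvd_mul_left _ (dvd_pow_self p two_ne_zero))).smul _)).add (h2.smul _)

theorem G1.qq (h : G1 C N f) (a ε : ℂ) {p : ℕ} (hp : 0 < p) :
    G1 C (N * p ^ 2) (QQ C a ε p f) := by
  have h2 := h.vd (pow_pos hp 2)
  rw [Nat.cast_pow] at h2
  exact ((h.mono (dvd_mul_right _ _)).sub (((h.vd hp).mono
    (mul_dvd_mul_left _ (dvd_pow_self p two_ne_zero))).smul _)).add (h2.smul _)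

end Levels

/-! ### Coefficients -/

section Coef

variable {f g : V}

theorem β_Vd' {r : ℚ} (hr : 0 < r) (ν : ℚ) (f : V) :
    C.β ν (C.act (Vd r) f) = r * C.β (ν / r) f := by
  rw [← C.β_Vd r (ν / r) f hr, mul_div_cancel₀ _ hr.ne']

theorem β_Vn {p : ℕ} (hp : 0 < p) (ν : ℚ) (f : V) :
    C.β ν (C.act (Vd p) f) = p * C.β (ν / p) f := by
  rw [β_Vd' (by exact_mod_cast hp)]; push_cast; rfl

theorem β_Vi {p : ℕ} (hp : 0 < p) (ν : ℚ) (f : V) :
    C.β ν (C.act (Vd (1 / p)) f) = (p : ℂ)⁻¹ * C.β (p * ν) f := by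
  have hp' : (0 : ℚ) < p := by exact_mod_cast hp
  rw [β_Vd' (by positivity), div_div_eq_mul_div, div_one, mul_comm ν]; push_cast; rw [one_div]

theorem β_fix {x ν : ℚ} (h : C.act (Tr x) f = f) (hν : ¬∃ n : ℤ, ν * x = n) : C.β ν f = 0 := by
  have h1 := C.β_Tr x ν f
  rw [h] at h1
  by_contra h2
  exact hν ((ee_eq_one_iff _).1 (mul_right_cancel₀ h2 (by rw [← h1, one_mul])))

theorem fix_of_β {x : ℚ} (h : ∀ ν, C.β ν f ≠ 0 → ∃ n : ℤ, ν * x = n) : C.act (Tr x) f = f := by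
  refine sub_eq_zero.1 (C.β_inj _ fun ν => ?_)
  rw [map_sub, C.β_Tr]
  by_cases h0 : C.β ν f = 0
  · rw [h0, mul_zero, sub_zero]
  · rw [(ee_eq_one_iff _).2 (h ν h0), one_mul, sub_self]

theorem T1.nat (h : T1 C f) {ν : ℚ} (hν : C.β ν f ≠ 0) : ∃ n : ℕ, 0 < n ∧ ν = n := by
  by_contra hn
  by_cases hi : ∃ n : ℤ, ν * 1 = n
  · obtain ⟨n, hn'⟩ := hi
    rw [mul_one] at hn'
    have h0 : 0 < ν := by
      by_contra h0
      exact hν (C.β_neg ν f (not_lt.1 h0))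
    have h1 : 0 < n := by rw [hn'] at h0; exact_mod_cast h0
    refine hn ⟨n.toNat, by omega, ?_⟩
    rw [hn', ← Int.cast_natCast, Int.toNat_of_nonneg h1.le]
  · exact hν (β_fix h hi)

theorem T1.of_nat (h : ∀ ν, C.β ν f ≠ 0 → ∃ n : ℕ, ν = n) : T1 C f :=
  fix_of_β fun ν hν => by
    obtain ⟨n, hn⟩ := h ν hν
    exact ⟨n, by rw [hn, mul_one, Int.cast_natCast]⟩

theorem T1.ext0 (h : T1 C f) (h0 : ∀ n : ℕ, C.β n f = 0) : f = 0 :=
  C.β_inj _ fun ν => by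
    by_contra hν
    obtain ⟨n, _, rfl⟩ := h.nat hν
    exact hν (h0 n)

theorem T1.add (h : T1 C f) (h' : T1 C g) : T1 C (f + g) := by
  unfold T1 at *; rw [map_add, h, h']

theorem T1.sub (h : T1 C f) (h' : T1 C g) : T1 C (f - g) := by
  unfold T1 at *; rw [map_sub, h, h']

theorem T1.smul (h : T1 C f) (s : ℂ) : T1 C (s • f) := by
  unfold T1 at *; rw [map_smul, h]

theorem T1.ext (h : T1 C f) (h' : T1 C g) (h0 : ∀ n : ℕ, C.β n f = C.β n g) : f = g :=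
  sub_eq_zero.1 ((h.sub h').ext0 fun n => by rw [map_sub, h0, sub_self])

theorem β_zero (f : V) : C.β ((0 : ℕ) : ℚ) f = 0 := C.β_neg _ f (by simp)

theorem T1.β_div (h : T1 C f) {q n : ℕ} (hq : 0 < q) (hn : ¬q ∣ n) : C.β (n / q) f = 0 := by
  by_contra h0
  obtain ⟨m, _, hm⟩ := h.nat h0
  have hq' : (q : ℚ) ≠ 0 := by exact_mod_cast hq.ne'
  rw [div_eq_iff hq'] at hm
  exact hn ⟨m, by rw [mul_comm]; exact_mod_cast hm⟩

theorem T1.vd (h : T1 C f) {δ : ℕ} (hδ : 0 < δ) : T1 C (C.act (Vd δ) f) :=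
  T1.of_nat fun ν hν => by
    rw [β_Vn hδ] at hν
    obtain ⟨n, _, hn⟩ := h.nat (right_ne_zero_of_mul hν)
    have hq' : (δ : ℚ) ≠ 0 := by exact_mod_cast hδ.ne'
    rw [div_eq_iff hq'] at hn
    exact ⟨n * δ, by rw [hn, Nat.cast_mul]⟩

theorem T1.qq (h : T1 C f) (a ε : ℂ) {p : ℕ} (hp : 0 < p) : T1 C (QQ C a ε p f) := by
  have h2 := h.vd (pow_pos hp 2)
  rw [Nat.cast_pow] at h2
  exact (h.sub ((h.vd hp).smul _)).add (h2.smul _)

theorem β_QQ (a ε : ℂ) {p : ℕ} (hp : 0 < p) (ν : ℚ) (f : V) : C.β ν (QQ C a ε p f) =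
    C.β ν f - a * C.β (ν / p) f + ε * p * C.β (ν / p ^ 2) f := by
  have hp' : (p : ℂ) ≠ 0 := by exact_mod_cast hp.ne'
  have h2 := β_Vn (C := C) (pow_pos hp 2) ν f
  rw [Nat.cast_pow, Nat.cast_pow] at h2
  rw [QQ_apply, map_add, map_sub, map_smul, map_smul, β_Vn hp, h2, smul_eq_mul, smul_eq_mul]
  field_simp

theorem β_Up_gen {p : ℕ} (hp : 0 < p) (ν : ℚ) (f : V) : C.β ν (Up C p f) =
    (∑ t ∈ range p, ee (ν * t)) * ((p : ℂ)⁻¹ * C.β (p * ν) f) := by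
  rw [Up_apply, map_sum, sum_mul]
  exact sum_congr rfl fun t _ => by rw [up_eq hp, C.β_Tr, β_Vi hp]

theorem β_Up {p : ℕ} (hp : 0 < p) (n : ℕ) (f : V) : C.β n (Up C p f) = C.β (p * n) f := by
  have hp' : (p : ℂ) ≠ 0 := by exact_mod_cast hp.ne'
  rw [β_Up_gen hp, sum_ee_int (n : ℤ) (by simp), mul_inv_cancel_left₀ hp']

theorem T1.up (h : T1 C f) {p : ℕ} (hp : 0 < p) : T1 C (Up C p f) :=
  fix_of_β fun ν hν => by
    rw [β_Up_gen hp] at hν
    obtain ⟨n, _, hn⟩ := h.nat (right_ne_zero_of_mul (right_ne_zero_of_mul hν))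
    by_contra hc
    rw [mul_one] at hc
    exact left_ne_zero_of_mul hν (sum_ee_zero hc ⟨n, by rw [mul_comm, hn, Int.cast_natCast]⟩)

theorem Up_Vd {p : ℕ} (hp : 0 < p) (h : T1 C f) : Up C p (C.act (Vd p) f) = (p : ℂ) • f := by
  have hp' : (p : ℚ) ≠ 0 := by exact_mod_cast hp.ne'
  refine ((h.vd hp).up hp).ext (h.smul _) fun n => ?_
  rw [β_Up hp, β_Vn hp, mul_div_cancel_left₀ _ hp', map_smul, smul_eq_mul]

theorem Pj_eq {p : ℕ} (hp : 0 < p) (f : V) :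
    Pj C p f = (p : ℂ)⁻¹ • C.act (Vd p) (Up C p f) := by
  have hp' : (0 : ℚ) < p := by exact_mod_cast hp
  rw [Pj_apply, Up_apply, map_sum]
  refine congrArg _ (sum_congr rfl fun t _ => ?_)
  rw [act_act (by simpa [Mt.det]) (by simpa)]
  refine (act_prop p hp'.ne' (by simp) ?_ f).symm
  ext <;> simp [Tr, Vd, mul_div_cancel₀ _ hp'.ne']

theorem T1.pj (h : T1 C f) {p : ℕ} (hp : 0 < p) : T1 C (Pj C p f) := by
  rw [Pj_eq hp]; exact ((h.up hp).vd hp).smul _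

theorem β_Pj (h : T1 C f) {p : ℕ} (hp : 0 < p) (n : ℕ) :
    C.β n (Pj C p f) = if p ∣ n then C.β n f else 0 := by
  have hp' : (p : ℂ) ≠ 0 := by exact_mod_cast hp.ne'
  have hq : (p : ℚ) ≠ 0 := by exact_mod_cast hp.ne'
  rw [Pj_eq hp, map_smul, β_Vn hp, smul_eq_mul, inv_mul_cancel_left₀ hp']
  split_ifs with hn
  · obtain ⟨m, rfl⟩ := hn
    rw [Nat.cast_mul, mul_div_cancel_left₀ _ hq, β_Up hp]
  · exact (h.up hp).β_div hp hn

theorem Sup.fix {p : ℕ} (hs : Sup C p f) (h : T1 C f) (hp : 0 < p) (t : ℤ) :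
    C.act (Tr (t / p)) f = f :=
  fix_of_β fun ν hν => by
    obtain ⟨n, _, rfl⟩ := h.nat hν
    have hq : (p : ℚ) ≠ 0 := by exact_mod_cast hp.ne'
    obtain ⟨m, rfl⟩ : p ∣ n := by
      by_contra hc
      exact hν (hs n hc)
    exact ⟨m * t, by push_cast; field_simp⟩

theorem Sup.t1 {p : ℕ} (hs : Sup C p f) (h : T1 C f) (hp : 0 < p) :
    T1 C (C.act (Vd (1 / p)) f) := by
  have hp' : (0 : ℚ) < p := by exact_mod_cast hp
  have := hs.fix h hp 1
  unfold T1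
  rw [Tr_Vd (by positivity), mul_one, ← Int.cast_one (R := ℚ), this]

theorem T1.sup_vd (h : T1 C f) {p : ℕ} (hp : 0 < p) : Sup C p (C.act (Vd p) f) :=
  fun n hn => by rw [β_Vn hp, h.β_div hp hn, mul_zero]

/-- Disjoint supports are orthogonal. -/
theorem orth {p : ℕ} (hp : 0 < p) (hf : T1 C f) (hg : T1 C g) (hd : Dep C p f)
    (hs : Sup C p g) : ⟪f, g⟫_ℂ = 0 := by
  have hp' : (p : ℂ) ≠ 0 := by exact_mod_cast hp.ne'
  have h1 : Pj C p f = 0 := (hf.pj hp).ext0 fun n => by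
    rw [β_Pj hf hp]
    split_ifs with hn
    · exact hd n hn
    · rfl
  have h2 : ∑ t ∈ range p, C.act (Tr (t / p)) f = 0 := by
    rw [Pj_apply] at h1
    exact (smul_eq_zero.1 h1).resolve_left (inv_ne_zero hp')
  have h3 : ⟪∑ t ∈ range p, C.act (Tr (t / p)) f, g⟫_ℂ = p * ⟪f, g⟫_ℂ := by
    rw [sum_inner, sum_congr rfl fun t _ => inner_fix (by simp) f
      (by simpa using hs.fix hg hp (t : ℤ))]
    simp
  rw [h2, inner_zero_left] at h3
  exact (mul_eq_zero.1 h3.symm).resolve_left hp'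

end Coef

/-! ### The relations -/

section Rel

variable {N N' q : ℕ} {lam : ℂ} {f g : V}

theorem Rel.lev (h : Rel C N q lam f) (hN : q ∣ N ↔ q ∣ N') : Rel C N' q lam f := fun n => by
  rw [h n, if_congr hN rfl rfl]

theorem Rel.add (h : Rel C N q lam f) (h' : Rel C N q lam g) : Rel C N q lam (f + g) := fun n => by
  have h1 := h n
  have h2 := h' n
  simp only [map_add]
  split_ifs at h1 h2 ⊢ <;> linear_combination h1 + h2

theorem Rel.smul (h : Rel C N q lam f) (s : ℂ) : Rel C N q lam (s • f) := fun n => by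
  have h1 := h n
  simp only [map_smul, smul_eq_mul]
  split_ifs at h1 ⊢ <;> linear_combination s * h1

theorem Rel.sub (h : Rel C N q lam f) (h' : Rel C N q lam g) : Rel C N q lam (f - g) := fun n => by
  have h1 := h n
  have h2 := h' n
  simp only [map_sub]
  split_ifs at h1 h2 ⊢ <;> linear_combination h1 - h2

/-- The relation as an identity of vectors. -/
theorem rel_iff (hq : 0 < q) (h : T1 C f) : Rel C N q lam f ↔
    lam • f = Up C q f + if q ∣ N then 0 else C.act (Vd q) f := by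
  have key : ∀ n : ℕ, C.β n (Up C q f + if q ∣ N then 0 else C.act (Vd q) f) =
      C.β (q * n) f + (if q ∣ N then 0 else q * C.β (n / q) f) := fun n => by
    rw [map_add, β_Up hq]
    split_ifs
    · rw [map_zero]
    · rw [β_Vn hq]
  refine ⟨fun hr => (h.smul _).ext ((h.up hq).add ?_) fun n => ?_, fun hr n => ?_⟩
  · split_ifs
    · exact map_zero _
    · exact h.vd hq
  · rw [key, map_smul, smul_eq_mul, hr n]
  · rw [← key, ← hr, map_smul, smul_eq_mul]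

theorem Rel.vi (h : Rel C N q lam f) {p : ℕ} (hp : 0 < p) :
    Rel C N q lam (C.act (Vd (1 / p)) f) := fun n => by
  have h1 := h (p * n)
  rw [Nat.cast_mul] at h1
  rw [β_Vi hp, β_Vi hp, β_Vi hp, ← mul_div_assoc, mul_left_comm (p : ℚ) q n]
  split_ifs at h1 ⊢ <;> linear_combination (p : ℂ)⁻¹ * h1

theorem Rel.vd (h : Rel C N q lam f) (hf : T1 C f) {p : ℕ} (hp : 0 < p) (hq : 0 < q)
    (hc : p.Coprime q) : Rel C N q lam (C.act (Vd p) f) := fun n => by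
  have hp' : (p : ℚ) ≠ 0 := by exact_mod_cast hp.ne'
  rw [β_Vn hp, β_Vn hp, β_Vn hp]
  by_cases hn : p ∣ n
  · obtain ⟨m, rfl⟩ := hn
    have h1 := h m
    have e1 : (q : ℚ) * (p * m : ℕ) / p = q * m := by push_cast; field_simp
    have e2 : ((p * m : ℕ) : ℚ) / q / p = m / q := by push_cast; field_simp
    have e3 : ((p * m : ℕ) : ℚ) / p = m := by push_cast; field_simp
    rw [e1, e2, e3]
    split_ifs at h1 ⊢ <;> linear_combination (p : ℂ) * h1
  · have h1 := hf.β_div hp hn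
    have h2 := hf.β_div hp (n := q * n) fun hd => hn (hc.dvd_of_dvd_mul_left hd)
    have h3 := hf.β_div (Nat.mul_pos hq hp) (n := n) fun hd => hn ((dvd_mul_left p q).trans hd)
    rw [Nat.cast_mul] at h2 h3
    rw [h1, h2, div_div, h3]
    simp

theorem Rel.up (h : Rel C N q lam f) (hf : T1 C f) {p : ℕ} (hp : 0 < p) (hq : 0 < q)
    (hc : q.Coprime p) : Rel C N q lam (Up C p f) := fun n => by
  have h1 := h (p * n)
  have h2 := β_Up (C := C) hp (q * n) f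
  have hq' : (q : ℚ) ≠ 0 := by exact_mod_cast hq.ne'
  rw [Nat.cast_mul] at h1 h2
  rw [β_Up hp, h2, mul_left_comm (p : ℚ) q n, h1]
  split_ifs
  · rfl
  · by_cases hn : q ∣ n
    · obtain ⟨m, rfl⟩ := hn
      have e1 : (p : ℚ) * (q * m : ℕ) / q = p * m := by push_cast; field_simp
      have e2 : ((q * m : ℕ) : ℚ) / q = m := by push_cast; field_simp
      rw [e1, e2, β_Up hp]
    · have h3 := hf.β_div hq (n := p * n) fun hd => hn (hc.dvd_of_dvd_mul_left hd)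
      rw [Nat.cast_mul] at h3
      rw [h3, (hf.up hp).β_div hq hn]

theorem Rel.pj (h : Rel C N q lam f) (hf : T1 C f) {p : ℕ} (hp : 0 < p) (hq : 0 < q)
    (hc : p.Coprime q) : Rel C N q lam (Pj C p f) := by
  rw [Pj_eq hp]
  exact ((h.up hf hp hq hc.symm).vd (hf.up hp) hp hq hc).smul _

theorem Rel.qq (h : Rel C N q lam f) (hf : T1 C f) (a ε : ℂ) {p : ℕ} (hp : 0 < p) (hq : 0 < q)
    (hc : p.Coprime q) : Rel C N q lam (QQ C a ε p f) := by
  have h2 := h.vd hf (pow_pos hp 2) hq (hc.pow_left 2)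
  rw [Nat.cast_pow] at h2
  exact (h.sub ((h.vd hf hp hq hc).smul _)).add (h2.smul _)

/-- The relations at the primes outside `M` propagate the vanishing of a coefficient. -/
theorem rel_zero {M m : ℕ} {lam : ℕ → ℂ} (hf : T1 C f)
    (h : ∀ q : ℕ, q.Prime → ¬q ∣ M → Rel C N q (lam q) f) (hm : ∀ q : ℕ, q.Prime → q ∣ m → q ∣ M)
    (h1 : C.β m f = 0) (n : ℕ) (hn : n.Coprime M) : C.β (m * n : ℕ) f = 0 := by
  induction n using Nat.strong_induction_on with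
  | _ n ih =>
    rcases Nat.eq_zero_or_pos n with rfl | h0
    · exact β_zero f
    by_cases hn1 : n = 1
    · rw [hn1, mul_one]; exact h1
    obtain ⟨q, hq, k, rfl⟩ := Nat.exists_prime_and_dvd hn1
    have hqM : ¬q ∣ M := (Nat.Prime.coprime_iff_not_dvd hq).1 (Nat.Coprime.coprime_mul_right hn)
    have hk : k.Coprime M := Nat.Coprime.coprime_mul_left hn
    have hk0 : 0 < k := Nat.pos_of_mul_pos_left h0
    have hlt : k < q * k := lt_mul_left hk0 hq.one_lt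
    have h2 := h q hq hqM (m * k)
    have h3 : C.β ((m * k : ℕ) / q) f = 0 := by
      by_cases hd : q ∣ m * k
      · obtain ⟨j, rfl⟩ := (hq.dvd_mul.1 hd).resolve_left fun h' => hqM (hm q hq h')
        have hq' : (q : ℚ) ≠ 0 := by exact_mod_cast hq.ne_zero
        have e : ((m * (q * j) : ℕ) : ℚ) / q = (m * j : ℕ) := by push_cast; field_simp
        rw [e]
        exact ih j ((Nat.le_mul_of_pos_left j hq.pos).trans_lt hlt)
          (Nat.Coprime.coprime_mul_left hk)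
      · exact hf.β_div hq.pos hd
    have e : ((m * (q * k) : ℕ) : ℚ) = q * (m * k : ℕ) := by push_cast; ring
    rw [ih k hlt hk, h3] at h2
    rw [e]
    simpa using h2.symm

theorem rel_sup {p : ℕ} {lam : ℕ → ℂ} (hp : p.Prime) (hf : T1 C f)
    (h : ∀ q : ℕ, q.Prime → q ≠ p → Rel C N q (lam q) f) (h1 : C.β 1 f = 0) : Sup C p f := by
  intro n hn
  have := rel_zero (M := p) (m := 1) (lam := lam) hf
    (fun q hq hd => h q hq fun e => hd (e ▸ dvd_rfl))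
    (fun q hq hd => absurd (Nat.dvd_one.1 hd) hq.ne_one) (by simpa using h1) n
    ((Nat.Prime.coprime_iff_not_dvd hp).2 hn).symm
  rwa [one_mul] at this

end Rel

end Pool.Agent.MP_b2c033_nt.UN
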