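import Pool.Agent.MP_b2c033_nt.UN.Spec

/-!
One-prime newform theory: the operators of Atkin and Lehner at prime powers.
-/

set_option autoImplicit false

noncomputable section

namespace Pool.Agent.MP_b2c033_nt.UN

open U Finset

namespace ALX

variable {V : Type} [NormedAddCommGroup V] [InnerProductSpace ℂ V] {C : CS V}

/-- multiplicity one away from a prime of the level -/
theorem mult_one (hS : ∀ (p N : ℕ) f, p.Prime → Sup C p f →
      G0 C (p * N) f → G0 C N (C.act (Vd (1 / p)) f))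
    {N p : ℕ} {g z : V} {lam : ℕ → ℂ} (hg : Eig C N g lam) (hp : p.Prime) (hpN : p ∣ N)
    (hz : G0 C N z) (hr : ∀ q : ℕ, q.Prime → q ≠ p → Rel C N q (lam q) z) :
    z = C.β 1 z • g := by
  obtain ⟨M, hM⟩ := hpN
  have hx : G0 C N (z - C.β 1 z • g) := hz.sub (hg.lev.smul _)
  have hrx : ∀ q : ℕ, q.Prime → q ≠ p → Rel C N q (lam q) (z - C.β 1 z • g) :=
    fun q hq hne => (hr q hq hne).sub ((hg.rel q hq).smul _)
  have hs : Sup C p (z - C.β 1 z • g) := rel_sup hp hx.t1 hrx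
    (by rw [map_sub, map_smul, hg.one, smul_eq_mul, mul_one, sub_self])
  have h1 := hS p M _ hp hs (hM ▸ hx)
  have h2 := hg.new p M _ hp hM h1 fun q hq hne => (hrx q hq hne).vi hp.pos
  have hp' : (0 : ℚ) < p := by exact_mod_cast hp.pos
  exact sub_eq_zero.1 (act_inj (by simpa using hp') h2)

/-- all admissible matrices act in the same way -/
theorem same {Q N' : ℕ} {f : V} (hf : G0 C (Q * N') f) {a₀ b₀ : ℤ} (h0 : a₀ * Q - b₀ * N' = 1)
    {a b c d : ℤ} (h1 : a * d - b * c = 1) (hc : (N' : ℤ) ∣ c) (hd : (Q : ℤ) ∣ d) :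
    C.act (zm a b c d) f = C.act (zm a₀ b₀ N' Q) f := by
  have hdet : (a * Q - b * N') * (d * a₀ - c * b₀) - (b * a₀ - a * b₀) * (c * Q - d * N') = 1 := by
    linear_combination (a * d - b * c) * h0 + h1
  have h2 := hf _ _ _ _ hdet (by
    obtain ⟨c', rfl⟩ := hc
    obtain ⟨d', rfl⟩ := hd
    exact ⟨c' - d', by push_cast; ring⟩)
  conv_rhs => rw [← h2]
  rw [act_act (det_zm_pos hdet) (det_zm_pos h0), zm_mul]
  have e1 : (a * Q - b * N') * a₀ + (b * a₀ - a * b₀) * N' = a + (- b * N' * a₀ + b * a₀ * N') := by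
    linear_combination a * h0
  have e2 : (a * Q - b * N') * b₀ + (b * a₀ - a * b₀) * Q = b := by
    linear_combination b * h0
  have e3 : (c * Q - d * N') * a₀ + (d * a₀ - c * b₀) * N' = c := by
    linear_combination c * h0
  have e4 : (c * Q - d * N') * b₀ + (d * a₀ - c * b₀) * Q = d := by
    linear_combination d * h0
  rw [e1, e2, e3, e4, show a + (- b * N' * a₀ + b * a₀ * N') = a by ring]

theorem lev {Q N' : ℕ} (hQ : 0 < Q) {f : V} (hf : G0 C (Q * N') f) {a₀ b₀ : ℤ}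
    (h0 : a₀ * Q - b₀ * N' = 1) :
    G0 C (Q * N') (C.act (Vd Q) (C.act (zm a₀ b₀ N' Q) f)) := by
  rintro a b c d h1 ⟨k, rfl⟩
  have e : ((Q * N' : ℕ) : ℤ) * k = N' * k * Q := by push_cast; ring
  rw [e] at h1 ⊢
  have h2 : a * d - b * Q * (N' * k) = 1 := by linear_combination h1
  rw [zm_Vd hQ h1, act_act (det_zm_pos h0) (det_zm_pos h2), zm_mul,
    same hf h0 (by linear_combination (a₀ * Q - b₀ * N') * h2 + h0) ⟨a + Q * k, by ring⟩
      ⟨N' * b + d, by ring⟩]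

theorem sq {Q N' : ℕ} (hQ : 0 < Q) {f : V} (hf : G0 C (Q * N') f) {a₀ b₀ : ℤ}
    (h0 : a₀ * Q - b₀ * N' = 1) :
    C.act (Vd Q) (C.act (zm a₀ b₀ N' Q) (C.act (Vd Q) (C.act (zm a₀ b₀ N' Q) f))) = f := by
  have hQ' : (0 : ℚ) < Q := by exact_mod_cast hQ
  have hV : 0 < (Vd Q).det := by simpa using hQ'
  have hz := det_zm_pos h0
  have hW : 0 < (zm a₀ b₀ N' Q * Vd Q).det := by rw [Mt.det_mul]; exact mul_pos hz hV
  have hdet : (a₀ ^ 2 * Q + b₀ * N') * (N' * b₀ + Q) - (a₀ * b₀ + b₀) * (N' * Q * a₀ + N' * Q)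
      = 1 := by
    linear_combination (a₀ * Q - b₀ * N' + 1) * h0
  rw [act_act hz hV, act_act hz hV, act_act hW hW,
    act_prop (x := zm (a₀ ^ 2 * Q + b₀ * N') (a₀ * b₀ + b₀) (N' * Q * a₀ + N' * Q) (N' * b₀ + Q))
      Q hQ'.ne' (det_zm_pos hdet) (by ext <;> simp [zm, Vd] <;> ring)]
  exact hf _ _ _ _ hdet ⟨a₀ + 1, by push_cast; ring⟩

end ALX

open ALX in
theorem rAL : OfAL := by
  intro hS hH V _ _ C hC N g lam hg p e N' hp hN hpN
  rcases Nat.eq_zero_or_pos e with rfl | he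
  · refine ⟨1, Or.inl rfl, fun a b c d h1 hc _ => ?_⟩
    rw [pow_zero, one_mul] at hN
    rw [pow_zero, div_one, Vd_one, Int.cast_one, one_smul]
    exact hg.lev a b c d h1 (hN ▸ hc)
  set Q := p ^ e with hQd
  have hQ : 0 < Q := pow_pos hp.pos e
  have hQ' : (0 : ℚ) < Q := by exact_mod_cast hQ
  have hco : Q.Coprime N' := ((Nat.Prime.coprime_iff_not_dvd hp).2 hpN).pow_left e
  obtain ⟨a₀, b₁, hab⟩ := Nat.isCoprime_iff_coprime.2 hco
  have h0 : a₀ * Q - (-b₁) * N' = 1 := by linear_combination hab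
  generalize -b₁ = b₀ at h0
  have hlev : G0 C (Q * N') g := hN ▸ hg.lev
  have hN0 : N' ≠ 0 := fun h => hpN (h ▸ dvd_zero p)
  have hrel : ∀ q : ℕ, q.Prime → q ≠ p →
      Rel C N q (lam q) (C.act (Vd Q) (C.act (zm a₀ b₀ N' Q) g)) := by
    intro q hq hne n
    obtain ⟨k, P, hP, hk⟩ := Nat.exists_eq_pow_mul_and_not_dvd hN0 q hq.ne_one
    have hP0 : 0 < P := Nat.pos_of_ne_zero fun h => hP (h ▸ dvd_zero q)
    have hNe : N = q ^ k * (Q * P * 1) := by rw [hN, hk]; ring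
    have hqQ : ¬q ∣ Q * P * 1 := by
      rw [mul_one, hq.dvd_mul]
      rintro (h | h)
      · exact hne ((Nat.prime_dvd_prime_iff_eq hq hp).1 (hq.dvd_of_dvd_pow h))
      · exact hP h
    have hc : (q : ℤ) ^ k ∣ (N' : ℤ) := ⟨P, by exact_mod_cast hk⟩
    have hCq : Cq q (Q * P : ℕ) (1 : ℕ) a₀ b₀ N' Q a₀ b₀ N' Q := by
      refine ⟨⟨(q : ℤ) ^ k * (1 - q), ?_⟩, by simp⟩
      rw [hk]
      push_cast
      ring
    have key := hH V C hC q k (Q * P) 1 (lam q) g hq (Nat.mul_pos hQ hP0) one_pos hqQ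
      (hNe ▸ hg.lev) (hNe ▸ hg.rel q hq) a₀ b₀ N' Q a₀ b₀ N' Q a₀ b₀ N' Q h0 h0 h0 hc hc hCq
      (fun _ => hCq) (n / Q) (n * P) (by push_cast; field_simp)
    rw [Nat.cast_one, div_one, Vd_one] at key
    have hiff : q ∣ N ↔ ¬k = 0 := by
      constructor
      · rintro h rfl
        rw [pow_zero, one_mul] at hNe
        exact hqQ (hNe ▸ h)
      · intro h
        rw [hNe]
        exact (dvd_pow_self q h).mul_right _
    rw [β_Vn hQ, β_Vn hQ, β_Vn hQ, mul_div_assoc, div_right_comm]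
    by_cases hk0 : k = 0
    · rw [if_pos hk0] at key
      rw [if_neg fun h => hiff.1 h hk0]
      linear_combination (Q : ℂ) * key
    · rw [if_neg hk0] at key
      rw [if_pos (hiff.2 hk0)]
      linear_combination (Q : ℂ) * key
  have hz := mult_one (fun p N f h1 h2 => (hS V C hC p N f h1 h2).1) hg hp
    (hN ▸ (dvd_pow_self p he.ne').mul_right N') (hN ▸ lev hQ hlev h0) hrel
  set w := C.β 1 (C.act (Vd Q) (C.act (zm a₀ b₀ N' Q) g)) with hw
  have hsq := sq hQ hlev h0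
  rw [hz, map_smul, map_smul, hz, smul_smul] at hsq
  have hw2 : w * w = 1 := by
    have := congrArg (C.β 1) hsq
    rwa [map_smul, hg.one, smul_eq_mul, mul_one] at this
  have main : ∀ a b c d : ℤ, a * d - b * c = 1 → (N' : ℤ) ∣ c → (p : ℤ) ^ e ∣ d →
      C.act (zm a b c d) g = w • C.act (Vd (1 / p ^ e)) g := by
    intro a b c d h1 hc hd
    have hQc : ((p : ℚ) ^ e) = Q := by rw [hQd]; push_cast; rfl
    rw [same hlev h0 h1 hc (by rw [hQd]; exact_mod_cast hd), ← map_smul, ← hz, hQc,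
      Vd_Vd hQ' (by positivity), mul_one_div_cancel hQ'.ne', Vd_one]
  rcases mul_self_eq_one_iff.1 hw2 with h | h
  · exact ⟨1, Or.inl rfl, fun a b c d h1 hc hd => by rw [main a b c d h1 hc hd, h, Int.cast_one]⟩
  · exact ⟨-1, Or.inr rfl, fun a b c d h1 hc hd => by
      rw [main a b c d h1 hc hd, h, Int.cast_neg, Int.cast_one]⟩

end Pool.Agent.MP_b2c033_nt.UN
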