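import Pool.Agent.MP_b2c033_nt.UN.Spec

/-!
Row CMP: the eigenvalues of the newform and the numbers of the curve.
-/

set_option autoImplicit false

noncomputable section

namespace Pool.Agent.MP_b2c033_nt.UN

open U

namespace CMPX

variable {V : Type} [NormedAddCommGroup V] [InnerProductSpace ℂ V] {C : CS V}

theorem pw {N p : ℕ} {g : V} {l : ℂ} (h1 : C.β 1 g = 1) (h : Rel C N p l g) (hp : p ∣ N) (j : ℕ) :
    C.β ((p : ℚ) ^ j) g = l ^ j := by
  induction j with
  | zero => simpa using h1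
  | succ j ih =>
    have := h (p ^ j)
    rw [if_pos hp, add_zero, Nat.cast_pow, ih] at this
    rw [pow_succ', ← this, pow_succ']

end CMPX

open CMPX in
theorem rCMP : OfCMP := by
  intro hPER hS1 V _ _ C hC E N g lam hOK hE hL hR hP
  obtain ⟨k, hk, hk1⟩ := (hPER V C hC E.Λ).2.2.2.2 N g hE.pos hE.lev.g1 hP
  have hk0 : (k : ℂ) ≠ 0 := by exact_mod_cast hk.ne'
  have hb : ∀ ν, C.β ν ((k : ℂ) • g) = k * C.β ν g := fun ν => by rw [map_smul, smul_eq_mul]
  have hG : G1 C N ((k : ℂ) • g) := hE.lev.g1.smul _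
  have hRat : C.Rat ((k : ℂ) • g) := fun ν => by
    obtain ⟨r, hr⟩ := hR ν
    exact ⟨k * r, by rw [hb, hr]; push_cast; rfl⟩
  have hne : (k : ℂ) • g ≠ 0 := fun h => by
    have := hb 1
    rw [h, map_zero, hE.one, mul_one] at this
    exact hk0 this.symm
  have S := hS1 V C hC E N _ hE.pos hne hG (hOK.hon N _ hE.pos hG hRat hk1)
  refine ⟨fun p hp hpN => ?_, fun p hp hpN hp2 => ?_⟩
  · obtain ⟨hg, hrel⟩ := S.rel p hp hpN
    refine ⟨hg, mul_left_cancel₀ hk0 ?_⟩
    have h1 := hrel 1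
    have h2 := hE.rel p hp 1
    rw [if_neg hpN, Nat.cast_one] at h1 h2
    rw [hb, hb, hb] at h1
    rw [hE.one] at h1 h2
    linear_combination k * h2 - h1
  · obtain ⟨N', hN⟩ := id hpN
    have hc : p.Coprime N' := (Nat.Prime.coprime_iff_not_dvd hp).2 fun h =>
      hp2 (by rw [hN, pow_two]; exact Nat.mul_dvd_mul_left p h)
    obtain ⟨w, hw, hl, -⟩ := hL.wq p N' hN hc
    have hl' := hl hp
    obtain ⟨K, hK⟩ := S.nil p hp
    have h1 := hK (p ^ (K + 2)) (pow_dvd_pow p (by omega))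
    have hp0 : (p : ℚ) ≠ 0 := by exact_mod_cast hp.pos.ne'
    have e1 : (p : ℚ) ^ (K + 2) / p = (p : ℚ) ^ (K + 1) := by field_simp; ring
    have e2 : (p : ℚ) ^ (K + 2) / p ^ 2 = (p : ℚ) ^ K := by field_simp; ring
    have hpw := pw hE.one (hE.rel p hp) hpN
    rw [ED.Q, β_QQ _ _ hp.pos, Nat.cast_pow, e1, e2, hb, hb, hb, hpw, hpw, hpw] at h1
    have hw2 : (w : ℂ) ^ 2 = 1 := by rcases hw with rfl | rfl <;> simp
    have hl0 : lam p ≠ 0 := fun h => by
      rw [h] at hl'
      rw [neg_eq_zero.1 hl'.symm] at hw2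
      simp at hw2
    have h2 : 1 + E.a p * w + E.ε p * p = 0 := by
      refine mul_left_cancel₀ (mul_ne_zero hk0 (pow_ne_zero K hl0)) ?_
      have h3 : lam p ^ 2 = 1 := by rw [hl', neg_sq, hw2]
      linear_combination h1 - k * lam p ^ K * h3 + k * lam p ^ K * E.a p * hl'
    have hg : ¬E.gd p := fun hg => by
      rw [ED.ε, if_pos hg, one_mul] at h2
      have h3 : 1 + E.a p * w + p = 0 := by exact_mod_cast h2
      have h4 := abs_le.1 (hOK.le p hp)
      rcases hw with rfl | rfl <;> omega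
    rw [ED.ε, if_neg hg, zero_mul, add_zero] at h2
    have h3 : 1 + E.a p * w = 0 := by exact_mod_cast h2
    have h4 : E.a p = -w := by rcases hw with rfl | rfl <;> omega
    refine ⟨hg, by rw [hl', h4, Int.cast_neg], ?_⟩
    rcases hw with rfl | rfl <;> omega

end Pool.Agent.MP_b2c033_nt.UN
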