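import Pool.Agent.MP_b2c033_nt.UN.Spec

/-!
Row DQ: after the operators of the curve at the hypothetical primes the form is an integer
combination of the dilations of the newform.
-/

set_option autoImplicit false

noncomputable section

namespace Pool.Agent.MP_b2c033_nt.UN

open U Finset

namespace DQX

variable {V : Type} [NormedAddCommGroup V] [InnerProductSpace ℂ V] {C : CS V}

/-- The product of the operators of the curve along a list. -/
def QL (C : CS V) (E : ED) : List ℕ → V →ₗ[ℂ] V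
  | [] => LinearMap.id
  | p :: l => (E.Q C p).comp (QL C E l)

theorem QL_cons (E : ED) (p : ℕ) (l : List ℕ) (x : V) :
    QL C E (p :: l) x = E.Q C p (QL C E l x) := rfl

theorem QL_eq (E : ED) (l : List ℕ) (x : V) :
    QL C E l x = l.foldr (fun p x => E.Q C p x) x := by
  induction l with
  | nil => rfl
  | cons p l ih => rw [QL_cons, ih, List.foldr_cons]

theorem QL_append (E : ED) (l l' : List ℕ) (x : V) :
    QL C E (l ++ l') x = QL C E l (QL C E l' x) := by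
  rw [QL_eq, QL_eq, QL_eq, List.foldr_append]

theorem vd_comm {r s : ℚ} (hr : 0 < r) (hs : 0 < s) (x : V) :
    C.act (Vd s) (C.act (Vd r) x) = C.act (Vd r) (C.act (Vd s) x) := by
  rw [Vd_Vd hr hs, Vd_Vd hs hr, mul_comm]

theorem QQ_vd (a ε : ℂ) {p : ℕ} (hp : 0 < p) {r : ℚ} (hr : 0 < r) (x : V) :
    QQ C a ε p (C.act (Vd r) x) = C.act (Vd r) (QQ C a ε p x) := by
  have hp' : (0 : ℚ) < p := by exact_mod_cast hp
  rw [QQ_apply, QQ_apply, map_add, map_sub, map_smul, map_smul, vd_comm hr hp',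
    vd_comm hr (pow_pos hp' 2)]

theorem QQ_QQ (a ε b η : ℂ) {p q : ℕ} (hp : 0 < p) (hq : 0 < q) (x : V) :
    QQ C a ε p (QQ C b η q x) = QQ C b η q (QQ C a ε p x) := by
  have hq' : (0 : ℚ) < q := by exact_mod_cast hq
  rw [QQ_apply b η q x, map_add, map_sub, map_smul, map_smul, QQ_vd a ε hp hq',
    QQ_vd a ε hp (pow_pos hq' 2), QQ_apply b η q]

theorem QL_vd (E : ED) {l : List ℕ} (hl : ∀ q ∈ l, 0 < q) {r : ℚ} (hr : 0 < r) (x : V) :
    QL C E l (C.act (Vd r) x) = C.act (Vd r) (QL C E l x) := by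
  induction l with
  | nil => rfl
  | cons p l ih =>
    rw [QL_cons, QL_cons, ih fun q hq => hl q (List.mem_cons_of_mem _ hq)]
    exact QQ_vd _ _ (hl p List.mem_cons_self) hr _

theorem QL_Q (E : ED) {l : List ℕ} (hl : ∀ q ∈ l, 0 < q) {p : ℕ} (hp : 0 < p) (x : V) :
    QL C E l (E.Q C p x) = E.Q C p (QL C E l x) := by
  induction l with
  | nil => rfl
  | cons q l ih =>
    rw [QL_cons, QL_cons, ih fun q hq => hl q (List.mem_cons_of_mem _ hq)]
    exact QQ_QQ _ _ _ _ (hl q List.mem_cons_self) hp _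

theorem pres (E : ED) (Φ : V → Prop) {l : List ℕ} (h : ∀ q ∈ l, ∀ x, Φ x → Φ (E.Q C q x))
    {x : V} (hx : Φ x) : Φ (QL C E l x) := by
  induction l with
  | nil => exact hx
  | cons q l ih =>
    exact h q List.mem_cons_self _ (ih fun q hq => h q (List.mem_cons_of_mem _ hq))

theorem pres_at (E : ED) (Φ : V → Prop) {l : List ℕ} {p : ℕ} (hn : l.Nodup) (hp : p ∈ l)
    (hl : ∀ q ∈ l, 0 < q) (h : ∀ q ∈ l, q ≠ p → ∀ x, Φ x → Φ (E.Q C q x)) {x : V}
    (hx : Φ (E.Q C p x)) : Φ (QL C E l x) := by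
  induction l with
  | nil => exact absurd hp List.not_mem_nil
  | cons q l ih =>
    have hl' : ∀ r ∈ l, 0 < r := fun r hr => hl r (List.mem_cons_of_mem _ hr)
    rw [List.nodup_cons] at hn
    by_cases hq : q = p
    · subst hq
      rw [QL_cons, ← QL_Q E hl' (hl q List.mem_cons_self)]
      exact pres E Φ (fun r hr => h r (List.mem_cons_of_mem _ hr) fun e => hn.1 (e ▸ hr)) hx
    · exact h q List.mem_cons_self hq _ (ih hn.2 ((List.mem_cons.1 hp).resolve_left (Ne.symm hq))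
        hl' fun r hr => h r (List.mem_cons_of_mem _ hr))

/-- The coefficients at the multiples of `r` lie in `S`. -/
def In (C : CS V) (r : ℕ) (S : AddSubgroup ℂ) (x : V) : Prop :=
  T1 C x ∧ ∀ n : ℕ, r ∣ n → C.β n x ∈ S

theorem In.div {r d n : ℕ} {S : AddSubgroup ℂ} {x : V} (h : In C r S x) (hd : 0 < d)
    (hc : r.Coprime d) (hn : r ∣ n) : C.β (n / d) x ∈ S := by
  by_cases hdn : d ∣ n
  · obtain ⟨m, rfl⟩ := hdn
    have hd' : (d : ℚ) ≠ 0 := by exact_mod_cast hd.ne'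
    rw [Nat.cast_mul, mul_div_cancel_left₀ _ hd']
    exact h.2 m (hc.dvd_of_dvd_mul_left hn)
  · rw [h.1.β_div hd hdn]
    exact S.zero_mem

theorem int_mul_mem {S : AddSubgroup ℂ} (z : ℤ) {w : ℂ} (h : w ∈ S) : (z : ℂ) * w ∈ S := by
  rw [← zsmul_eq_mul]
  exact S.zsmul_mem h z

theorem In.q (E : ED) {r q : ℕ} {S : AddSubgroup ℂ} {x : V} (h : In C r S x) (hq : 0 < q)
    (hc : r.Coprime q) : In C r S (E.Q C q x) := by
  refine ⟨h.1.qq _ _ hq, fun n hn => ?_⟩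
  obtain ⟨e, he⟩ : ∃ e : ℤ, E.ε q * q = e := by
    unfold ED.ε
    split_ifs
    · exact ⟨q, by simp⟩
    · exact ⟨0, by simp⟩
  have h2 := h.div (pow_pos hq 2) (hc.pow_right 2) hn
  rw [Nat.cast_pow] at h2
  rw [ED.Q, β_QQ _ _ hq, he]
  exact S.add_mem (S.sub_mem (h.2 n hn) (int_mul_mem _ (h.div hq hc hn))) (int_mul_mem _ h2)

theorem QQ_inj (a ε : ℂ) {p : ℕ} (hp : 1 < p) {x : V} (hx : T1 C x) (h : QQ C a ε p x = 0) :
    x = 0 := by
  have hp0 : 0 < p := by omega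
  refine hx.ext0 fun n => ?_
  induction n using Nat.strong_induction_on with
  | _ n ih =>
    rcases Nat.eq_zero_or_pos n with rfl | h0
    · exact β_zero x
    have key : ∀ d : ℕ, 1 < d → C.β (n / d) x = 0 := fun d hd => by
      by_cases hdn : d ∣ n
      · obtain ⟨m, rfl⟩ := hdn
        have hd' : (d : ℚ) ≠ 0 := by exact_mod_cast (by omega : d ≠ 0)
        rw [Nat.cast_mul, mul_div_cancel_left₀ _ hd']
        exact ih m (lt_mul_left (Nat.pos_of_mul_pos_left h0) hd)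
      · exact hx.β_div (by omega) hdn
    have h1 := β_QQ (C := C) a ε hp0 n x
    have h2 := key (p ^ 2) (Nat.one_lt_pow two_ne_zero hp)
    rw [Nat.cast_pow] at h2
    rw [h, map_zero, key p hp, h2] at h1
    simpa using h1.symm

theorem QL_t1 (E : ED) {l : List ℕ} (hl : ∀ q ∈ l, 0 < q) {x : V} (hx : T1 C x) :
    T1 C (QL C E l x) :=
  pres E (T1 C) (fun q hq _ h => h.qq _ _ (hl q hq)) hx

theorem QL_inj (E : ED) {l : List ℕ} (hl : ∀ q ∈ l, 1 < q) {x : V} (hx : T1 C x)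
    (h : QL C E l x = 0) : x = 0 := by
  induction l with
  | nil => exact h
  | cons q l ih =>
    have hl' : ∀ r ∈ l, 1 < r := fun r hr => hl r (List.mem_cons_of_mem _ hr)
    exact ih hl' (QQ_inj _ _ (hl q List.mem_cons_self)
      (QL_t1 E (fun r hr => (hl' r hr).trans' one_pos) hx) h)

theorem QL_one (E : ED) {l : List ℕ} (hl : ∀ q ∈ l, 1 < q) {x : V} (hx : T1 C x) :
    C.β (1 : ℕ) (QL C E l x) = C.β (1 : ℕ) x := by
  refine (pres E (fun y => T1 C y ∧ C.β (1 : ℕ) y = C.β (1 : ℕ) x) (fun q hq y hy => ?_)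
    ⟨hx, rfl⟩).2
  have h1 := hl q hq
  have h0 : 0 < q := by omega
  refine ⟨hy.1.qq _ _ h0, ?_⟩
  have h2 := hy.1.β_div (q := q ^ 2) (n := 1) (pow_pos h0 2)
    (Nat.not_dvd_of_pos_of_lt one_pos (Nat.one_lt_pow two_ne_zero h1))
  rw [Nat.cast_pow] at h2
  rw [ED.Q, β_QQ _ _ h0, hy.1.β_div h0 (Nat.not_dvd_of_pos_of_lt one_pos h1), h2, hy.2]
  simp

theorem QL_rel (E : ED) {l : List ℕ} {N q : ℕ} {lam : ℂ} (hq : 0 < q)
    (hl : ∀ p ∈ l, 0 < p ∧ p.Coprime q) {x : V} (hx : T1 C x) (h : Rel C N q lam x) :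
    Rel C N q lam (QL C E l x) :=
  (pres E (fun y => T1 C y ∧ Rel C N q lam y) (fun p hp _ hy =>
    ⟨hy.1.qq _ _ (hl p hp).1, hy.2.qq hy.1 _ _ (hl p hp).1 hq (hl p hp).2⟩) ⟨hx, h⟩).2

theorem split {M : ℕ} (n : ℕ) (hn : 0 < n) :
    ∃ m k : ℕ, n = m * k ∧ (∀ q : ℕ, q.Prime → q ∣ m → q ∣ M) ∧ k.Coprime M := by
  induction n using Nat.strong_induction_on with
  | _ n ih =>
    by_cases hc : n.Coprime M
    · exact ⟨1, n, (one_mul n).symm, fun q hq hd => absurd (Nat.dvd_one.1 hd) hq.ne_one, hc⟩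
    · obtain ⟨q, hq, ⟨j, rfl⟩, hM⟩ := Nat.Prime.not_coprime_iff_dvd.1 hc
      have hj : 0 < j := Nat.pos_of_mul_pos_left hn
      obtain ⟨m, k, rfl, h1, h2⟩ := ih j (lt_mul_left hj hq.one_lt) hj
      refine ⟨q * m, k, (mul_assoc _ _ _).symm, fun r hr hd => ?_, h2⟩
      rcases hr.dvd_mul.1 hd with h | h
      · rwa [(Nat.prime_dvd_prime_iff_eq hr hq).1 h]
      · exact h1 r hr h

theorem rel_sum {N q : ℕ} {lam : ℂ} (s : Finset ℕ) (u : ℕ → V)
    (h : ∀ i ∈ s, Rel C N q lam (u i)) : Rel C N q lam (∑ i ∈ s, u i) :=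
  sum_induction u (Rel C N q lam) (fun _ _ => Rel.add) (fun n => by simp) h

theorem t1_sum (s : Finset ℕ) (u : ℕ → V) (h : ∀ i ∈ s, T1 C (u i)) : T1 C (∑ i ∈ s, u i) :=
  sum_induction u (T1 C) (fun _ _ => T1.add) (map_zero _) h

/-- The expansion along the dilations of a depleted eigenform. -/
theorem expand {M D : ℕ} (hD : 0 < D) (hDM : ∀ q : ℕ, q.Prime → q ∣ D → q ∣ M) (a : ℕ → ℂ)
    {h f : V} (th : T1 C h) (tf : T1 C f)
    (rh : ∀ q : ℕ, q.Prime → ¬q ∣ M → Rel C M q (a q) h)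
    (rf : ∀ q : ℕ, q.Prime → ¬q ∣ M → Rel C M q (a q) f)
    (df : ∀ q : ℕ, q.Prime → q ∣ M → Dep C q f) (f1 : C.β (1 : ℕ) f = 1) (z : ℕ → ℂ)
    (hz : ∀ m : ℕ, m ∣ D → C.β m h = m * z m)
    (h0 : ∀ m : ℕ, (∀ q : ℕ, q.Prime → q ∣ m → q ∣ M) → ¬m ∣ D → C.β m h = 0) :
    h = ∑ m ∈ D.divisors, z m • C.act (Vd m) f := by
  have ts : T1 C (∑ m ∈ D.divisors, z m • C.act (Vd m) f) :=
    t1_sum _ _ fun m hm => (tf.vd (Nat.pos_of_mem_divisors hm)).smul _
  refine sub_eq_zero.1 ((th.sub ts).ext0 fun n => ?_)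
  rcases Nat.eq_zero_or_pos n with rfl | hn
  · exact β_zero _
  obtain ⟨m, k, rfl, hm, hk⟩ := split (M := M) n hn
  have hm0 : 0 < m := Nat.pos_of_mul_pos_right hn
  refine rel_zero (N := M) (lam := a) (th.sub ts) (fun q hq hqM => (rh q hq hqM).sub
    (rel_sum _ _ fun j hj => ((rf q hq hqM).vd tf (Nat.pos_of_mem_divisors hj) hq.pos ?_).smul _))
    hm ?_ k hk
  · exact ((Nat.Prime.coprime_iff_not_dvd hq).2 fun hd =>
      hqM (hDM q hq (hd.trans (Nat.dvd_of_mem_divisors hj)))).symm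
  have key : ∀ j ∈ D.divisors, C.β m (z j • C.act (Vd j) f) = if m = j then m * z m else 0 := by
    intro j hj
    have hj0 := Nat.pos_of_mem_divisors hj
    have hj' : (j : ℚ) ≠ 0 := by exact_mod_cast hj0.ne'
    rw [map_smul, β_Vn hj0, smul_eq_mul]
    split_ifs with e
    · subst e
      rw [div_self hj', ← Nat.cast_one (R := ℚ), f1]
      ring
    · by_cases hd : j ∣ m
      · obtain ⟨i, rfl⟩ := hd
        have hi : i ≠ 1 := fun e' => e (by rw [e', mul_one])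
        obtain ⟨q, hq, hqi⟩ := Nat.exists_prime_and_dvd hi
        rw [Nat.cast_mul, mul_div_cancel_left₀ _ hj', df q hq (hm q hq (hqi.mul_left _)) i hqi]
        simp
      · rw [tf.β_div hj0 hd]
        simp
  rw [map_sub, map_sum, sum_congr rfl key, sum_ite_eq]
  split_ifs with e
  · rw [hz m (Nat.dvd_of_mem_divisors e), sub_self]
  · rw [h0 m hm fun hd => e (Nat.mem_divisors.2 ⟨hd, hD.ne'⟩), sub_self]

theorem dep_Q {E : ED} {N p : ℕ} {g : V} {lam : ℕ → ℂ} (hp : p.Prime) (hL : Loc C N g lam)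
    (hC : Cmp E N lam) (hH : ¬E.Hy N p) (hr : Rel C N p (lam p) g) : Dep C p (E.Q C p g) := by
  have key : lam p = E.a p ∧ E.ε p = if p ∣ N then 0 else 1 := by
    unfold ED.ε
    by_cases h1 : p ∣ N
    · by_cases h2 : p ^ 2 ∣ N
      · have h3 : ¬E.gd p ∧ E.a p = 0 := by
          by_contra hc
          exact hH ⟨h2, by tauto⟩
        obtain ⟨N', rfl⟩ := h1
        have h4 : p ∣ N' := Nat.dvd_of_mul_dvd_mul_left hp.pos (by rwa [← sq])
        rw [(hL.e2 p N' hp rfl h4).1, h3.2, if_neg h3.1, if_pos (dvd_mul_right _ _)]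
        simp
      · have h3 := hC.e1 p hp h1 h2
        rw [if_neg h3.1, if_pos h1]
        exact ⟨h3.2.1, rfl⟩
    · have h3 := hC.e0 p hp h1
      rw [if_pos h3.1, if_neg h1]
      exact ⟨h3.2, rfl⟩
  rintro n ⟨k, rfl⟩
  have hp' : (p : ℚ) ≠ 0 := by exact_mod_cast hp.ne_zero
  have e1 : ((p * k : ℕ) : ℚ) / p = k := by push_cast; field_simp
  have e2 : ((p * k : ℕ) : ℚ) / p ^ 2 = k / p := by push_cast; field_simp
  have h1 := hr k
  rw [ED.Q, β_QQ _ _ hp.pos, e1, e2, ← key.1, key.2, Nat.cast_mul]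
  split_ifs at h1 ⊢ <;> linear_combination -h1

theorem dep_hy {E : ED} {N p : ℕ} {g : V} {lam : ℕ → ℂ} (hp : p.Prime) (hL : Loc C N g lam)
    (hH : E.Hy N p) (hr : Rel C N p (lam p) g) : Dep C p g := by
  have h1 : p ∣ N := (dvd_pow_self p two_ne_zero).trans hH.1
  rintro n ⟨k, rfl⟩
  have h2 := hr k
  rw [if_pos h1] at h2
  obtain ⟨N', rfl⟩ := h1
  have h4 : p ∣ N' := Nat.dvd_of_mul_dvd_mul_left hp.pos (by rw [← sq]; exact hH.1)
  rw [(hL.e2 p N' hp rfl h4).1] at h2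
  rw [Nat.cast_mul]
  simpa using h2.symm

theorem mem_zm {c w : ℂ} : w ∈ AddSubgroup.zmultiples c ↔ ∃ z : ℤ, w = c * z := by
  rw [AddSubgroup.mem_zmultiples_iff]
  exact exists_congr fun z => by rw [zsmul_eq_mul, mul_comm, eq_comm]

end DQX

open DQX in
theorem rDQ : SDQ := by
  intro V _ _ C _ E M N F g lam hM hH h1 hc hL hC l hl hmem
  classical
  let l' : List ℕ := (M.primeFactors.filter fun p => p ∉ l).toList
  have hl' : ∀ p, p ∈ l' ↔ (p.Prime ∧ p ∣ M) ∧ p ∉ l := fun p => by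
    simp [l', hM.ne', and_assoc]
  have hlM : ∀ p ∈ l, p.Prime ∧ p ∣ M := fun p hp => by
    obtain ⟨h2, h3⟩ := (hmem p).1 hp
    exact ⟨h2, hc.dvd p h2 ((dvd_pow_self p two_ne_zero).trans h3.1)⟩
  have hn' : l'.Nodup := Finset.nodup_toList _
  have hLn : (l' ++ l).Nodup :=
    List.Nodup.append hn' hl fun p hp hq => ((hl' p).1 hp).2 hq
  have hLm : ∀ p, p ∈ l' ++ l ↔ p.Prime ∧ p ∣ M := fun p => by
    rw [List.mem_append, hl']
    have := hlM p
    tauto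
  have hL0 : ∀ p ∈ l' ++ l, 0 < p := fun p hp => ((hLm p).1 hp).1.pos
  have h0' : ∀ p ∈ l', 0 < p := fun p hp => ((hl' p).1 hp).1.1.pos
  have h1' : ∀ p ∈ l', 1 < p := fun p hp => ((hl' p).1 hp).1.1.one_lt
  have tF : T1 C F := h1.lev.t1
  have tg : T1 C g := hc.lev.t1
  have cop : ∀ p q k : ℕ, p.Prime → q.Prime → q ≠ p → (p ^ k).Coprime q := fun p q k hp hq e =>
    ((Nat.coprime_primes hp hq).2 e.symm).pow_left k
  have at' : ∀ (p k : ℕ) (S : AddSubgroup ℂ), p.Prime → p ∣ M →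
      (∀ n : ℕ, p ^ k ∣ n → C.β n (E.Q C p F) ∈ S) →
      ∀ n : ℕ, p ^ k ∣ n → C.β n (QL C E (l' ++ l) F) ∈ S := fun p k S hp hpM h =>
    (pres_at E (In C (p ^ k) S) hLn ((hLm p).2 ⟨hp, hpM⟩) hL0
      (fun q hq e _ hx => hx.q E (hL0 q hq) (cop p q k hp ((hLm q).1 hq).1 e))
      ⟨tF.qq _ _ hp.pos, h⟩).2
  have hint : ∀ n : ℕ, ∃ w : ℤ, C.β n (QL C E (l' ++ l) F) = w := fun n => by
    have := (pres E (In C 1 (AddSubgroup.zmultiples 1)) (l := l' ++ l)
      (fun q hq _ hx => hx.q E (hL0 q hq) (Nat.coprime_one_left q))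
      ⟨tF, fun n _ => mem_zm.2 (by simpa using hH.1 n)⟩).2 n (one_dvd n)
    simpa using mem_zm.1 this
  have hdiv : ∀ m : ℕ, ∃ z : ℤ, (∀ q : ℕ, q.Prime → q ∣ m → q ∣ M) →
      C.β m (QL C E (l' ++ l) F) = m * z := fun m => by
    by_cases hm : ∀ q : ℕ, q.Prime → q ∣ m → q ∣ M
    swap
    · exact ⟨0, fun h => absurd h hm⟩
    obtain ⟨w, hw⟩ := hint m
    have hd : m ∣ w.natAbs := (Nat.dvd_iff_prime_pow_dvd_dvd _ _).2 fun p k hp hk => by
      rcases Nat.eq_zero_or_pos k with rfl | hk0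
      · simp
      obtain ⟨z, hz⟩ := mem_zm.1 (at' p k (AddSubgroup.zmultiples ((p : ℂ) ^ k)) hp
        (hm p hp ((dvd_pow_self p hk0.ne').trans hk))
        (fun n hn => mem_zm.2 (hH.2 p k n hp hn)) m hk)
      rw [hw] at hz
      have hz' : w = (p ^ k : ℕ) * z := by exact_mod_cast hz
      exact Int.natCast_dvd.1 ⟨z, hz'⟩
    obtain ⟨z, hz⟩ := Int.natCast_dvd.2 hd
    exact ⟨z, fun _ => by rw [hw, hz]; simp⟩
  choose z hz using hdiv
  choose! K hK using h1.nil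
  let D : ℕ := M ^ M.primeFactors.sup K
  have hD : 0 < D := pow_pos hM _
  have hDM : ∀ q : ℕ, q.Prime → q ∣ D → q ∣ M := fun q hq h => hq.dvd_of_dvd_pow h
  have hcop : ∀ q : ℕ, q.Prime → ¬q ∣ M → ∀ p ∈ l' ++ l, 0 < p ∧ p.Coprime q :=
    fun q hq hqM p hp => ⟨hL0 p hp, (Nat.coprime_primes ((hLm p).1 hp).1 hq).2
      fun e => hqM (e ▸ ((hLm p).1 hp).2)⟩
  have main := expand (C := C) hD hDM (fun q => E.a q) (h := QL C E (l' ++ l) F)
    (f := QL C E l' g) (QL_t1 E hL0 tF) (QL_t1 E h0' tg)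
    (fun q hq hqM => QL_rel E hq.pos (hcop q hq hqM) tF (h1.rel q hq hqM).2)
    (fun q hq hqM => QL_rel E hq.pos
      (fun p hp => hcop q hq hqM p (List.mem_append_left _ hp)) tg (by
        rw [← hc.out q hq hqM]
        exact (hc.rel q hq).lev ⟨fun h => absurd (hc.dvd q hq h) hqM, fun h => absurd h hqM⟩))
    (fun q hq hqM => by
      have hpr : ∀ r ∈ l', r ≠ q → ∀ x, In C q ⊥ x → In C q ⊥ (E.Q C r x) :=
        fun r hr e _ hx => hx.q E (h0' r hr) ((Nat.coprime_primes hq ((hl' r).1 hr).1.1).2 e.symm)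
      by_cases hql : q ∈ l
      · exact (pres E (In C q ⊥) (l := l')
          (fun r hr => hpr r hr fun e => ((hl' r).1 hr).2 (e ▸ hql))
          ⟨tg, dep_hy hq hL ((hmem q).1 hql).2 (hc.rel q hq)⟩).2
      · exact (pres_at E (In C q ⊥) hn' ((hl' q).2 ⟨⟨hq, hqM⟩, hql⟩) h0' hpr
          ⟨tg.qq _ _ hq.pos, dep_Q hq hL hC (fun h => hql ((hmem q).2 ⟨hq, h⟩))
            (hc.rel q hq)⟩).2)
    (by rw [QL_one E h1' tg, Nat.cast_one, hc.one]) (fun m => z m)
    (fun m hm => hz m fun q hq h => hDM q hq (h.trans hm))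
    (fun m hm hmD => by
      rw [Nat.dvd_iff_prime_pow_dvd_dvd] at hmD
      push Not at hmD
      obtain ⟨p, k, hp, hk, hkD⟩ := hmD
      have hk0 : k ≠ 0 := by
        rintro rfl
        simp at hkD
      have hpM : p ∣ M := hm p hp ((dvd_pow_self p hk0).trans hk)
      have hle : K p ≤ k := by
        by_contra hlt
        have h2 : K p ≤ M.primeFactors.sup K :=
          le_sup (f := K) (Nat.mem_primeFactors.2 ⟨hp, hpM, hM.ne'⟩)
        exact hkD ((pow_dvd_pow p (by omega)).trans (pow_dvd_pow_of_dvd hpM _))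
      exact at' p (K p) ⊥ hp hpM (hK p hp) m ((pow_dvd_pow p hle).trans hk))
  have tX : T1 C (∑ m ∈ D.divisors, (z m : ℂ) • C.act (Vd m) g) :=
    t1_sum _ _ fun m hm => (tg.vd (Nat.pos_of_mem_divisors hm)).smul _
  have fin : QL C E l F = ∑ m ∈ D.divisors, (z m : ℂ) • C.act (Vd m) g := by
    refine sub_eq_zero.1 (QL_inj E h1'
      ((QL_t1 E (fun p hp => (hlM p hp).1.pos) tF).sub tX) ?_)
    rw [map_sub, ← QL_append, main, map_sum, sub_eq_zero]
    refine sum_congr rfl fun m hm => ?_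
    rw [map_smul, QL_vd E h0' (by exact_mod_cast Nat.pos_of_mem_divisors hm)]
  rw [← QL_eq, fin]
  refine Submodule.sum_mem _ fun m hm => ?_
  rw [Int.cast_smul_eq_zsmul]
  exact Submodule.smul_mem _ _ (Submodule.subset_span ⟨m, Nat.pos_of_mem_divisors hm, rfl⟩)

end Pool.Agent.MP_b2c033_nt.UN
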