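import Pool.Agent.MP_b2c033_nt.UN.Spec

/-!
One-prime newform theory: a normalised eigenform exists at some level.
-/

set_option autoImplicit false

noncomputable section

namespace Pool.Agent.MP_b2c033_nt.UN

open U Finset

namespace F0X

variable {V : Type} [NormedAddCommGroup V] [InnerProductSpace ℂ V] {C : CS V} {E : ED}
  {M N p : ℕ} {x : V}

/-- The properties that are kept. -/
structure W (C : CS V) (E : ED) (M N : ℕ) (x : V) : Prop where
  lev : G0 C N x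
  rel : ∀ l : ℕ, l.Prime → ¬l ∣ M → Rel C M l (E.a l) x
  rat : C.Rat x
  per : PerL C E.Λ x

theorem rat_of (h : T1 C x) (H : ∀ n : ℕ, ∃ r : ℚ, C.β n x = r) : C.Rat x := fun ν => by
  by_cases q : C.β ν x = 0
  · exact ⟨0, by simpa using q⟩
  · obtain ⟨n, -, rfl⟩ := h.nat q
    exact H n

theorem cop {l : ℕ} (hp : p.Prime) (hl : l.Prime) (h : p ∣ M) (h' : ¬l ∣ M) : l.Coprime p :=
  (Nat.coprime_primes hl hp).2 fun e => h' (e ▸ h)

theorem W.smul (hP : SPER) (hC : C.Good) (h : W C E M N x) (r : ℚ) : W C E M N ((r : ℂ) • x) :=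
  ⟨h.lev.smul _, fun l a b => (h.rel l a b).smul _, fun ν => by
    obtain ⟨s, hs⟩ := h.rat ν
    exact ⟨r * s, by rw [map_smul, hs, smul_eq_mul, Rat.cast_mul]⟩,
    (hP V C hC E.Λ).2.2.1 x r h.per⟩

theorem W.up (hH : SHE) (hP : SPER) (hC : C.Good) (h : W C E M N x) (hp : p.Prime) (hN : p ∣ N)
    (hM : p ∣ M) : W C E M N (Up C p x) := by
  obtain ⟨p0, p1, -, p3, -⟩ := hP V C hC E.Λ
  refine ⟨(hH V C hC p N x hp).2.1 hN (h.lev.mono (dvd_mul_left _ _)),
    fun l a b => (h.rel l a b).up h.lev.t1 hp.pos a.pos (cop hp a hM b),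
    rat_of (h.lev.t1.up hp.pos) fun n => ?_, ?_⟩
  · rw [β_Up hp.pos]
    exact h.rat _
  · rw [Up_apply]
    exact sum_induction _ _ p1 p0 fun t _ => p3 x _ (by simpa [Mt.det] using hp.pos) h.per

theorem W.dep (hH : SHE) (hP : SPER) (hC : C.Good) (h : W C E M N x) (hp : p.Prime) (hN : p ∣ N)
    (hM : p ∣ M) : W C E M (N * p) (x - Pj C p x) := by
  obtain ⟨-, p1, p2, p3, -⟩ := hP V C hC E.Λ
  have u := h.up hH hP hC hp hN hM
  have t := h.lev.t1
  refine ⟨(h.lev.mono (dvd_mul_right _ _)).sub ?_,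
    fun l a b => (h.rel l a b).sub ((h.rel l a b).pj t hp.pos a.pos (cop hp a hM b).symm),
    rat_of (t.sub (t.pj hp.pos)) fun n => ?_, ?_⟩
  · rw [Pj_eq hp.pos]
    exact (u.lev.vd hp.pos).smul _
  · rw [map_sub, β_Pj t hp.pos]
    split_ifs
    · exact ⟨0, by simp⟩
    · simpa using h.rat n
  · have := p1 _ _ h.per (p2 _ (-(p : ℚ)⁻¹) (p3 _ (Vd p) (by simpa using hp.pos) u.per))
    rw [Pj_eq hp.pos, sub_eq_add_neg, ← neg_smul]
    simpa using this

theorem one (hH : SHE) (hP : SPER) (hC : C.Good) (n : ℕ) : ∀ x, W C E M M x → C.β n x ≠ 0 →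
    ∃ y, W C E M M y ∧ C.β 1 y = 1 := by
  induction n using Nat.strong_induction_on with
  | _ n ih =>
    intro x h h0
    by_cases h1 : n = 1
    · subst h1
      obtain ⟨r, hr⟩ := h.rat 1
      rw [Nat.cast_one] at h0
      refine ⟨_, h.smul hP hC r⁻¹, ?_⟩
      rw [map_smul, smul_eq_mul, Rat.cast_inv, ← hr, inv_mul_cancel₀ h0]
    obtain ⟨q, hq, k, rfl⟩ := Nat.exists_prime_and_dvd h1
    have k0 : 0 < k := Nat.pos_of_ne_zero fun e => h0 (by rw [e, mul_zero]; exact β_zero x)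
    have lt : k < q * k := lt_mul_left k0 hq.one_lt
    rw [Nat.cast_mul] at h0
    by_cases hM : q ∣ M
    · exact ih k lt _ (h.up hH hP hC hq hM hM) (by rwa [β_Up hq.pos])
    by_cases a : C.β k x = 0
    · have e := h.rel q hq hM k
      have b : C.β (k / q) x ≠ 0 := fun b => h0 (by simpa [a, b] using e.symm)
      obtain ⟨m, -, hm⟩ := h.lev.t1.nat b
      have q0 : (q : ℚ) ≠ 0 := by exact_mod_cast hq.ne_zero
      have e2 : k = m * q := by exact_mod_cast (div_eq_iff q0).1 hm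
      exact ih m ((e2 ▸ Nat.le_mul_of_pos_right m hq.pos).trans_lt lt) x h (hm ▸ b)
    · exact ih k lt x h a

theorem all (hH : SHE) (hP : SPER) (hC : C.Good) (hM : 0 < M) (h : W C E M M x)
    (h1 : C.β 1 x = 1) (s : Finset ℕ) (hs : ∀ p ∈ s, p.Prime ∧ p ∣ M) :
    ∃ N y, 0 < N ∧ M ∣ N ∧ (∀ p : ℕ, p.Prime → p ∣ N → p ∣ M) ∧ W C E M N y ∧ C.β 1 y = 1 ∧
      ∀ q ∈ s, Dep C q y := by
  induction s using Finset.induction_on with
  | empty => exact ⟨M, x, hM, dvd_rfl, fun _ _ a => a, h, h1, by simp⟩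
  | insert p s _ ih =>
    obtain ⟨N, y, a1, a2, a3, a4, a5, a6⟩ := ih fun q hq => hs q (mem_insert_of_mem hq)
    obtain ⟨hp, hd⟩ := hs p (mem_insert_self _ _)
    have t := a4.lev.t1
    refine ⟨N * p, _, Nat.mul_pos a1 hp.pos, a2.mul_right p, fun q hq b => ?_,
      a4.dep hH hP hC hp (hd.trans a2) hd, ?_, fun q hq n hn => ?_⟩
    · exact (hq.dvd_mul.1 b).elim (a3 q hq) fun c => c.trans hd
    · have := β_Pj t hp.pos 1
      rw [if_neg hp.not_dvd_one, Nat.cast_one] at this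
      rw [map_sub, this, a5, sub_zero]
    · rw [map_sub, β_Pj t hp.pos]
      rcases mem_insert.1 hq with rfl | hq
      · rw [if_pos hn, sub_self]
      · simp [a6 q hq n hn]

end F0X

open F0X in
theorem rF0 : OfF0 := by
  intro hH hP V _ _ C hC E M F hM hF h hr hp
  obtain ⟨n, hn⟩ : ∃ n : ℕ, C.β n F ≠ 0 := by
    by_contra q
    exact hF (h.lev.t1.ext0 fun n => by_contra fun z => q ⟨n, z⟩)
  obtain ⟨x, w, h1⟩ := one hH hP hC n F ⟨h.lev, fun l a b => (h.rel l a b).2, hr, hp⟩ hn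
  obtain ⟨N, y, a1, a2, a3, a4, a5, a6⟩ := all hH hP hC hM w h1 M.primeFactors fun p q =>
    ⟨Nat.prime_of_mem_primeFactors q, Nat.dvd_of_mem_primeFactors q⟩
  refine ⟨N, y, fun q => if q ∣ M then 0 else E.a q, a1, a3, a4.lev, a5, fun q hq => ?_,
    fun l _ b => if_neg b, a4.rat, a4.per⟩
  by_cases b : q ∣ M
  · intro n
    have := a6 q (hq.mem_primeFactors b hM.ne') (q * n) (dvd_mul_right _ _)
    rw [Nat.cast_mul] at this
    simp [b, b.trans a2, this]
  · simp only [if_neg b]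
    exact (a4.rel q hq b).lev ⟨fun c => c.trans a2, a3 q hq⟩

end Pool.Agent.MP_b2c033_nt.UN
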