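import Pool.Agent.MP_b2c033_nt.UN.Spec

/-!
The Hecke operators preserve the levels.
-/

set_option autoImplicit false

noncomputable section

namespace Pool.Agent.MP_b2c033_nt.UN

open U Finset

namespace HEX

/-- A coordinate of the row of a point of the projective line. -/
def rx {p : ℕ} (i : Option (Fin p)) (x y : ℤ) : ℤ := i.elim y fun t => x + (t : ℕ) * y

/-- The linear form that vanishes at a point of the projective line. -/
def kp {p : ℕ} (j : Option (Fin p)) (x y : ℤ) : ℤ := j.elim x fun s => y - (s : ℕ) * x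

theorem kp_lin {p : ℕ} {j : Option (Fin p)} {x y : ℤ} (h : (p : ℤ) ∣ kp j x y) (u v k : ℤ) :
    (p : ℤ) ∣ kp j (p * u + k * x) (p * v + k * y) := by
  obtain ⟨w, hw⟩ := h
  cases j with
  | none => exact ⟨u + k * w, by simp only [kp, Option.elim] at hw ⊢; linear_combination k * hw⟩
  | some s => exact ⟨v - (s : ℕ) * u + k * w, by
      simp only [kp, Option.elim] at hw ⊢
      linear_combination k * hw⟩

theorem kp_ex {p : ℕ} (hp : p.Prime) (x y : ℤ) : ∃ j : Option (Fin p), (p : ℤ) ∣ kp j x y := by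
  by_cases h : (p : ℤ) ∣ x
  · exact ⟨none, h⟩
  obtain ⟨u, v, e⟩ := ((Nat.prime_iff_prime_int.1 hp).coprime_iff_not_dvd).2 h
  have p0 : (0 : ℤ) < p := Int.natCast_pos.2 hp.pos
  have h1 := Int.emod_nonneg (y * v) p0.ne'
  have h2 := Int.emod_lt_of_pos (y * v) p0
  refine ⟨some ⟨((y * v) % p).toNat, by omega⟩, y * u + y * v / p * x, ?_⟩
  simp only [kp, Option.elim, Int.toNat_of_nonneg h1]
  rw [Int.emod_def]
  linear_combination (-y) * e

theorem kp_det {p : ℕ} {j : Option (Fin p)} {x y x' y' : ℤ} (h : (p : ℤ) ∣ kp j x y)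
    (h' : (p : ℤ) ∣ kp j x' y') : (p : ℤ) ∣ x * y' - y * x' := by
  obtain ⟨w, hw⟩ := h
  obtain ⟨w', hw'⟩ := h'
  cases j with
  | none => exact ⟨w * y' - y * w', by
      simp only [kp, Option.elim] at hw hw'
      linear_combination y' * hw - y * hw'⟩
  | some s => exact ⟨x * w' - x' * w, by
      simp only [kp, Option.elim] at hw hw'
      linear_combination x * hw' - x' * hw⟩

theorem not_one {p : ℕ} (hp : p.Prime) : ¬(p : ℤ) ∣ 1 := (Nat.prime_iff_prime_int.1 hp).not_dvd_one

/-- A matrix of determinant one permutes the projective line. -/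
theorem perm {p : ℕ} (hp : p.Prime) {a b c d : ℤ} (h : a * d - b * c = 1) :
    ∃ j : Option (Fin p) → Option (Fin p), Function.Injective j ∧
      ∀ i, (p : ℤ) ∣ kp (j i) (rx i a c) (rx i b d) := by
  choose j hj using fun i : Option (Fin p) => kp_ex hp (rx i a c) (rx i b d)
  refine ⟨j, fun i i' e => ?_, hj⟩
  obtain ⟨w, hw⟩ := kp_det (hj i) (e ▸ hj i')
  rcases i with _ | t <;> rcases i' with _ | t' <;> simp only [rx, Option.elim] at hw
  · rfl
  · exact absurd ⟨-w, by linear_combination -hw - h⟩ (not_one hp)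
  · exact absurd ⟨w, by linear_combination hw - h⟩ (not_one hp)
  · have h1 : (p : ℤ) ∣ ((t' : ℕ) : ℤ) - (t : ℕ) :=
      ⟨w, by linear_combination hw - (((t' : ℕ) : ℤ) - (t : ℕ)) * h⟩
    exact congrArg some (Fin.ext ((Nat.modEq_iff_dvd.2 h1).eq_of_lt_of_lt t.2 t'.2))

variable {V : Type} [NormedAddCommGroup V] [InnerProductSpace ℂ V] {C : CS V} {f : V}
  {M N A B D E a b c d : ℤ} {p : ℕ}

/-- Fixed by the matrices with `N ∣ c` and `a = 1` modulo `M`. -/
def GM (C : CS V) (M N : ℤ) (f : V) : Prop :=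
  ∀ a b c d : ℤ, a * d - b * c = 1 → N ∣ c → M ∣ a - 1 → C.act (zm a b c d) f = f

theorem gm0 {N : ℕ} : GM C 1 N f ↔ G0 C N f :=
  ⟨fun h a b c d h1 h2 => h a b c d h1 h2 (one_dvd _), fun h a b c d h1 h2 _ => h a b c d h1 h2⟩

theorem gm1 {N : ℕ} : GM C N N f ↔ G1 C N f :=
  ⟨fun h a b c d h1 h2 h3 => h a b c d h1 h2 (by
    rw [show a - 1 = b * c - a * (d - 1) by linear_combination h1]
    exact dvd_sub (h2.mul_left _) (h3.mul_left _)), fun h a b c d h1 h2 h3 => h a b c d h1 h2 (by
    rw [show d - 1 = b * c - d * (a - 1) by linear_combination h1]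
    exact dvd_sub (h2.mul_left _) (h3.mul_left _))⟩

theorem pos (hp : 0 < p) (h : A * E - B * D = p) : 0 < (zm A B D E).det := by
  rw [det_zm, h]
  exact_mod_cast hp

theorem zm_eq {x y z w x' y' z' w' : ℤ} (h1 : x = x') (h2 : y = y') (h3 : z = z') (h4 : w = w') :
    C.act (zm x y z w) f = C.act (zm x' y' z' w') f := by rw [h1, h2, h3, h4]

theorem up_term (hf : GM C M N f) (hp : 0 < p) {s : ℤ} (h : A * E - B * D = p) (h1 : N ∣ D)
    (h2 : M ∣ A - 1) (h3 : (p : ℤ) ∣ B - s * A) (h4 : (p : ℤ) ∣ E - s * D) :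
    C.act (zm A B D E) f = C.act (zm 1 s 0 p) f := by
  obtain ⟨x, hx⟩ := h3
  obtain ⟨y, hy⟩ := h4
  have e : A * y - x * D = 1 := mul_left_cancel₀ (Int.natCast_ne_zero.2 hp.ne')
    (by linear_combination h - A * hy + D * hx)
  conv_rhs => rw [← hf A x D y e h1 h2]
  rw [act_act (det_zm_pos e) (pos hp (by ring)), zm_mul]
  exact zm_eq (by ring) (by linear_combination hx) (by ring) (by linear_combination hy)

theorem same (hf : GM C M N f) (hM : M ∣ N) (h : A * E - B * D = 1) (h0 : a * d - b * c = 1)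
    (h1 : N ∣ D) (h2 : N ∣ c) (h3 : M ∣ A * d - 1) :
    C.act (zm A B D E) f = C.act (zm a b c d) f := by
  have e : (A * d - B * c) * (E * a - D * b) - (B * a - A * b) * (D * d - E * c) = 1 := by
    linear_combination (a * d - b * c) * h + h0
  conv_rhs => rw [← hf _ _ _ _ e (dvd_sub (h1.mul_right _) (h2.mul_left _)) (by
    rw [sub_right_comm]
    exact dvd_sub h3 ((hM.trans h2).mul_left _))]
  rw [act_act (det_zm_pos e) (det_zm_pos h0), zm_mul]
  exact zm_eq (by linear_combination (-A) * h0) (by linear_combination (-B) * h0)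
    (by linear_combination (-D) * h0) (by linear_combination (-E) * h0)

theorem vd_eq (hp : 0 < p) (h : a * d - b * c = 1) :
    C.act (Vd p) (C.act (zm a b c d) f) = C.act (zm (p * a) b (p * c) d) f := by
  rw [act_act (det_zm_pos h) (by simpa using hp)]
  exact congrArg (fun x => C.act x f) (by ext <;> simp [zm, Vd, mul_comm])

/-- The terms of the Hecke operator. -/
def tm (C : CS V) (f z : V) (i : Option (Fin p)) : V :=
  i.elim z fun t => C.act (zm 1 (t : ℕ) 0 p) f

theorem tm_sum (z : V) : ∑ i : Option (Fin p), tm C f z i = Up C p f + z := by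
  rw [Fintype.sum_option, Up_apply, sum_range, add_comm]
  simp [tm, zm]

theorem tm_act (hp : 0 < p) (h : a * d - b * c = 1) (z : V) (t : Fin p) :
    C.act (zm a b c d) (tm C f z (some t)) =
      C.act (zm (rx (some t) a c) (rx (some t) b d) (p * c) (p * d)) f := by
  simp only [tm, rx, Option.elim]
  rw [act_act (pos hp (by ring)) (det_zm_pos h), zm_mul]
  exact zm_eq (by ring) (by ring) (by ring) (by ring)

theorem inv_of {z : V} (hp : p.Prime) (h : a * d - b * c = 1)
    (H : ∀ i j : Option (Fin p), (p : ℤ) ∣ kp j (rx i a c) (rx i b d) →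
      C.act (zm a b c d) (tm C f z i) = tm C f z j) :
    C.act (zm a b c d) (Up C p f + z) = Up C p f + z := by
  obtain ⟨j, j1, j2⟩ := perm hp h
  rw [← tm_sum, map_sum]
  exact sum_reps _ _ j j1 fun i => H i _ (j2 i)

theorem bad (hp : p.Prime) (hM : M ∣ N) (hN : (p : ℤ) ∣ N) (hf : GM C M (p * N) f) :
    GM C M N (Up C p f) := fun a b c d h h1 h2 => by
  have hc := hN.trans h1
  rw [← add_zero (Up C p f)]
  refine inv_of hp h fun i j q => ?_
  rcases i with _ | t <;> rcases j with _ | s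
  · exact map_zero _
  · refine absurd ?_ (not_one hp)
    simp only [kp, rx, Option.elim] at q
    rw [show (1 : ℤ) = a * (d - (s : ℕ) * c) + (a * (s : ℕ) - b) * c by linear_combination -h]
    exact dvd_add (q.mul_left _) (hc.mul_left _)
  · refine absurd ?_ (not_one hp)
    simp only [kp, rx, Option.elim] at q
    rw [show (1 : ℤ) = d * (a + (t : ℕ) * c) - (d * (t : ℕ) + b) * c by linear_combination -h]
    exact dvd_sub (q.mul_left _) (hc.mul_left _)
  · rw [tm_act hp.pos h]
    refine up_term hf hp.pos (by simp only [rx, Option.elim]; linear_combination (p : ℤ) * h)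
      (mul_dvd_mul_left _ h1) ?_ q ⟨d - (s : ℕ) * c, by ring⟩
    simp only [rx, Option.elim]
    rw [add_sub_right_comm]
    exact dvd_add h2 ((hM.trans h1).mul_left _)

theorem good (hp : p.Prime) (hM : M ∣ N) (hN : ¬(p : ℤ) ∣ N) (hf : GM C M N f) {x y z w : ℤ}
    (h0 : x * w - y * z = 1) (g1 : N ∣ z) (g2 : M ∣ w - p) :
    GM C M N (Up C p f + C.act (Vd p) (C.act (zm x y z w) f)) := fun a b c d h h1 h2 => by
  have key : ∀ (A B D E : ℤ) (j : Option (Fin p)), A * E - B * D = p → N ∣ D → M ∣ A - 1 →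
      (p : ℤ) ∣ kp j A B → (p : ℤ) ∣ kp j D E →
      C.act (zm A B D E) f = tm C f (C.act (Vd p) (C.act (zm x y z w) f)) j := by
    rintro A B D E (_ | s) k0 k1 k2 k3 k4
    swap
    · exact up_term hf hp.pos k0 k1 k2 k3 k4
    obtain ⟨A', rfl : A = _⟩ := k3
    obtain ⟨D', rfl : D = _⟩ := k4
    have e : A' * E - B * D' = 1 := mul_left_cancel₀ (Int.natCast_ne_zero.2 hp.ne_zero)
      (by linear_combination k0)
    rw [← vd_eq hp.pos e]
    refine congrArg _ (same hf hM e h0 (IsCoprime.dvd_of_dvd_mul_left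
      (((Nat.prime_iff_prime_int.1 hp).coprime_iff_not_dvd).2 hN).symm k1) g1 ?_)
    rw [show A' * w - 1 = A' * (w - p) + (p * A' - 1) by ring]
    exact dvd_add (g2.mul_left _) k2
  refine inv_of hp h fun i j q => ?_
  rcases i with _ | t
  · have e : C.act (zm a b c d) (C.act (Vd p) (C.act (zm x y z w) f)) = C.act (zm
        (p * (x * a) + y * c) (p * (x * b) + y * d) (p * (z * a) + w * c)
        (p * (z * b) + w * d)) f := by
      rw [vd_eq hp.pos h0, act_act (pos hp.pos (by linear_combination (p : ℤ) * h0))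
        (det_zm_pos h), zm_mul]
      exact zm_eq (by ring) (by ring) (by ring) (by ring)
    refine e.trans (key _ _ _ _ j (by linear_combination p * (a * d - b * c) * h0 + p * h)
      (dvd_add ((g1.mul_right _).mul_left _) (h1.mul_left _)) ?_ (kp_lin q _ _ _)
      (kp_lin q _ _ _))
    rw [show p * (x * a) + y * c - 1 = p * x * (a - 1) - x * (w - p) + y * z + y * c by
      linear_combination h0]
    exact dvd_add (dvd_add (dvd_sub (h2.mul_left _) (g2.mul_left _))
      ((hM.trans g1).mul_left _)) ((hM.trans h1).mul_left _)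
  · rw [tm_act hp.pos h]
    refine key _ _ _ _ j (by simp only [rx, Option.elim]; linear_combination (p : ℤ) * h)
      (h1.mul_left _) ?_ q (by simpa using kp_lin q c d 0)
    simp only [rx, Option.elim]
    rw [add_sub_right_comm]
    exact dvd_add h2 ((hM.trans h1).mul_left _)

end HEX

open HEX in
theorem rHE : SHE := by
  intro V _ _ C _ p N f hp
  refine ⟨fun h hf => gm1.1 (bad hp dvd_rfl (Int.natCast_dvd_natCast.2 h)
      fun a b c d h1 h2 h3 => gm1.2 hf a b c d h1 ((dvd_mul_left _ _).trans h2) h3),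
    fun h hf => gm0.1 (bad hp (one_dvd _) (Int.natCast_dvd_natCast.2 h)
      (Nat.cast_mul (α := ℤ) p N ▸ gm0.2 hf)), fun h hf => ?_, fun h hf a b c d h1 h2 h3 =>
    ⟨gm1.1 fun x y z w k1 k2 k3 => ?_,
      gm1.1 (good hp dvd_rfl (mt Int.natCast_dvd_natCast.1 h) (gm1.2 hf) h1 h2 h3)⟩⟩
  · have := good hp (one_dvd _) (mt Int.natCast_dvd_natCast.1 h) (gm0.2 hf) (x := 1) (y := 0)
      (z := 0) (w := 1) (by norm_num) (dvd_zero _) (one_dvd _)
    rw [hf 1 0 0 1 (by norm_num) (dvd_zero _)] at this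
    exact gm0.1 this
  · rw [act_act (det_zm_pos h1) (det_zm_pos k1), zm_mul]
    refine same (gm1.2 hf) dvd_rfl (by linear_combination (x * w - y * z) * h1 + k1) h1
      (dvd_add (h2.mul_right _) (k2.mul_left _)) h2 ?_
    rw [show (a * x + b * z) * d - 1 = a * d * (x - 1) + b * d * z + b * c by
      linear_combination h1]
    exact dvd_add (dvd_add (k3.mul_left _) (k2.mul_left _)) (h2.mul_left _)

end Pool.Agent.MP_b2c033_nt.UN
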