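import Pool.Agent.MP_b2c033_nt.UN.Spec

/-!
The Hecke relation at the other cusps.
-/

set_option autoImplicit false

noncomputable section

namespace Pool.Agent.MP_b2c033_nt.UN

open U Finset

namespace HKX

variable {V : Type} [NormedAddCommGroup V] [InnerProductSpace ℂ V] {C : CS V}

/-- The basic move: an integer matrix through `V_(1/r)`. -/
theorem mv {L r : ℕ} {h : V} (hr : 0 < r) (hG : G0 C (L * r) h) {x y z w : ℤ}
    (h1 : x * w - y * (z * r) = 1) (hz : (L : ℤ) ∣ z) {T M : Mt} (hT : 0 < T.det)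
    (hM : 0 < M.det) (e : Vd (1 / r) * M = zm x y (z * r) w * T * Vd (1 / r)) :
    C.act M (C.act (Vd (1 / r)) h) = C.act (Vd (1 / r)) (C.act T h) := by
  have hr' : (0 : ℚ) < 1 / r := by positivity
  have h2 : C.act (zm x y (z * r) w) h = h :=
    hG _ _ _ _ h1 (by push_cast; exact mul_dvd_mul_right hz _)
  rw [act_act (by simpa using hr) hM, e,
    C.act_mul _ _ _ (by rw [Mt.det_mul]; exact mul_pos (det_zm_pos h1) hT) (by simpa using hr),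
    C.act_mul _ _ _ (det_zm_pos h1) hT, h2]

theorem fx {L r : ℕ} {h : V} (hr : 0 < r) (hG : G0 C (L * r) h) {x y z w : ℤ}
    (h1 : x * w - y * z = 1) (hy : (r : ℤ) ∣ y) (hz : (L : ℤ) ∣ z) :
    C.act (zm x y z w) (C.act (Vd (1 / r)) h) = C.act (Vd (1 / r)) h := by
  obtain ⟨y, rfl⟩ := hy
  have hr' : (r : ℚ) ≠ 0 := by positivity
  rw [mv hr hG (x := x) (y := y) (z := z) (w := w) (by linear_combination h1) hz (T := 1)
    (by simp [Mt.det]) (det_zm_pos h1) ?_, act_one]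
  ext <;> simp [zm, Vd] <;> field_simp

/-- Normalisation at `q`. -/
theorem nrm (hC : C.Good) {Q Q' P r : ℕ} {h : V} (hr : 0 < r) (hQ : Q ∣ Q')
    (hc : IsCoprime ((P : ℤ) * r) Q') (hG : G0 C (Q * P * r) h) {a b c d : ℤ}
    (h1 : a * d - b * c = 1) (hq : (Q : ℤ) ∣ c) : ∃ a₁ b₁ c₁ d₁ : ℤ, a₁ * d₁ - b₁ * c₁ = 1 ∧
      ((P : ℤ) * r ∣ a₁ - a ∧ (P : ℤ) * r ∣ b₁ - b ∧ (P : ℤ) * r ∣ c₁ - c ∧ (P : ℤ) * r ∣ d₁ - d) ∧
      ((Q' : ℤ) ∣ a₁ - 1 ∧ (Q' : ℤ) ∣ b₁ ∧ (Q' : ℤ) ∣ c₁ ∧ (Q' : ℤ) ∣ d₁ - 1) ∧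
      C.act (zm a₁ b₁ c₁ d₁) (C.act (Vd (1 / r)) h) =
        C.act (zm a b c d) (C.act (Vd (1 / r)) h) := by
  have hQ' : (Q : ℤ) ∣ Q' := Int.natCast_dvd_natCast.2 hQ
  have hcP : IsCoprime (Q : ℤ) P :=
    (IsCoprime.of_mul_left_left hc).symm.of_isCoprime_of_dvd_left hQ'
  obtain ⟨u, v, huv⟩ := hc
  obtain ⟨γ, e1, e2, e3, e4⟩ := hC.av.lift (P * r * Q') (a * v * Q' + u * (P * r)) (b * v * Q')
    (c * v * Q') (d * v * Q' + u * (P * r)) (by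
      rw [Int.modEq_iff_dvd]
      refine ⟨u * v * (2 - a - d), ?_⟩
      push_cast
      linear_combination (-(1 + u * (P * r) + v * Q')) * huv - (v * Q') ^ 2 * h1)
  obtain ⟨k1, e1⟩ := e1.symm.dvd
  obtain ⟨k2, e2⟩ := e2.symm.dvd
  obtain ⟨k3, e3⟩ := e3.symm.dvd
  obtain ⟨k4, e4⟩ := e4.symm.dvd
  have hd := detZ γ
  generalize γ 0 0 = a₁, γ 0 1 = b₁, γ 1 0 = c₁, γ 1 1 = d₁ at *
  push_cast at e1 e2 e3 e4
  have f1 : (P : ℤ) * r ∣ a₁ - a := ⟨Q' * k1 + u - a * u, by linear_combination e1 + a * huv⟩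
  have f2 : (P : ℤ) * r ∣ b₁ - b := ⟨Q' * k2 - b * u, by linear_combination e2 + b * huv⟩
  have f3 : (P : ℤ) * r ∣ c₁ - c := ⟨Q' * k3 - c * u, by linear_combination e3 + c * huv⟩
  have f4 : (P : ℤ) * r ∣ d₁ - d := ⟨Q' * k4 + u - d * u, by linear_combination e4 + d * huv⟩
  have g3 : (Q' : ℤ) ∣ c₁ := ⟨P * r * k3 + c * v, by linear_combination e3⟩
  refine ⟨a₁, b₁, c₁, d₁, hd, ⟨f1, f2, f3, f4⟩,
    ⟨⟨P * r * k1 + a * v - v, by linear_combination e1 + huv⟩,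
      ⟨P * r * k2 + b * v, by linear_combination e2⟩, g3,
      ⟨P * r * k4 + d * v - v, by linear_combination e4 + huv⟩⟩, ?_⟩
  have hη : (a₁ * d - b₁ * c) * (d₁ * a - c₁ * b) - (b₁ * a - a₁ * b) * (c₁ * d - d₁ * c) = 1 := by
    linear_combination (a * d - b * c) * hd + h1
  have hy : (r : ℤ) ∣ b₁ * a - a₁ * b := by
    have : b₁ * a - a₁ * b = (b₁ - b) * a - (a₁ - a) * b := by ring
    rw [this]
    exact (dvd_mul_left _ _).trans (dvd_sub (f2.mul_right _) (f1.mul_right _))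
  have hz : ((Q * P : ℕ) : ℤ) ∣ c₁ * d - d₁ * c := by
    push_cast
    refine hcP.mul_dvd (dvd_sub ((hQ'.trans g3).mul_right _) (hq.mul_left _)) ?_
    have : c₁ * d - d₁ * c = (c₁ - c) * d - (d₁ - d) * c := by ring
    rw [this]
    exact (dvd_mul_right _ _).trans (dvd_sub (f3.mul_right _) (f4.mul_right _))
  have h2 := fx hr hG hη hy hz
  have h3 : zm a₁ b₁ c₁ d₁ = zm (a₁ * d - b₁ * c) (b₁ * a - a₁ * b) (c₁ * d - d₁ * c)
      (d₁ * a - c₁ * b) * zm a b c d := by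
    rw [zm_mul, show (a₁ * d - b₁ * c) * a + (b₁ * a - a₁ * b) * c = a₁ by
        linear_combination a₁ * h1,
      show (a₁ * d - b₁ * c) * b + (b₁ * a - a₁ * b) * d = b₁ by linear_combination b₁ * h1,
      show (c₁ * d - d₁ * c) * a + (d₁ * a - c₁ * b) * c = c₁ by linear_combination c₁ * h1,
      show (c₁ * d - d₁ * c) * b + (d₁ * a - c₁ * b) * d = d₁ by linear_combination d₁ * h1]
  rw [h3, C.act_mul _ _ _ (det_zm_pos hη) (det_zm_pos h1), h2]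

theorem cq {q P r a b c d a' b' c' d' a₁ b₁ c₁ d₁ a₂ b₂ c₂ d₂ : ℤ}
    (h : Cq q P r a b c d a' b' c' d')
    (f : P * r ∣ a₁ - a ∧ P * r ∣ b₁ - b ∧ P * r ∣ c₁ - c ∧ P * r ∣ d₁ - d)
    (g : P * r ∣ a₂ - a' ∧ P * r ∣ b₂ - b' ∧ P * r ∣ c₂ - c' ∧ P * r ∣ d₂ - d') :
    Cq q P r a₁ b₁ c₁ d₁ a₂ b₂ c₂ d₂ := by
  obtain ⟨⟨k, hk⟩, ⟨l, hl⟩⟩ := h
  obtain ⟨⟨f1, e1⟩, ⟨f2, e2⟩, ⟨f3, e3⟩, ⟨f4, e4⟩⟩ := f
  obtain ⟨⟨g1, e5⟩, ⟨g2, e6⟩, ⟨g3, e7⟩, ⟨g4, e8⟩⟩ := g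
  exact ⟨⟨k + r * (f3 * d₂ + c * g4 - q * f4 * c₂ - q * d * g3), by
      linear_combination hk + d₂ * e3 + c * e8 - q * c₂ * e4 - q * d * e7⟩,
    ⟨l + P * (q * f2 * a₂ + q * b * g1 - f1 * b₂ - a * g2), by
      linear_combination hl + q * a₂ * e2 + q * b * e5 - b₂ * e1 - a * e6⟩⟩

/-- The cosets of `U_q`. -/
theorem upc {q Q P r : ℕ} {h : V} (hq : 0 < q) (hr : 0 < r) (hqr : IsCoprime (r : ℤ) q)
    (hQP : IsCoprime (Q : ℤ) P) (hG : G0 C (Q * P * r) h) {a b c d a' b' c' d' : ℤ}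
    (h1 : a * d - b * c = 1) (h2 : a' * d' - b' * c' = 1) (hc : (Q : ℤ) ∣ c) (hc' : (Q : ℤ) ∣ c')
    (qc : (q : ℤ) ∣ c) (qa' : (q : ℤ) ∣ a' - 1) (qb' : (q : ℤ) ∣ b') (qc' : (q : ℤ) ∣ c')
    (qd' : (q : ℤ) ∣ d' - 1) (hC : Cq q P r a b c d a' b' c' d') (t : ℤ) :
    C.act ⟨1, (t * P * r : ℤ), 0, q⟩ (C.act (zm a b c d) (C.act (Vd (1 / r)) h)) =
      C.act (zm a' b' c' d') (C.act (Vd (1 / r)) (C.act ⟨1, (t * P : ℤ), 0, q⟩ h)) := by
  have hq' : (0 : ℚ) < q := by exact_mod_cast hq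
  have hr' : (r : ℚ) ≠ 0 := by positivity
  have hqz : (q : ℤ) ≠ 0 := by exact_mod_cast hq.ne'
  obtain ⟨y, hy⟩ : ∃ y : ℤ, y = t * P * r := ⟨_, rfl⟩
  obtain ⟨m₁, e₁⟩ : ∃ m, m = a * d' - (a * y + b * q) * c' := ⟨_, rfl⟩
  obtain ⟨m₂, e₂⟩ : ∃ m, m = (a * y + b * q) * a' - a * b' := ⟨_, rfl⟩
  obtain ⟨m₃, e₃⟩ : ∃ m, m = c * d' - (c * y + d * q) * c' := ⟨_, rfl⟩
  obtain ⟨m₄, e₄⟩ : ∃ m, m = (c * y + d * q) * a' - c * b' := ⟨_, rfl⟩
  have hdet : m₁ * m₄ - m₂ * m₃ = q := by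
    rw [e₁, e₂, e₃, e₄]
    linear_combination (q * (a' * d' - b' * c')) * h1 + q * h2
  obtain ⟨B, hB⟩ : (r : ℤ) * q ∣ m₂ - y * m₁ := by
    refine hqr.mul_dvd ?_ ?_
    · obtain ⟨l, hl⟩ := hC.2
      exact ⟨l + t * P * (a * a' - m₁), by rw [e₂, hy]; linear_combination hl⟩
    · obtain ⟨k1, f1⟩ := qa'
      obtain ⟨k2, f2⟩ := qb'
      obtain ⟨k3, f3⟩ := qc'
      obtain ⟨k4, f4⟩ := qd'
      exact ⟨a * y * k1 + b * a' - a * k2 - y * a * k4 + y * (a * y + b * q) * k3, by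
        rw [e₁, e₂]
        linear_combination a * y * f1 - a * f2 - y * a * f4 + y * (a * y + b * q) * f3⟩
  obtain ⟨D, hD⟩ : (q : ℤ) ∣ m₄ - y * m₃ := by
    obtain ⟨k, f⟩ := qc
    exact ⟨k * (y * a' - b' - y * d' + y * y * c') + d * a' + y * d * c', by
      rw [e₃, e₄]
      linear_combination (y * a' - b' - y * d' + y * y * c') * f⟩
  have hz : ((Q * P : ℕ) : ℤ) ∣ m₃ := by
    push_cast
    refine hQP.mul_dvd ?_ ?_
    · rw [e₃]; exact dvd_sub (hc.mul_right _) (hc'.mul_left _)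
    · obtain ⟨k, hk⟩ := hC.1
      exact ⟨k - c * t * r * c', by rw [e₃, hy]; linear_combination hk⟩
  have hδ : m₁ * D - B * (m₃ * r) = 1 := by
    refine mul_left_cancel₀ hqz ?_
    linear_combination hdet - m₁ * hD + m₃ * hB
  have hM : 0 < (zm m₁ m₂ m₃ m₄).det := by rw [det_zm, hdet]; exact_mod_cast hq
  have hT : ∀ s : ℚ, 0 < (⟨1, s, 0, q⟩ : Mt).det := fun s => by simpa [Mt.det]
  have hB' : (m₂ : ℚ) = r * (m₁ * (t * P) + B * q) := by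
    have : m₂ = r * (m₁ * (t * P) + B * q) := by rw [hy] at hB; linear_combination hB
    exact_mod_cast this
  have hD' : (m₄ : ℚ) = m₃ * r * (t * P) + D * q := by
    have : m₄ = m₃ * r * (t * P) + D * q := by rw [hy] at hD; linear_combination hD
    exact_mod_cast this
  rw [← mv hr hG hδ hz (hT _) hM (by
    ext <;> simp [zm, Vd, hB', hD'] <;> field_simp), ← hy]
  refine act_comm 1 one_ne_zero (det_zm_pos h1) (hT _) hM (det_zm_pos h2) ?_ _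
  have e : (⟨1, (y : ℤ), 0, q⟩ : Mt) = zm 1 y 0 q := by simp [zm]
  rw [e, zm_mul, zm_mul, show m₁ * a' + m₂ * c' = a * 1 + b * 0 by
      rw [e₁, e₂]; linear_combination a * h2,
    show m₁ * b' + m₂ * d' = a * y + b * q by
      rw [e₁, e₂]; linear_combination (a * y + b * q) * h2,
    show m₃ * a' + m₄ * c' = c * 1 + d * 0 by rw [e₃, e₄]; linear_combination c * h2,
    show m₃ * b' + m₄ * d' = c * y + d * q by
      rw [e₃, e₄]; linear_combination (c * y + d * q) * h2]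
  exact (one_mul _).symm

/-- The coset of `V_q`. -/
theorem vdc {q P r : ℕ} {h : V} (hq : 0 < q) (hr : 0 < r) (hqP : IsCoprime (q : ℤ) P)
    (hG : G0 C (P * r) h) {a b c d a' b' c' d' : ℤ} (h1 : a * d - b * c = 1)
    (h2 : a' * d' - b' * c' = 1) (qc' : (q : ℤ) ∣ c') (hC : Cq q P r a' b' c' d' a b c d) :
    C.act (Vd q) (C.act (zm a b c d) (C.act (Vd (1 / r)) h)) =
      C.act (zm a' b' c' d') (C.act (Vd (1 / r)) (C.act (Vd q) h)) := by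
  have hq' : (0 : ℚ) < q := by exact_mod_cast hq
  have hr' : (r : ℚ) ≠ 0 := by positivity
  have hqz : (q : ℤ) ≠ 0 := by exact_mod_cast hq.ne'
  obtain ⟨X, hX⟩ : (q : ℤ) ∣ q * a * d' - b * c' :=
    dvd_sub (by rw [mul_assoc]; exact dvd_mul_right _ _) (qc'.mul_left _)
  obtain ⟨Y, hY⟩ : (r : ℤ) ∣ b * a' - q * a * b' := by
    obtain ⟨l, hl⟩ := hC.2
    exact ⟨-l, by linear_combination -hl⟩
  obtain ⟨Z, hZ⟩ : (q : ℤ) * P ∣ q * c * d' - d * c' := by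
    refine hqP.mul_dvd (dvd_sub (by rw [mul_assoc]; exact dvd_mul_right _ _) (qc'.mul_left _)) ?_
    obtain ⟨k, hk⟩ := hC.1
    exact ⟨-k, by linear_combination -hk⟩
  obtain ⟨W, hW⟩ : ∃ W, d * a' - q * c * b' = W := ⟨_, rfl⟩
  have hdet : q * X * W - r * Y * (q * P * Z) = q := by
    rw [← hX, ← hY, ← hZ, ← hW]
    linear_combination (q * (a' * d' - b' * c')) * h1 + q * h2
  have hδ : X * W - Y * (P * Z * r) = 1 := by
    refine mul_left_cancel₀ hqz ?_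
    linear_combination hdet
  have hM : 0 < (zm (q * X) (r * Y) (q * P * Z) W).det := by
    rw [det_zm, hdet]; exact_mod_cast hq
  rw [← mv hr hG hδ (dvd_mul_right _ _) (T := Vd q) (by simpa) hM (by
    ext <;> simp [zm, Vd] <;> field_simp)]
  refine act_comm 1 one_ne_zero (det_zm_pos h1) (by simpa) hM (det_zm_pos h2) ?_ _
  have e : Vd q = zm q 0 0 1 := by simp [zm, Vd]
  rw [e, zm_mul, zm_mul, ← hX, ← hY, ← hZ, ← hW,
    show (q * a * d' - b * c') * a' + (b * a' - q * a * b') * c' = a * q + b * 0 by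
      linear_combination q * a * h2,
    show (q * a * d' - b * c') * b' + (b * a' - q * a * b') * d' = a * 0 + b * 1 by
      linear_combination b * h2,
    show (q * c * d' - d * c') * a' + (d * a' - q * c * b') * c' = c * q + d * 0 by
      linear_combination q * c * h2,
    show (q * c * d' - d * c') * b' + (d * a' - q * c * b') * d' = c * 0 + d * 1 by
      linear_combination d * h2]
  exact (one_mul _).symm

theorem ups {q P N : ℕ} {h : V} (hq : 0 < q) (hc : q.Coprime P) (hG : G0 C N h) :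
    ∑ t ∈ range q, C.act ⟨1, ((t : ℤ) * P : ℤ), 0, q⟩ h = Up C q h := by
  have hq' : (0 : ℚ) < q := by exact_mod_cast hq
  rw [Up_apply, sum_range, sum_range]
  refine sum_reps _ _ (fun t : Fin q => ⟨t * P % q, Nat.mod_lt _ hq⟩) (fun t t' e => ?_)
    fun t => ?_
  · have h1 : (t : ℕ) * P ≡ t' * P [MOD q] := congrArg Fin.val e
    exact Fin.ext ((Nat.ModEq.cancel_right_of_coprime hc h1).eq_of_lt_of_lt t.2 t'.2)
  · have h1 := hG 1 ((t : ℕ) * P / q : ℕ) 0 1 (by simp) (dvd_zero _)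
    have h2 : (((t : ℕ) * P % q : ℕ) : ℚ) + q * (((t : ℕ) * P / q : ℕ) : ℚ) = (t : ℕ) * P := by
      exact_mod_cast Nat.mod_add_div ((t : ℕ) * P) q
    have h3 : (⟨1, (((t : ℕ) : ℤ) * P : ℤ), 0, q⟩ : Mt) =
        zm 1 ((t : ℕ) * P / q : ℕ) 0 1 * ⟨1, ((t : ℕ) * P % q : ℕ), 0, q⟩ := by
      ext
      · simp [zm]
      · simp only [zm, Mt.mul_b, Int.cast_mul, Int.cast_natCast, Int.cast_one]
        linear_combination -h2
      · simp [zm]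
      · simp [zm]
    rw [h3, C.act_mul _ _ _ (det_zm_pos (by simp)) (by simpa [Mt.det]), h1]

end HKX

open HKX in
theorem rHK : SHK := by
  intro V _ _ C hC q e P r lam h hq hP hr hqP hG hR a b c d a' b' c' d' a'' b'' c'' d'' h1 h2 h3
    hc hc' hCq hCq' ν n hν
  have hq0 := hq.pos
  have hqC : (q : ℂ) ≠ 0 := by exact_mod_cast hq0.ne'
  have hco : q.Coprime (P * r) := (Nat.Prime.coprime_iff_not_dvd hq).2 hqP
  have hcoZ : IsCoprime (q : ℤ) ((P : ℤ) * r) := by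
    have := Nat.isCoprime_iff_coprime.2 hco
    rwa [Nat.cast_mul] at this
  have hcoQ : IsCoprime ((P : ℤ) * r) ((q ^ (e + 1) : ℕ) : ℤ) := by
    rw [Nat.cast_pow]; exact hcoZ.symm.pow_right
  have hG' : G0 C (q ^ e * P * r) h := by rwa [mul_assoc]
  have hQ : q ^ e ∣ q ^ (e + 1) := pow_dvd_pow _ (Nat.le_succ e)
  have hQ1 : ((q ^ e : ℕ) : ℤ) ∣ ((q ^ (e + 1) : ℕ) : ℤ) := Int.natCast_dvd_natCast.2 hQ
  have hQ2 : (q : ℤ) ∣ ((q ^ (e + 1) : ℕ) : ℤ) :=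
    Int.natCast_dvd_natCast.2 (dvd_pow_self _ (Nat.succ_ne_zero e))
  obtain ⟨a₁, b₁, c₁, d₁, k1, f1, g1, E1⟩ :=
    nrm hC hr hQ hcoQ hG' h1 (by rw [Nat.cast_pow]; exact hc)
  obtain ⟨a₂, b₂, c₂, d₂, k2, f2, g2, E2⟩ :=
    nrm hC hr hQ hcoQ hG' h2 (by rw [Nat.cast_pow]; exact hc')
  rw [← E1, ← E2]
  have hU : ∑ t ∈ range q, C.act ⟨1, ((t : ℤ) * P * r : ℤ), 0, q⟩
      (C.act (zm a₁ b₁ c₁ d₁) (C.act (Vd (1 / r)) h)) =
      C.act (zm a₂ b₂ c₂ d₂) (C.act (Vd (1 / r)) (Up C q h)) := by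
    rw [← ups hq0 (Nat.Coprime.coprime_mul_right_right hco) hG, map_sum, map_sum]
    refine sum_congr rfl fun t _ => upc hq0 hr (IsCoprime.of_mul_right_right hcoZ).symm ?_ hG' k1
      k2 (hQ1.trans g1.2.2.1) (hQ1.trans g2.2.2.1) (hQ2.trans g1.2.2.1) (hQ2.trans g2.1)
      (hQ2.trans g2.2.1) (hQ2.trans g2.2.2.1) (hQ2.trans g2.2.2.2) (cq hCq f1 f2) t
    rw [Nat.cast_pow]
    exact (IsCoprime.of_mul_right_left hcoZ).pow_left
  have hβ : C.β ν (C.act (zm a₂ b₂ c₂ d₂) (C.act (Vd (1 / r)) (Up C q h))) =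
      C.β (q * ν) (C.act (zm a₁ b₁ c₁ d₁) (C.act (Vd (1 / r)) h)) := by
    rw [← hU, map_sum, sum_congr rfl (g := fun _ => (q : ℂ)⁻¹ * C.β (q * ν)
      (C.act (zm a₁ b₁ c₁ d₁) (C.act (Vd (1 / r)) h))) fun t _ => ?_]
    · rw [sum_const, card_range, nsmul_eq_mul, mul_inv_cancel_left₀ hqC]
    · have : ν * (((t : ℤ) * P * r : ℤ) : ℚ) = (n * t : ℤ) := by
        push_cast; linear_combination t * hν
      rw [up_eq hq0, C.β_Tr, β_Vi hq0, this, ee_int, one_mul]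
  have hv := congrArg (fun v => C.β ν (C.act (zm a₂ b₂ c₂ d₂) (C.act (Vd (1 / r)) v)))
    ((rel_iff hq0 hG.t1).1 hR)
  simp only [map_smul, map_add, smul_eq_mul] at hv
  rw [hv, hβ]
  refine congrArg _ ?_
  by_cases he : e = 0
  · subst he
    have hn : ¬q ∣ q ^ 0 * (P * r) := by rwa [pow_zero, one_mul]
    rw [if_neg hn, if_pos rfl]
    rw [pow_zero, one_mul] at hG
    have hrefl : ∀ x : ℤ, (P : ℤ) * r ∣ x - x := fun x => by rw [sub_self]; exact dvd_zero _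
    rw [← vdc hq0 hr (IsCoprime.of_mul_right_left hcoZ) hG h3 k2 (hQ2.trans g2.2.2.1)
      (cq (hCq' rfl) f2 ⟨hrefl _, hrefl _, hrefl _, hrefl _⟩), β_Vn hq0]
  · rw [if_pos ((dvd_pow_self q he).mul_right _), if_neg he, map_zero, map_zero, map_zero]

end Pool.Agent.MP_b2c033_nt.UN
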