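import Pool.Agent.MP_b2c033_nt.UN.Spec

/-!
Row HYP: division by a hypothetical prime.
-/

set_option autoImplicit false

noncomputable section

namespace Pool.Agent.MP_b2c033_nt.UN

open U Finset
open scoped InnerProductSpace

namespace HYPX

variable {V : Type} [NormedAddCommGroup V] [InnerProductSpace ℂ V] {C : CS V}

lemma Lw_Lw (x y : ℚ) (v : V) : C.act (Lw y) (C.act (Lw x) v) = C.act (Lw (x + y)) v := by
  rw [act_act (by simp) (by simp)]
  exact congrArg (fun x => C.act x v) (by ext <;> simp [Lw])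

lemma lw_fix {M : ℕ} {f : V} (h : G0 C M f) (t : ℕ) : C.act (Lw (t * M)) f = f := by
  have := h 1 0 (t * M) 1 (by ring) (dvd_mul_left _ _)
  simpa [zm, Lw] using this

lemma ls_mul {p N r : ℕ} {g : V} (hp : p.Prime) (hr : ¬p ∣ r) (h : G0 C (p * N) g) :
    Ls C p (N * r) g = Ls C p N g := by
  rw [Ls_apply, Ls_apply, Finset.sum_range, Finset.sum_range]
  refine sum_reps _ (fun t : Fin p => C.act (Lw ((t : ℕ) * N)) g)
    (fun t => ⟨t * r % p, Nat.mod_lt _ hp.pos⟩) (fun t t' e => ?_) fun t => ?_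
  · have e1 : (t : ℕ) * r ≡ t' * r [MOD p] := congrArg Fin.val e
    exact Fin.ext ((e1.cancel_right_of_coprime
      ((Nat.Prime.coprime_iff_not_dvd hp).2 hr)).eq_of_lt_of_lt t.2 t'.2)
  · have e : ((t : ℕ) : ℚ) * (N * r) =
        ((t : ℕ) * r / p : ℕ) * (p * N : ℕ) + ((t : ℕ) * r % p : ℕ) * N := by
      have := Nat.div_add_mod ((t : ℕ) * r) p
      have h2 : (p : ℚ) * ((t : ℕ) * r / p : ℕ) + ((t : ℕ) * r % p : ℕ) = (t : ℕ) * r := by
        exact_mod_cast this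
      rw [Nat.cast_mul p N]
      linear_combination (-(N : ℚ)) * h2
    rw [e, ← Lw_Lw, lw_fix h]

/-- The properties of the layers. -/
def PP (C : CS V) (p M : ℕ) (x : V) : Prop := Dep C p x ∧ G0 C (p * M) x ∧ Ls C p M x = 0

lemma PP.zero {p M : ℕ} : PP C p M 0 := ⟨fun _ _ => map_zero _, G0.zero, map_zero _⟩

lemma PP.add {p M : ℕ} {x y : V} (h : PP C p M x) (k : PP C p M y) : PP C p M (x + y) :=
  ⟨fun n hn => by rw [map_add, h.1 n hn, k.1 n hn, add_zero], h.2.1.add k.2.1,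
    by rw [map_add, h.2.2, k.2.2, add_zero]⟩

lemma PP.smul {p M : ℕ} {x : V} (h : PP C p M x) (s : ℂ) : PP C p M (s • x) :=
  ⟨fun n hn => by rw [map_smul, h.1 n hn, smul_zero], h.2.1.smul s,
    by rw [map_smul, h.2.2, smul_zero]⟩

lemma PP.sub {p M : ℕ} {x y : V} (h : PP C p M x) (k : PP C p M y) : PP C p M (x - y) := by
  have := h.add (k.smul (-1))
  rwa [neg_one_smul, ← sub_eq_add_neg] at this

lemma pp_vd {p N d R : ℕ} {g : V} (hp : p.Prime) (h : G0 C (p * N) g) (hd : Dep C p g)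
    (hl : Ls C p N g = 0) (d0 : 0 < d) (hR : d ∣ R) (hpR : ¬p ∣ R) :
    PP C p (N * R) (C.act (Vd d) g) := by
  obtain ⟨r, rfl⟩ := hR
  have hq : (0 : ℚ) < d := by exact_mod_cast d0
  refine ⟨fun n hn => ?_, (h.vd d0).mono ⟨r, by ring⟩, ?_⟩
  · rw [β_Vn d0]
    by_cases k : d ∣ n
    · obtain ⟨m, rfl⟩ := k
      rw [Nat.cast_mul, mul_div_cancel_left₀ _ hq.ne', hd m ((hp.dvd_mul.1 hn).resolve_left
        fun q => hpR (q.mul_right r)), mul_zero]
    · rw [h.t1.β_div d0 k, mul_zero]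
  · have e : Ls C p (N * (d * r) : ℕ) (C.act (Vd d) g) = C.act (Vd d) (Ls C p (N * r) g) := by
      rw [Ls_apply, Ls_apply, map_sum]
      refine sum_congr rfl fun t _ => ?_
      rw [Lw_Vd hq]
      refine congrArg (fun y => C.act (Vd d) (C.act (Lw y) g)) ?_
      push_cast
      field_simp
    rw [e, ls_mul hp (fun q => hpR (q.mul_left d)) h, hl, map_zero]

lemma zs_int {g y : V} (k : ℤ) (h : y ∈ Zs C g) : (k : ℂ) • y ∈ Zs C g := by
  rw [Int.cast_smul_eq_zsmul]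
  exact (Zs C g).smul_mem k h

lemma zs_vd {g y : V} {p : ℕ} (hp : 0 < p) (h : y ∈ Zs C g) : C.act (Vd p) y ∈ Zs C g := by
  induction h using Submodule.span_induction with
  | mem x hx =>
    obtain ⟨δ, d0, rfl⟩ := hx
    refine Submodule.subset_span ⟨δ * p, Nat.mul_pos d0 hp, ?_⟩
    rw [Vd_Vd (by exact_mod_cast d0) (by exact_mod_cast hp), Nat.cast_mul]
  | zero => rw [map_zero]; exact zero_mem _
  | add x y _ _ a b => rw [map_add]; exact add_mem a b
  | smul k x _ a => rw [map_zsmul]; exact (Zs C g).smul_mem k a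

/-- The decomposition into layers. -/
def Dec (C : CS V) (p N : ℕ) (g x : V) : Prop := ∃ (D : ℕ) (Z c : ℕ → V), ¬p ∣ D ∧ Z 0 = x ∧
  ∀ j, T1 C (Z j) ∧ Z j = c j + C.act (Vd p) (Z (j + 1)) ∧ c j ∈ Zs C g ∧
    ∀ R, D ∣ R → ¬p ∣ R → PP C p (N * R) (c j)

lemma dec {p N : ℕ} {g x : V} (hp : p.Prime) (h : G0 C (p * N) g) (hd : Dep C p g)
    (hl : Ls C p N g = 0) (hx : x ∈ Zs C g) : Dec C p N g x := by
  have t0 : T1 C (0 : V) := map_zero _
  induction hx using Submodule.span_induction with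
  | mem x hx =>
    obtain ⟨δ, d0, rfl⟩ := hx
    obtain ⟨k, d, hk, rfl⟩ := Nat.exists_eq_pow_mul_and_not_dvd d0.ne' p hp.ne_one
    have d1 : 0 < d := Nat.pos_of_mul_pos_left d0
    clear d0
    induction k with
    | zero =>
      rw [pow_zero, one_mul]
      refine ⟨d, fun j => Nat.casesOn j (C.act (Vd d) g) fun _ => 0,
        fun j => Nat.casesOn j (C.act (Vd d) g) fun _ => 0, hk, rfl, fun j => ?_⟩
      cases j with
      | zero => exact ⟨h.t1.vd d1, by simp, Submodule.subset_span ⟨d, d1, rfl⟩,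
          fun R a b => pp_vd hp h hd hl d1 a b⟩
      | succ j => exact ⟨t0, by simp, zero_mem _, fun _ _ _ => PP.zero⟩
    | succ k ih =>
      obtain ⟨D, Z, c, a1, a2, a3⟩ := ih
      refine ⟨D, fun j => Nat.casesOn j (C.act (Vd p) (Z 0)) Z, fun j => Nat.casesOn j 0 c, a1,
        ?_, fun j => ?_⟩
      · have k1 : (0 : ℚ) < (p ^ k * d : ℕ) := by
          exact_mod_cast Nat.mul_pos (pow_pos hp.pos k) d1
        change C.act (Vd p) (Z 0) = _
        rw [a2, Vd_Vd k1 (by exact_mod_cast hp.pos)]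
        refine congrArg (fun y => C.act (Vd y) g) ?_
        push_cast
        ring
      · cases j with
        | zero => exact ⟨(a3 0).1.vd hp.pos, (zero_add _).symm, zero_mem _, fun _ _ _ => PP.zero⟩
        | succ j => exact a3 j
  | zero => exact ⟨1, fun _ => 0, fun _ => 0, fun q => hp.ne_one (Nat.dvd_one.1 q), rfl,
      fun _ => ⟨t0, by simp, zero_mem _, fun _ _ _ => PP.zero⟩⟩
  | add x y _ _ a b =>
    obtain ⟨D, Z, c, a1, a2, a3⟩ := a
    obtain ⟨D', Z', c', b1, b2, b3⟩ := b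
    refine ⟨D * D', fun j => Z j + Z' j, fun j => c j + c' j,
      fun q => (hp.dvd_mul.1 q).elim a1 b1, by rw [← a2, ← b2], fun j =>
      ⟨(a3 j).1.add (b3 j).1, ?_, add_mem (a3 j).2.2.1 (b3 j).2.2.1, fun R r1 r2 =>
        ((a3 j).2.2.2 R ((dvd_mul_right _ _).trans r1) r2).add
          ((b3 j).2.2.2 R ((dvd_mul_left _ _).trans r1) r2)⟩⟩
    change Z j + Z' j = c j + c' j + C.act (Vd p) (Z (j + 1) + Z' (j + 1))
    rw [map_add, add_add_add_comm, ← (a3 j).2.1, ← (b3 j).2.1]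
  | smul k x _ a =>
    obtain ⟨D, Z, c, a1, a2, a3⟩ := a
    refine ⟨D, fun j => (k : ℂ) • Z j, fun j => (k : ℂ) • c j, a1,
      by rw [← a2, ← Int.cast_smul_eq_zsmul ℂ], fun j => ⟨(a3 j).1.smul _, ?_,
        zs_int k (a3 j).2.2.1, fun R r1 r2 => ((a3 j).2.2.2 R r1 r2).smul _⟩⟩
    change (k : ℂ) • Z j = (k : ℂ) • c j + C.act (Vd p) ((k : ℂ) • Z (j + 1))
    rw [map_smul, ← smul_add, ← (a3 j).2.1]

/-- A recurrence of order two. -/
def rc (α ε : ℂ) (u : ℕ → V) (x y : V) : ℕ → V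
  | 0 => x
  | 1 => y
  | j + 2 => u j + α • rc α ε u x y (j + 1) - ε • rc α ε u x y j

end HYPX

open HYPX in
theorem rHYP : OfHYP := by
  intro hS V _ _ C hC p N K a ε g G hp N0 K0 hpN hg hd hl hG hε hQ
  have pc : (p : ℂ) ≠ 0 := by exact_mod_cast hp.ne_zero
  have pq : (0 : ℚ) < p := by exact_mod_cast hp.pos
  obtain ⟨D, Z, c, a1, a2, a3⟩ := dec hp hg hd hl hQ
  obtain ⟨k, K', hk, rfl⟩ := Nat.exists_eq_pow_mul_and_not_dvd K0.ne' p hp.ne_one
  obtain ⟨M, hM⟩ : ∃ M, M = N * (D * K') := ⟨_, rfl⟩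
  have hc : ∀ j, PP C p M (c j) := fun j => hM ▸ (a3 j).2.2.2 _ (dvd_mul_right _ _)
    fun q => (hp.dvd_mul.1 q).elim a1 hk
  obtain ⟨X, X0, X1, X2⟩ : ∃ X : ℕ → V, X 0 = 0 ∧ X 1 = 0 ∧
      ∀ j, X (j + 2) = c j + (a / p : ℂ) • X (j + 1) - (ε / p) • X j :=
    ⟨rc (a / p) (ε / p) c 0 0, rfl, rfl, fun _ => rfl⟩
  obtain ⟨Y, Y0, Y1, Y2⟩ : ∃ Y : ℕ → V, Y 0 = C.act (Vd p) (C.act (Vd p) G) ∧
      Y 1 = C.act (Vd p) G ∧ ∀ j, Y (j + 2) = Z j + (a / p : ℂ) • Y (j + 1) - (ε / p) • Y j :=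
    ⟨rc (a / p) (ε / p) Z _ _, rfl, rfl, fun _ => rfl⟩
  have YG : Y 2 = G := by
    rw [Y2 0, a2, QQ_apply, Y0, Y1, Vd_Vd pq pq, sq]
    abel
  have hX : ∀ j, PP C p M (X j) := fun j => by
    induction j using Nat.twoStepInduction with
    | zero => exact X0 ▸ PP.zero
    | one => exact X1 ▸ PP.zero
    | more j i1 i2 => exact X2 j ▸ ((hc j).add (i2.smul _)).sub (i1.smul _)
  have hT : ∀ j, T1 C (Y j) := fun j => by
    induction j using Nat.twoStepInduction with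
    | zero => exact Y0 ▸ (hG.t1.vd hp.pos).vd hp.pos
    | one => exact Y1 ▸ hG.t1.vd hp.pos
    | more j i1 i2 => exact Y2 j ▸ ((a3 j).1.add (i2.smul _)).sub (i1.smul _)
  have hY : ∀ j, Y j = X j + C.act (Vd p) (Y (j + 1)) := fun j => by
    induction j using Nat.twoStepInduction with
    | zero => rw [Y0, X0, Y1, zero_add]
    | one => rw [Y1, X1, YG, zero_add]
    | more j i1 i2 =>
      rw [Y2 (j + 1), map_sub, map_add, map_smul, map_smul, X2 j, ← sub_eq_iff_eq_add'.2 i1,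
        ← sub_eq_iff_eq_add'.2 i2, ← sub_eq_iff_eq_add'.2 (a3 j).2.1, Y2 j, smul_sub, smul_sub]
      abel
  have st : ∀ m j, G0 C (p * (p ^ m * M)) (Y j) → G0 C (p ^ m * M) (Y (j + 1)) := fun m j h => by
    have h1 : G0 C (p * (p ^ m * M)) (C.act (Vd p) (Y (j + 1))) := by
      rw [← sub_eq_iff_eq_add'.2 (hY j)]
      exact h.sub ((hX j).2.1.mono (mul_dvd_mul_left _ (dvd_mul_left _ _)))
    have h2 := (hS V C hC p _ _ hp ((hT (j + 1)).sup_vd hp.pos)).1 h1
    rwa [Vd_Vd pq (by positivity), mul_one_div_cancel pq.ne', Vd_one] at h2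
  have lv : ∀ m j, G0 C (p ^ m * M) (Y j) → G0 C M (Y (j + m)) := fun m => by
    induction m with
    | zero => intro j h; simpa using h
    | succ m ih =>
      intro j h
      rw [← add_assoc, add_right_comm]
      exact ih _ (st m j (by rwa [pow_succ', mul_assoc] at h))
  have lw : ∀ j, 2 + k ≤ j → G0 C M (Y j) := fun j hj => by
    induction j, hj using Nat.le_induction with
    | base => exact lv k 2 (YG ▸ hG.mono ⟨N * D, by rw [hM]; ring⟩)
    | succ j _ ih => simpa using st 0 j (ih.mono ⟨p, by ring⟩)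
  have xz : ∀ j, 2 + k ≤ j → X j = 0 := fun j hj => by
    have h1 : ⟪Ls C p M (X j), Y j⟫_ℂ = p * ⟪X j, Y j⟫_ℂ := by
      rw [Ls_apply, sum_inner, sum_congr rfl fun t _ => inner_fix (by simp) (X j)
        (lw_fix (lw j hj) t)]
      simp
    rw [(hX j).2.2, inner_zero_left] at h1
    have h2 := (mul_eq_zero.1 h1.symm).resolve_left pc
    have h3 := orth hp.pos (hX j).2.1.t1 ((hT (j + 1)).vd hp.pos) (hX j).1
      ((hT (j + 1)).sup_vd hp.pos)
    rw [hY j, inner_add_right, h3, add_zero] at h2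
    exact inner_self_eq_zero.1 h2
  have yz : ∀ n : ℕ, ∀ j, 2 + k ≤ j → C.β n (Y j) = 0 := fun n => by
    induction n using Nat.strong_induction_on with
    | _ n ih =>
      intro j hj
      rcases Nat.eq_zero_or_pos n with rfl | n0
      · exact β_zero _
      rw [hY j, xz j hj, zero_add, β_Vn hp.pos]
      by_cases q : p ∣ n
      · obtain ⟨m, rfl⟩ := q
        rw [Nat.cast_mul, mul_div_cancel_left₀ _ pq.ne', ih m
          (lt_mul_left (Nat.pos_of_mul_pos_left n0) hp.one_lt) _ (by omega), mul_zero]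
      · rw [(hT _).β_div hp.pos q, mul_zero]
  have dn : ∀ m j, 2 + k ≤ j + 1 + m → (∃ y ∈ Zs C g, X (j + 1) = (p : ℂ) • y) ∧
      (∃ y ∈ Zs C g, X (j + 2) = (p : ℂ) • y) ∧ ∃ y ∈ Zs C g, Y (j + 1) = (p : ℂ) • y :=
    fun m => by
    induction m with
    | zero =>
      intro j hj
      exact ⟨⟨0, zero_mem _, by rw [xz _ hj, smul_zero]⟩,
        ⟨0, zero_mem _, by rw [xz _ (by omega), smul_zero]⟩,
        0, zero_mem _, by rw [(hT _).ext0 fun n => yz n _ hj, smul_zero]⟩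
    | succ m ih =>
      intro j hj
      obtain ⟨⟨y1, b1, e1⟩, ⟨y2, b2, e2⟩, y3, b3, e3⟩ := ih (j + 1) (by omega)
      have b4 : ∀ y ∈ Zs C g, (p : ℂ) • y ∈ Zs C g := fun y hy => by
        simpa using zs_int (p : ℤ) hy
      have key : ∃ y ∈ Zs C g, X (j + 1) = (p : ℂ) • y := by
        rcases hε with rfl | ⟨rfl, ha⟩
        · refine ⟨c (j + 1) + (a : ℂ) • y1 - (p : ℂ) • y2,
            sub_mem (add_mem (a3 _).2.2.1 (zs_int a b1)) (b4 _ b2), ?_⟩
          have h := X2 (j + 1)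
          rw [e2, e1, smul_smul, div_mul_cancel₀ _ pc] at h
          rw [h, sub_sub_cancel, smul_smul, mul_one_div_cancel pc, one_smul]
        · refine ⟨(a : ℂ) • ((p : ℂ) • y1 - c j),
            zs_int a (sub_mem (b4 _ b1) (a3 _).2.2.1), ?_⟩
          have h := X2 j
          have aa : (a : ℂ) * a = 1 := by rcases ha with rfl | rfl <;> simp
          rw [e1, zero_div, zero_smul, sub_zero] at h
          rw [h, add_sub_cancel_left, smul_smul, smul_smul, mul_assoc, ← mul_div_assoc, aa,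
            mul_one_div_cancel pc, one_smul]
      obtain ⟨y, b, e⟩ := key
      exact ⟨⟨y, b, e⟩, ⟨y1, b1, e1⟩, y + C.act (Vd p) y3, add_mem b (zs_vd hp.pos b3),
        by rw [hY (j + 1), e, e3, map_smul, smul_add]⟩
  exact YG ▸ (dn k 1 (by omega)).2.2

end Pool.Agent.MP_b2c033_nt.UN
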