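import Pool.Agent.MP_b2c033_nt.UN.Spec

/-!
The local structure of a newform.
-/

set_option autoImplicit false

noncomputable section

namespace Pool.Agent.MP_b2c033_nt.UN

open U Finset
open scoped InnerProductSpace

namespace LOCX

variable {V : Type} [NormedAddCommGroup V] [InnerProductSpace ℂ V] {C : CS V} {g : V}

/-- The Atkin-Lehner relation. -/
def AL (C : CS V) (g : V) (Q N' : ℕ) (w : ℤ) : Prop := ∀ a b c d : ℤ, a * d - b * c = 1 →
  (N' : ℤ) ∣ c → (Q : ℤ) ∣ d → C.act (zm a b c d) g = (w : ℂ) • C.act (Vd (1 / Q)) g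

theorem bez {Q N' : ℕ} (h : Q.Coprime N') : ∃ a b : ℤ, a * Q - b * N' = 1 := by
  obtain ⟨a, b, e⟩ := Nat.isCoprime_iff_coprime.2 h
  exact ⟨a, -b, by linear_combination e⟩

theorem AL.fix {Q N' : ℕ} {w : ℤ} (h : AL C g Q N' w) (hQ : 0 < Q) {a b c d : ℤ}
    (h1 : a * d - b * c = 1) (h2 : (N' : ℤ) ∣ c) (h3 : (Q : ℤ) ∣ d) :
    C.act (Vd Q) (C.act (zm a b c d) g) = (w : ℂ) • g := by
  have hq : (0 : ℚ) < Q := by exact_mod_cast hQ
  rw [h a b c d h1 h2 h3, map_smul, Vd_Vd (by positivity) hq, one_div_mul_cancel hq.ne', Vd_one]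

theorem wsq {w : ℤ} (h : w = 1 ∨ w = -1) : (w : ℂ) * w = 1 := by
  rcases h with rfl | rfl <;> norm_num

theorem AL.mul {P Q N' : ℕ} {v w : ℤ} (h : AL C g P (Q * N') v) (h' : AL C g Q (P * N') w)
    (hP : 0 < P) (hQ : 0 < Q) (hc : P.Coprime (Q * N')) (hv : v = 1 ∨ v = -1) :
    AL C g (P * Q) N' (v * w) := by
  rintro a b _ _ h1 ⟨c, rfl⟩ ⟨d, rfl⟩
  have hp : (0 : ℚ) < P := by exact_mod_cast hP
  have hq : (0 : ℚ) < Q := by exact_mod_cast hQ
  obtain ⟨x, y, e⟩ := bez hc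
  have k1 := h.fix hP e dvd_rfl dvd_rfl
  push_cast at h1 e
  have d2 : (x * a * P + y * (N' * c)) * (Q * N' * b + P * Q * d) -
      (x * b + y * (Q * d)) * (Q * N' * a * P + P * (N' * c)) = 1 := by
    linear_combination (x * P - y * (Q * N')) * h1 + e
  have k2 := h' _ _ _ _ d2 ⟨Q * a + c, by push_cast; ring⟩ ⟨N' * b + P * d, by ring⟩
  have k3 : C.act (zm a b (N' * c) ((P * Q : ℕ) * d)) (C.act (zm x y (Q * N' : ℕ) P * Vd P) g) =
      C.act (Vd (1 / P)) (C.act (zm (x * a * P + y * (N' * c)) (x * b + y * (Q * d))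
        (Q * N' * a * P + P * (N' * c)) (Q * N' * b + P * Q * d)) g) := by
    refine act_comm P hp.ne' ?_ (det_zm_pos (by push_cast; exact h1)) (det_zm_pos d2)
      (by simpa using hp) ?_ g
    · rw [Mt.det_mul, det_Vd]
      exact mul_pos (det_zm_pos (by push_cast; exact e)) hp
    · ext <;> simp only [zm, Vd, Mt.mul_a, Mt.mul_b, Mt.mul_c, Mt.mul_d] <;> push_cast <;>
        field_simp <;> ring
  rw [← act_act (det_zm_pos (by push_cast; exact e)) (by simpa using hp), k1, k2, map_smul,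
    map_smul, Vd_Vd (by positivity) (by positivity)] at k3
  have k4 := congrArg ((v : ℂ) • ·) k3
  simp only [smul_smul, wsq hv, one_smul] at k4
  rw [k4, Int.cast_mul, Nat.cast_mul P Q, one_div_mul_one_div, mul_comm (Q : ℚ)]

theorem al (hA : SAL) (hC : C.Good) {N : ℕ} {lam : ℕ → ℂ} (h : Eig C N g lam) (Q : ℕ) :
    ∀ N' : ℕ, N = Q * N' → Q.Coprime N' → ∃ w : ℤ, (w = 1 ∨ w = -1) ∧ AL C g Q N' w := by
  induction Q using Nat.recOnPosPrimePosCoprime with
  | zero => exact fun N' e _ => absurd (e.trans (zero_mul _)) h.pos.ne'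
  | one =>
    refine fun N' e _ => ⟨1, .inl rfl, fun a b c d h1 h2 _ => ?_⟩
    rw [one_mul] at e
    rw [h.lev a b c d h1 (e ▸ h2), Nat.cast_one, div_one, Vd_one, Int.cast_one, one_smul]
  | prime_pow p n hp hn =>
    intro N' e hc
    obtain ⟨w, w1, w2⟩ := hA V C hC N g lam h p n N' hp e
      (hp.coprime_iff_not_dvd.1 (hc.coprime_dvd_left (dvd_pow_self p hn.ne')))
    refine ⟨w, w1, fun a b c d h1 h2 h3 => ?_⟩
    rw [Nat.cast_pow] at h3 ⊢
    exact w2 a b c d h1 h2 h3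
  | coprime P Q hP hQ hc i1 i2 =>
    intro N' e hc'
    have c1 : P.Coprime (Q * N') := hc.mul_right (Nat.Coprime.coprime_mul_right hc')
    obtain ⟨v, v1, v2⟩ := i1 (Q * N') (by rw [e, mul_assoc]) c1
    obtain ⟨w, w1, w2⟩ := i2 (P * N') (by rw [e]; ring)
      (hc.symm.mul_right (Nat.Coprime.coprime_mul_left hc'))
    refine ⟨v * w, ?_, v2.mul w2 (by omega) (by omega) c1 v1⟩
    rcases v1 with rfl | rfl <;> rcases w1 with rfl | rfl <;> simp

end LOCX

open LOCX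

theorem rLOC : OfLOC := by
  intro hE hX hT hA V _ _ C hC N g lam h
  have g0 : g ≠ 0 := fun e => by simpa [e] using h.one
  have up : ∀ p : ℕ, p.Prime → p ∣ N → Up C p g = lam p • g := fun p hp hd => by
    rw [(rel_iff hp.pos h.lev.t1).1 (h.rel p hp), if_pos hd, add_zero]
  have kill : ∀ (p N' : ℕ) (s : ℂ), p.Prime → N = p * N' → G0 C N' (s • g) → s = 0 :=
    fun p N' s hp e hs => (smul_eq_zero.1
      (h.new p N' _ hp e hs fun q hq _ => (h.rel q hq).smul s)).resolve_right g0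
  refine ⟨fun Q N' e hc => ?_, fun p N' hp e hd => ⟨kill p N' _ hp e ?_, ?_⟩⟩
  · obtain ⟨w, w1, w2⟩ := al hA hC h Q N' e hc
    refine ⟨w, w1, fun hp => ?_, w2⟩
    obtain ⟨a, b, h1⟩ := bez hc
    have k := (hX V C hC Q N' g hp (e ▸ h.lev)).2 (hp.coprime_iff_not_dvd.1 hc) a b N' Q h1
      dvd_rfl dvd_rfl
    rw [w2.fix hp.pos h1 dvd_rfl dvd_rfl, map_smul, up Q hp ⟨N', e⟩, smul_smul] at k
    have k2 := kill Q N' (w * lam Q + 1) hp e (by rwa [add_smul, one_smul])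
    linear_combination (w : ℂ) * k2 - lam Q * wsq w1
  · rw [← up p hp ⟨N', e⟩]
    exact (hE V C hC p N' g hp).2.1 hd (e ▸ h.lev)
  · have n0 : 0 < N' := Nat.pos_of_mul_pos_left (e ▸ h.pos)
    obtain ⟨y, y1, y2, -, -, y3⟩ := hT V C hC N' p g n0 hp.pos (by rw [mul_comm, ← e]; exact h.lev)
    have y0 : y = 0 := h.new p N' y hp e y1 fun q hq ne => by
      have n : ¬q ∣ p := fun d => ne ((Nat.prime_dvd_prime_iff_eq hq hp).1 d)
      have i : q ∣ N ↔ q ∣ N' := by rw [e, hq.dvd_mul, or_iff_right n]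
      exact (y2 q _ hq n ((h.rel q hq).lev i)).lev i.symm
    have x1 := (hX V C hC p N' g hp (e ▸ h.lev)).1 hd
    have x2 := y3 _ x1
    rw [y0, inner_zero_left] at x2
    refine (inner_self_eq_zero (𝕜 := ℂ)).1 ?_
    nth_rewrite 1 [Ls_apply]
    rw [sum_inner]
    refine sum_eq_zero fun t _ => (inner_fix (by simp) g ?_).trans x2.symm
    have := x1 1 0 (t * N') 1 (by ring) (dvd_mul_left _ _)
    simpa [zm, Lw] using this

end Pool.Agent.MP_b2c033_nt.UN
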