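import Pool.Agent.MP_b2c033_nt.UN.Spec

/-!
Row PER: forms with periods in the rational span of the lattice.
-/

set_option autoImplicit false

noncomputable section

namespace Pool.Agent.MP_b2c033_nt.UN

open U CongruenceSubgroup
open scoped InnerProductSpace

namespace PERX

variable {V : Type} [NormedAddCommGroup V] [InnerProductSpace ℂ V] {C : CS V}
  {Λ : AddSubgroup ℂ}

theorem conj {x g g' : Mt} {f : V} (hx : 0 < x.det) (hg : 0 < g.det) (hg' : 0 < g'.det)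
    (e : x * g = g' * x) (h : C.act g' f = f) :
    C.act g (C.act x f) = C.act x f ∧ C.per g (C.act x f) = C.per g' f := by
  refine ⟨by rw [act_act hx hg, e, C.act_mul _ _ _ hg' hx, h], ?_⟩
  have h1 := C.per_mul x g f hx hg
  rw [e, C.per_mul g' x f hg' hx, h] at h1
  linear_combination -h1

theorem zmem {z : ℂ} (h : z ∈ Λ) (n : ℤ) : (n : ℂ) * z ∈ Λ := by
  simpa using Λ.zsmul_mem h n

theorem add {f g : V} (hf : PerL C Λ f) (hg : PerL C Λ g) : PerL C Λ (f + g) := by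
  obtain ⟨N, k, N0, k0, h1, h2⟩ := hf
  obtain ⟨N', k', N0', k0', h1', h2'⟩ := hg
  have d1 : (N : ℤ) ∣ (N * N' : ℕ) := Int.natCast_dvd_natCast.2 (dvd_mul_right N N')
  have d2 : (N' : ℤ) ∣ (N * N' : ℕ) := Int.natCast_dvd_natCast.2 (dvd_mul_left N' N)
  refine ⟨N * N', k * k', Nat.mul_pos N0 N0', Nat.mul_pos k0 k0', fun a b c d e x y z => ?_,
    fun a b c d e x y z => ?_⟩
  · rw [map_add, h1 a b c d e (d1.trans x) (d1.trans y) (d1.trans z),
      h1' a b c d e (d2.trans x) (d2.trans y) (d2.trans z)]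
  · have h3 := Λ.add_mem (zmem (h2 a b c d e (d1.trans x) (d1.trans y) (d1.trans z)) k')
      (zmem (h2' a b c d e (d2.trans x) (d2.trans y) (d2.trans z)) k)
    have e1 : ((k * k' : ℕ) : ℂ) * C.per (zm a b c d) (f + g) =
        ((k' : ℤ) : ℂ) * (k * C.per (zm a b c d) f) +
          ((k : ℤ) : ℂ) * (k' * C.per (zm a b c d) g) := by
      rw [map_add]
      push_cast
      ring
    rw [e1]
    exact h3

theorem smul {f : V} (r : ℚ) (hf : PerL C Λ f) : PerL C Λ ((r : ℂ) • f) := by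
  obtain ⟨N, k, N0, k0, h1, h2⟩ := hf
  refine ⟨N, k * r.den, N0, Nat.mul_pos k0 r.den_pos, fun a b c d e x y z => ?_,
    fun a b c d e x y z => ?_⟩
  · rw [map_smul, h1 a b c d e x y z]
  · have e0 : (r : ℂ) * r.den = r.num := by exact_mod_cast Rat.mul_den_eq_num r
    have e1 : ((k * r.den : ℕ) : ℂ) * C.per (zm a b c d) ((r : ℂ) • f) =
        (r.num : ℂ) * (k * C.per (zm a b c d) f) := by
      rw [map_smul, smul_eq_mul, ← e0]
      push_cast
      ring
    rw [e1]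
    exact zmem (h2 a b c d e x y z) _

theorem clear (x : Mt) : ∃ (m : ℚ) (A B P D : ℤ), 0 < m ∧ x.a = m * A ∧ x.b = m * B ∧
    x.c = m * P ∧ x.d = m * D := by
  have k : ∀ q : ℚ, (q.num : ℚ) = q * q.den := fun q => (Rat.mul_den_eq_num q).symm
  have p : ∀ q : ℚ, (0 : ℚ) < q.den := fun q => Nat.cast_pos.2 q.den_pos
  have p1 := p x.a
  have p2 := p x.b
  have p3 := p x.c
  have p4 := p x.d
  refine ⟨1 / (x.a.den * x.b.den * x.c.den * x.d.den), x.a.num * x.b.den * x.c.den * x.d.den,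
    x.b.num * x.a.den * x.c.den * x.d.den, x.c.num * x.a.den * x.b.den * x.d.den,
    x.d.num * x.a.den * x.b.den * x.c.den, by positivity, ?_, ?_, ?_, ?_⟩ <;>
  · push_cast
    rw [k]
    field_simp

theorem act {f : V} (x : Mt) (hx : 0 < x.det) (hf : PerL C Λ f) : PerL C Λ (C.act x f) := by
  obtain ⟨N, k, N0, k0, h1, h2⟩ := hf
  obtain ⟨m, A, B, P, D, m0, ea, eb, ec, ed⟩ := clear x
  have d0 : 0 < A * D - B * P := by
    have e : x.det = m ^ 2 * ((A * D - B * P : ℤ) : ℚ) := by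
      rw [Mt.det, ea, eb, ec, ed]
      push_cast
      ring
    rw [e] at hx
    exact_mod_cast (pos_iff_pos_of_mul_pos hx).1 (by positivity)
  obtain ⟨n, hn⟩ := Int.eq_ofNat_of_zero_le d0.le
  have key : ∀ a b c d : ℤ, a * d - b * c = 1 → ((N * n : ℕ) : ℤ) ∣ b → ((N * n : ℕ) : ℤ) ∣ c →
      ((N * n : ℕ) : ℤ) ∣ d - 1 → ∃ a' b' c' d' : ℤ, a' * d' - b' * c' = 1 ∧ (N : ℤ) ∣ b' ∧
        (N : ℤ) ∣ c' ∧ (N : ℤ) ∣ d' - 1 ∧ x * zm a b c d = zm a' b' c' d' * x := by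
    intro a b c d e hb hc hd
    have ha : ((N * n : ℕ) : ℤ) ∣ a - 1 := by
      have : a - 1 = b * c - a * (d - 1) := by linear_combination e
      rw [this]
      exact dvd_sub (hc.mul_left _) (hd.mul_left _)
    rw [Nat.cast_mul, ← hn] at ha hb hc hd
    obtain ⟨a₁, ha⟩ := ha
    obtain ⟨b₁, rfl⟩ := hb
    obtain ⟨c₁, rfl⟩ := hc
    obtain ⟨d₁, hd⟩ := hd
    obtain rfl : a = 1 + N * (A * D - B * P) * a₁ := by linear_combination ha
    obtain rfl : d = 1 + N * (A * D - B * P) * d₁ := by linear_combination hd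
    have e1 : x * zm (1 + N * (A * D - B * P) * a₁) (N * (A * D - B * P) * b₁)
        (N * (A * D - B * P) * c₁) (1 + N * (A * D - B * P) * d₁) =
        zm (1 + N * ((A * a₁ + B * c₁) * D - (A * b₁ + B * d₁) * P))
          (N * ((A * b₁ + B * d₁) * A - (A * a₁ + B * c₁) * B))
          (N * ((P * a₁ + D * c₁) * D - (P * b₁ + D * d₁) * P))
          (1 + N * ((P * b₁ + D * d₁) * A - (P * a₁ + D * c₁) * B)) * x := by
      ext <;> simp only [zm, Mt.mul_a, Mt.mul_b, Mt.mul_c, Mt.mul_d, ea, eb, ec, ed] <;>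
        push_cast <;> ring
    refine ⟨_, _, _, _, ?_, Dvd.intro _ rfl, Dvd.intro _ rfl, ⟨_, add_sub_cancel_left _ _⟩, e1⟩
    have e2 := congrArg Mt.det e1
    rw [Mt.det_mul, Mt.det_mul, det_zm, det_zm, e, Int.cast_one, mul_one] at e2
    exact_mod_cast (mul_right_cancel₀ hx.ne' ((one_mul _).trans e2)).symm
  have n0 : 0 < n := by omega
  refine ⟨N * n, k, Nat.mul_pos N0 n0, k0, fun a b c d e hb hc hd => ?_,
    fun a b c d e hb hc hd => ?_⟩
  · obtain ⟨a', b', c', d', e', x1, x2, x3, e1⟩ := key a b c d e hb hc hd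
    exact (conj hx (det_zm_pos e) (det_zm_pos e') e1 (h1 _ _ _ _ e' x1 x2 x3)).1
  · obtain ⟨a', b', c', d', e', x1, x2, x3, e1⟩ := key a b c d e hb hc hd
    rw [(conj hx (det_zm_pos e) (det_zm_pos e') e1 (h1 _ _ _ _ e' x1 x2 x3)).2]
    exact h2 _ _ _ _ e' x1 x2 x3

theorem per_pow {γ : SZ} {f : V} (h : C.act (ofZ γ) f = f) (j : ℕ) :
    C.per (ofZ (γ ^ j)) f = j * C.per (ofZ γ) f := by
  induction j with
  | zero =>
    rw [pow_zero, ofZ_one, C.per_up 1 f (by simp [Mt.det]) rfl, Nat.cast_zero, zero_mul]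
  | succ j ih =>
    rw [pow_succ', ofZ_mul, C.per_mul _ _ _ (by simp) (by simp), h, ih]
    push_cast
    ring

theorem one {N : ℕ} {f : V} (h : G1 C N f) (hf : PerL C Λ f) :
    ∃ k : ℕ, 0 < k ∧ Per1 C Λ N ((k : ℂ) • f) := by
  obtain ⟨L, k, L0, k0, -, h2⟩ := hf
  have : NeZero L := ⟨L0.ne'⟩
  have := Gamma_normal L
  refine ⟨k * (Gamma L).index,
    Nat.mul_pos k0 (Nat.pos_of_ne_zero Subgroup.FiniteIndex.index_ne_zero),
    fun a b c d e x y => ?_⟩
  have h3 := (mem_GG L _).1 ((Gamma L).pow_index_mem (mkZ a b c d e))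
  have h4 := h2 _ _ _ _ (detZ _) h3.1 h3.2.1 h3.2.2
  rw [← ofZ_eq, per_pow (γ := mkZ a b c d e) (h a b c d e x y), ofZ_mkZ] at h4
  rw [map_smul, smul_eq_mul, Nat.cast_mul, mul_assoc]
  exact h4

end PERX

theorem rPER : SPER := fun _ _ _ _ _ Λ =>
  ⟨⟨1, 1, one_pos, one_pos, fun _ _ _ _ _ _ _ _ => map_zero _, fun _ _ _ _ _ _ _ _ => by
      rw [map_zero, mul_zero]
      exact Λ.zero_mem⟩,
    fun _ _ => PERX.add, fun _ r => PERX.smul r, fun _ x => PERX.act x, fun _ _ _ => PERX.one⟩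

end Pool.Agent.MP_b2c033_nt.UN
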