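import Pool.Agent.MP_b2c033_nt.UN.Spec

/-!
Row S1: consequences of the congruences.
-/

set_option autoImplicit false

noncomputable section

namespace Pool.Agent.MP_b2c033_nt.UN

open U

namespace S1X

variable {V : Type} [NormedAddCommGroup V] [InnerProductSpace ℂ V] {C : CS V}

theorem indep {l M : ℕ} (hl : 0 < l) (hs : ∀ f, Sup C l f → G1 C M f → f = 0) {x y : V}
    (hx : G1 C M x) (hy : G1 C M y) (h : x + C.act (Vd l) y = 0) : x = 0 ∧ y = 0 := by
  have hl' : (0 : ℚ) < l := by exact_mod_cast hl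
  have h1 : x = 0 := hs x (fun n hn => by
    have h2 := hy.t1.sup_vd hl n hn
    have h3 := congrArg (C.β n) h
    rwa [map_add, h2, add_zero, map_zero] at h3) hx
  rw [h1, zero_add] at h
  exact ⟨h1, act_inj (by simpa using hl') h⟩

theorem iter {l M : ℕ} (hl : 0 < l) (hs : ∀ f, Sup C l f → G1 C M f → f = 0) {σ : Mt}
    (hσ : 0 < σ.det) (hT : ∀ f, G1 C M f →
      G1 C M (C.act σ f) ∧ G1 C M (Up C l f + C.act (Vd l) (C.act σ f))) (K : ℕ) :
    ∀ x y : V, G1 C M x → G1 C M y →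
      (∀ n : ℕ, C.β (l ^ K * n : ℕ) (x + C.act (Vd l) y) = 0) → x = 0 ∧ y = 0 := by
  have hl' : (l : ℂ) ≠ 0 := by exact_mod_cast hl.ne'
  induction K with
  | zero =>
    intro x y hx hy h
    exact indep hl hs hx hy ((hx.t1.add (hy.t1.vd hl)).ext0 fun n => by simpa using h n)
  | succ K ih =>
    intro x y hx hy h
    have e : (Up C l x + C.act (Vd l) (C.act σ x) + (l : ℂ) • y)
        + C.act (Vd l) ((-1 : ℂ) • C.act σ x) = Up C l (x + C.act (Vd l) y) := by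
      rw [map_add, Up_Vd hl hy.t1, map_smul]
      module
    obtain ⟨h1, h2⟩ := ih _ _ ((hT x hx).2.add (hy.smul _)) ((hT x hx).1.smul (-1)) fun n => by
      rw [e, β_Up hl, ← h n]
      have e2 : (l : ℚ) * (l ^ K * n : ℕ) = (l ^ (K + 1) * n : ℕ) := by push_cast; ring
      rw [e2]
    have h3 : x = 0 := act_inj hσ (by simpa using h2)
    rw [h3] at h1
    simp only [map_zero, zero_add] at h1
    exact ⟨h3, (smul_eq_zero.1 h1).resolve_left hl'⟩

theorem key {l M : ℕ} (hl : 0 < l) (hs : ∀ f, Sup C l f → G1 C M f → f = 0) {σ : Mt}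
    (hσ : 0 < σ.det) (hT : ∀ f, G1 C M f →
      G1 C M (C.act σ f) ∧ G1 C M (Up C l f + C.act (Vd l) (C.act σ f))) {F : V} (hF : G1 C M F)
    {a ε : ℂ} {K : ℕ} (hK : Dep C (l ^ K) (QQ C a ε l F)) :
    Up C l F + C.act (Vd l) (C.act σ F) = a • F ∧ C.act σ F = ε • F := by
  have hl' : (l : ℂ) ≠ 0 := by exact_mod_cast hl.ne'
  have hq : (0 : ℚ) < l := by exact_mod_cast hl
  have e : (Up C l F + C.act (Vd l) (C.act σ F) - a • F)
      + C.act (Vd l) (ε • F - C.act σ F) = Up C l (QQ C a ε l F) := by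
    rw [QQ_apply, sq, ← Vd_Vd hq hq, map_add, map_sub, map_sub, map_smul, map_smul, map_smul,
      Up_Vd hl hF.t1, Up_Vd hl (hF.t1.vd hl), smul_smul, smul_smul, div_mul_cancel₀ _ hl',
      div_mul_cancel₀ _ hl']
    module
  obtain ⟨h1, h2⟩ := iter hl hs hσ hT K _ _ ((hT F hF).2.sub (hF.smul a))
    ((hF.smul ε).sub (hT F hF).1) fun n => by
      rw [e, β_Up hl]
      have h3 := hK (l * (l ^ K * n)) ((dvd_mul_right _ _).mul_left _)
      rwa [Nat.cast_mul] at h3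
  exact ⟨sub_eq_zero.1 h1, (sub_eq_zero.1 h2).symm⟩

end S1X

theorem rS1 : OfS1 := by
  intro hsup hhe hstr V _ _ C hC E M F hM hF0 hF hon
  have nil : ∀ p : ℕ, p.Prime → ∃ K : ℕ, Dep C (p ^ K) (E.Q C p F) := fun p hp =>
    hstr V C hC p (M * p ^ 2) _ hp (Nat.mul_pos hM (pow_pos hp.pos 2))
      ((dvd_pow_self p two_ne_zero).mul_left _) (hF.qq _ _ hp.pos) fun k n h => hon.2 p k n hp h
  have main : ∀ l : ℕ, l.Prime → ¬l ∣ M → ∀ a b c d : ℤ, a * d - b * c = 1 → (M : ℤ) ∣ c →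
      (M : ℤ) ∣ d - l → E.gd l ∧ C.act (zm a b c d) F = F ∧
        Up C l F + C.act (Vd l) F = (E.a l : ℂ) • F := by
    intro l hl hlM a b c d h1 h2 h3
    obtain ⟨K, hK⟩ := nil l hl
    obtain ⟨k1, k2⟩ := S1X.key hl.pos (fun f hs hf => (hsup V C hC l M f hl hs).2 hlM hf)
      (det_zm_pos h1) (fun f hf => (hhe V C hC l M f hl).2.2.2 hlM hf a b c d h1 h2 h3) hF hK
    have hg : E.gd l := by
      by_contra hg
      rw [ED.ε, if_neg hg, zero_smul] at k2
      exact hF0 (act_inj (det_zm_pos h1) k2)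
    rw [ED.ε, if_pos hg, one_smul] at k2
    rw [k2] at k1
    exact ⟨hg, k2, k1⟩
  refine ⟨fun a b c d h1 h2 => ?_, fun l hl hlM => ?_, nil⟩
  · have hc : IsCoprime d (M : ℤ) := by
      obtain ⟨k, rfl⟩ := h2
      exact ⟨a, -(b * k), by linear_combination h1⟩
    obtain ⟨l, hlM, hl, he⟩ := Nat.forall_exists_prime_gt_and_zmodEq M hM.ne' hc
    exact (main l hl (fun h => absurd (Nat.le_of_dvd hM h) (by omega)) a b c d h1 h2 he.dvd).2.1
  · have hc : IsCoprime (l : ℤ) (M : ℤ) :=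
      Nat.isCoprime_iff_coprime.2 ((Nat.Prime.coprime_iff_not_dvd hl).2 hlM)
    obtain ⟨u, v, huv⟩ := hc
    obtain ⟨h1, -, h3⟩ := main l hl hlM u (-v) M l (by linear_combination huv) dvd_rfl (by simp)
    refine ⟨h1, (rel_iff hl.pos hF.t1).2 ?_⟩
    rw [if_neg hlM, h3]

end Pool.Agent.MP_b2c033_nt.UN
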