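import Pool.Agent.MP_b2c033_nt.UN.Spec

/-!
The bound of Sturm, and the bound of the coefficients by the norm.
-/

set_option autoImplicit false

namespace Pool.Agent.MP_b2c033_nt.UN

open U Finset CongruenceSubgroup
open scoped Real

namespace STX

theorem low (h : AvFacts) {N : ℕ} (hN : 0 < N) : ∃ (B : ℕ) (δ : SZ), 0 < B ∧ δ ∈ Gamma N ∧
    ∀ Φ : SZ → ℝ, (∀ γ, 0 ≤ Φ γ) → (B : ℝ)⁻¹ * Φ δ ≤ Av ⊤ N Φ := by
  obtain ⟨s, s0, -, s1, -, s2⟩ := h.fin ⊤ N hN
  obtain ⟨δ, d1, d2⟩ := s1 1 trivial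
  refine ⟨s.card, δ, s0.card_pos, by simpa using d2, fun Φ h0 => ?_⟩
  rw [s2, smul_eq_mul]
  exact mul_le_mul_of_nonneg_left (single_le_sum (fun γ _ => h0 γ) d1) (by positivity)

end STX

theorem rST : SST := by
  classical
  intro V _ _ C hC N hN
  obtain ⟨B, δ, B0, hδ, low⟩ := STX.low hC.av hN
  have B1 : (0 : ℝ) < B := Nat.cast_pos.2 B0
  refine ⟨⟨B, fun f hf h0 => ?_⟩, fun n => ?_⟩
  · by_contra f0
    have h1 := (low _ fun γ => by positivity).trans (hC.val f N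
      (fun γ => if γ ∈ Gamma N then B else 0) f0 hN
      (fun γ γ' h => if_congr (Subgroup.mul_mem_cancel_right _ h) rfl rfl) fun γ ν h => ?_)
    · rw [if_pos hδ, inv_mul_cancel₀ B1.ne'] at h1
      norm_num at h1
    · by_cases q : γ ∈ Gamma N
      · rw [fixG_iff.2 hf.gg γ q]
        by_contra h2
        obtain ⟨n, -, rfl⟩ := hf.t1.nat h2
        rw [if_pos q] at h
        exact h2 (h0 n (by exact_mod_cast h.le))
      · rw [if_neg q] at h
        exact C.β_neg _ _ (by exact_mod_cast h.le)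
  · rcases Nat.eq_zero_or_pos n with rfl | n0
    · exact ⟨0, fun f _ => by rw [β_zero, norm_zero, zero_mul]⟩
    have n1 : (0 : ℝ) < ((n : ℚ) : ℝ) := by exact_mod_cast n0
    have c0 : 0 < (B : ℝ)⁻¹ * (π * (Real.exp (-(4 * π * (n : ℚ))) / (n : ℚ))) := by positivity
    refine ⟨√((B : ℝ)⁻¹ * (π * (Real.exp (-(4 * π * (n : ℚ))) / (n : ℚ))))⁻¹, fun f hf =>
      (pow_le_pow_iff_left₀ (norm_nonneg _) (by positivity) two_ne_zero).1 ?_⟩
    rw [mul_pow, Real.sq_sqrt (inv_nonneg.2 c0.le), inv_mul_eq_div, le_div_iff₀ c0]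
    have h1 := (low _ fun γ => by rw [sum_singleton]; positivity).trans
      (hC.horo f N {(n : ℚ)} hN (fixG_iff.2 hf.gg))
    rw [sum_singleton, fixG_iff.2 hf.gg δ hδ] at h1
    refine le_of_eq_of_le ?_ h1
    ring

end Pool.Agent.MP_b2c033_nt.UN
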