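import Pool.Agent.MP_b2c033_nt.UN.Spec

/-! Row STR: nilpotence of the normalised operator on forms with divisible coefficients. -/

set_option autoImplicit false

noncomputable section

namespace Pool.Agent.MP_b2c033_nt.UN

open U Finset
open scoped InnerProductSpace

namespace STRX

variable {V : Type} [NormedAddCommGroup V] [InnerProductSpace ℂ V] {C : CS V}

/-- equality in the triangle inequality -/
theorem eq_of_avg {p : ℕ} (v : ℕ → V) (y : V) (hs : ∑ t ∈ range p, v t = (p : ℂ) • y)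
    (hn : ∀ t, ‖v t‖ = ‖y‖) {t : ℕ} (ht : t ∈ range p) : v t = y := by
  have h1 : ∑ t ∈ range p, RCLike.re ⟪v t, y⟫_ℂ = p * ‖y‖ ^ 2 := by
    rw [← map_sum, ← sum_inner, hs, inner_smul_left, inner_self_eq_norm_sq_to_K]
    simp [← Complex.ofReal_pow]
  have h2 : ∑ t ∈ range p, ‖v t - y‖ ^ 2 = 0 := by
    rw [sum_congr rfl fun t _ => norm_sub_sq (𝕜 := ℂ) (v t) y, sum_add_distrib, sum_sub_distrib,
      ← mul_sum, h1, sum_congr rfl fun t _ => by rw [hn t]]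
    simp only [sum_const, card_range, nsmul_eq_mul]
    ring
  have h3 := (sum_eq_zero_iff_of_nonneg fun t _ => sq_nonneg ‖v t - y‖).1 h2 t ht
  exact sub_eq_zero.1 (norm_eq_zero.1 (pow_eq_zero_iff two_ne_zero |>.1 h3))

/-- the normalised operator -/
def A (C : CS V) (p : ℕ) (x : V) : V := (p : ℂ)⁻¹ • Up C p x

theorem norm_t {p : ℕ} (hp : 0 < p) (t : ℕ) (x : V) : ‖C.act ⟨1, t, 0, p⟩ x‖ = ‖x‖ :=
  norm_act (by simpa [Mt.det] using hp) x

theorem norm_A {p : ℕ} (hp : 0 < p) (x : V) : ‖A C p x‖ ≤ ‖x‖ := by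
  have hp' : (0 : ℝ) < p := by exact_mod_cast hp
  have h1 : ‖Up C p x‖ ≤ p * ‖x‖ := by
    rw [Up_apply]
    refine (norm_sum_le _ _).trans ?_
    rw [sum_congr rfl fun t _ => norm_t hp t x]
    simp
  rw [A, norm_smul, norm_inv, Complex.norm_natCast, inv_mul_le_iff₀ hp']
  exact h1

theorem A_eq {p : ℕ} (hp : 0 < p) (x : V) (h : ‖A C p x‖ = ‖x‖) :
    A C p x = C.act (Vd (1 / p)) x := by
  have hp' : (p : ℂ) ≠ 0 := by exact_mod_cast hp.ne'
  have h1 := eq_of_avg (fun t : ℕ => C.act ⟨1, t, 0, p⟩ x) (A C p x)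
    (by rw [A, smul_inv_smul₀ hp', Up_apply]) (fun t => by rw [h, norm_t hp])
    (mem_range.2 hp)
  rw [← h1, up_eq hp, Nat.cast_zero]
  exact act_one _

theorem β_A {p : ℕ} (hp : 0 < p) (n : ℕ) (x : V) :
    C.β n (A C p x) = (p : ℂ)⁻¹ * C.β (p * n : ℕ) x := by
  rw [A, map_smul, β_Up hp, smul_eq_mul, Nat.cast_mul]

theorem β_it {p : ℕ} (hp : 0 < p) (f : V) (k n : ℕ) :
    C.β n ((A C p)^[k] f) = (p : ℂ)⁻¹ ^ k * C.β (p ^ k * n : ℕ) f := by
  induction k generalizing n with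
  | zero => simp
  | succ k ih =>
    rw [Function.iterate_succ_apply', β_A hp, ih, ← mul_assoc, ← mul_assoc, pow_succ', pow_succ]

theorem fin_int (R : ℝ) : {z : ℤ | ‖(z : ℂ)‖ ≤ R}.Finite := by
  refine (Set.finite_Icc (-⌈R⌉) ⌈R⌉).subset fun z hz => ?_
  have h1 : |(z : ℝ)| ≤ (⌈R⌉ : ℝ) := by
    have h2 : ‖(z : ℂ)‖ ≤ R := hz
    rw [Complex.norm_intCast] at h2
    exact h2.trans (Int.le_ceil R)
  have h3 : |z| ≤ ⌈R⌉ := by exact_mod_cast h1
  exact abs_le.1 h3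

end STRX

open STRX in
theorem rSTR : OfSTR := by
  intro hST hHE V _ _ C hC p N f hp hN hpN hf hdiv
  have hp0 := hp.pos
  have hp' : (p : ℂ) ≠ 0 := by exact_mod_cast hp0.ne'
  obtain ⟨⟨B, hB⟩, hK⟩ := hST V C hC N hN
  choose K hK using hK
  obtain ⟨F, hF⟩ : ∃ F : ℕ → V, ∀ k, F k = (A C p)^[k] f := ⟨_, fun _ => rfl⟩
  have hs : ∀ k, F (k + 1) = A C p (F k) := fun k => by
    rw [hF, hF, Function.iterate_succ_apply']
  have hG : ∀ k, G1 C N (F k) := fun k => by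
    induction k with
    | zero => rw [hF]; exact hf
    | succ k ih => rw [hs]; exact ((hHE V C hC p N _ hp).1 hpN ih).smul _
  have hanti : Antitone fun k => ‖F k‖ :=
    antitone_nat_of_succ_le fun k => by rw [hs]; exact norm_A hp0 _
  have hint : ∀ k n : ℕ, ∃ z : ℤ, C.β n (F k) = z := fun k n => by
    obtain ⟨z, hz⟩ := hdiv k (p ^ k * n) (dvd_mul_right _ _)
    exact ⟨z, by rw [hF, β_it hp0, hz, inv_pow, inv_mul_cancel_left₀ (pow_ne_zero k hp')]⟩
  choose z hz using hint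
  have hfin : {u : Fin (B + 1) → ℤ |
      ∀ i : Fin (B + 1), u i ∈ {w : ℤ | ‖(w : ℂ)‖ ≤ |K i| * ‖F 0‖}}.Finite :=
    Set.Finite.pi' fun i => fin_int _
  have hmem : ∀ k : ℕ, (fun i : Fin (B + 1) => z k i) ∈ {u : Fin (B + 1) → ℤ |
      ∀ i : Fin (B + 1), u i ∈ {w : ℤ | ‖(w : ℂ)‖ ≤ |K i| * ‖F 0‖}} := fun k i => by
    change ‖(z k i : ℂ)‖ ≤ |K i| * ‖F 0‖
    rw [← hz]
    exact (hK i _ (hG k)).trans (mul_le_mul (le_abs_self _) (hanti (Nat.zero_le k))
      (norm_nonneg _) (abs_nonneg _))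
  obtain ⟨a, b, hab, he⟩ := Set.Finite.exists_lt_map_eq_of_forall_mem hmem hfin
  have h0 : F a = F b := sub_eq_zero.1 (hB _ ((hG a).sub (hG b)) fun n hn => by
    have := congrFun he ⟨n, Nat.lt_succ_of_le hn⟩
    simp only at this
    rw [map_sub, hz, hz, this, sub_self])
  have hper : ∀ j, F (a + j) = F (b + j) := fun j => by
    induction j with
    | zero => exact h0
    | succ j ih => rw [← add_assoc, ← add_assoc, hs, hs, ih]
  have hV : ∀ j, F (a + j + 1) = C.act (Vd (1 / p)) (F (a + j)) := fun j => by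
    rw [hs]
    refine A_eq hp0 _ (le_antisymm (norm_A hp0 _) ?_)
    rw [← hs, hper j]
    exact hanti (show a + j + 1 ≤ b + j by omega)
  have hβ : ∀ (j : ℕ) (ν : ℚ), C.β ν (F (a + j)) = (p : ℂ)⁻¹ ^ j * C.β (p ^ j * ν) (F a) := by
    intro j
    induction j with
    | zero => simp
    | succ j ih =>
      intro ν
      rw [← add_assoc, hV, β_Vi hp0, ih, ← mul_assoc, ← mul_assoc, pow_succ', pow_succ]
  have hzero : ∀ n : ℕ, C.β n (F a) = 0 := fun n => by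
    rcases Nat.eq_zero_or_pos n with rfl | hn
    · exact β_zero _
    have hnd : ¬p ^ n ∣ n := fun hd =>
      absurd (Nat.le_of_dvd hn hd) (not_le.2 (Nat.lt_pow_self hp.one_lt))
    have h1 := (hG (a + n)).t1.β_div (pow_pos hp0 n) hnd
    have hq : ((p : ℚ) ^ n) ≠ 0 := by positivity
    rw [hβ, Nat.cast_pow, mul_div_cancel₀ _ hq] at h1
    exact (mul_eq_zero.1 h1).resolve_left (pow_ne_zero _ (inv_ne_zero hp'))
  refine ⟨a, ?_⟩
  rintro _ ⟨n, rfl⟩
  have h1 := hzero n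
  rw [hF, β_it hp0] at h1
  exact (mul_eq_zero.1 h1).resolve_left (pow_ne_zero _ (inv_ne_zero hp'))

end Pool.Agent.MP_b2c033_nt.UN
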