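import Pool.Agent.MP_b2c033_nt.UN.Spec

/-!
Forms supported on the multiples of a prime.
-/

set_option autoImplicit false

noncomputable section

namespace Pool.Agent.MP_b2c033_nt.UN

open U

namespace SUPX

variable {V : Type} [NormedAddCommGroup V] [InnerProductSpace ℂ V] {C : CS V} {x y : Mt}
  {f h : V} {p N : ℕ}

theorem left (hx : 0 < x.det) (hy : 0 < y.det) (h1 : C.act (x * y) h = h) (h2 : C.act y h = h) :
    C.act x h = h :=
  sub_eq_zero.1 (act_inj (C := C) hy (by rw [map_sub, act_act hx hy, h1, h2, sub_self]))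

theorem right (hx : 0 < x.det) (hy : 0 < y.det) (h1 : C.act (x * y) h = h) (h2 : C.act x h = h) :
    C.act y h = h := by
  rwa [← act_act hx hy, h2] at h1

theorem tz (hT : T1 C h) (k : ℤ) : C.act (zm 1 k 0 1) h = h := by
  have : C.act (Tr k) h = h := fix_of_β fun ν hν => by
    obtain ⟨n, _, rfl⟩ := hT.nat hν
    exact ⟨n * k, by push_cast; ring⟩
  simpa [zm, Tr] using this

theorem gen (hp : p.Prime) (hT : T1 C h) {M : ℤ} (hM : M ∣ N)
    (H : ∀ a b c d : ℤ, a * d - p * b * c = 1 → (N : ℤ) ∣ c → M ∣ d - 1 →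
      C.act (zm a (p * b) c d) h = h) :
    ∀ a b c d : ℤ, a * d - b * c = 1 → (N : ℤ) ∣ c → M ∣ d - 1 → C.act (zm a b c d) h = h := by
  have hp' := Nat.prime_iff_prime_int.1 hp
  have k : ∀ a b c d : ℤ, a * d - b * c = 1 → (N : ℤ) ∣ c → M ∣ d - 1 → ¬(p : ℤ) ∣ a →
      C.act (zm a b c d) h = h := fun a b c d h1 h2 h3 h4 => by
    obtain ⟨u, v, e⟩ := (hp'.irreducible.coprime_iff_not_dvd).2 h4
    refine left (det_zm_pos h1) (det_zm_pos (by norm_num)) ?_ (tz hT (-(v * b)))
    refine Eq.trans (congrArg (fun x => C.act x h) ?_) (H a (u * b) c (d - c * (v * b))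
      (by linear_combination h1 - b * c * e) h2
      (by rw [sub_right_comm]; exact h3.sub ((hM.trans h2).mul_right _)))
    rw [zm_mul, show a * -(v * b) + b * 1 = p * (u * b) by linear_combination -b * e]
    simp [sub_eq_neg_add]
  intro a b c d h1 h2 h3
  by_cases h4 : (p : ℤ) ∣ a
  · refine right (det_zm_pos (by norm_num)) (det_zm_pos h1) ?_ (tz hT 1)
    rw [zm_mul]
    refine k _ _ _ _ (by linear_combination h1) (by simpa using h2) (by simpa using h3) fun q => ?_
    rw [one_mul, one_mul, dvd_add_right h4] at q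
    exact hp'.not_dvd_one (h1 ▸ (h4.mul_right d).sub (q.mul_left b))
  · exact k a b c d h1 h2 h3 h4

theorem conj (hp : 0 < p) {a b c d : ℤ} (h1 : a * d - p * b * c = 1) (f : V) :
    C.act (zm a (p * b) c d) (C.act (Vd (1 / p)) f) =
      C.act (Vd (1 / p)) (C.act (zm a b (p * c) d) f) := by
  have hp' : (0 : ℚ) < p := by exact_mod_cast hp
  exact act_comm 1 one_ne_zero (by simpa) (det_zm_pos h1)
    (det_zm_pos (by linear_combination h1)) (by simpa)
    (by ext <;> simp [zm, Vd, mul_comm, hp'.ne']) f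

theorem step (hp : p.Prime) (hN : ¬p ∣ N) (hs : Sup C p f) (hf : G1 C N f) :
    Sup C p (C.act (Vd (1 / p)) f) ∧ G1 C N (C.act (Vd (1 / p)) f) := by
  have hq : (0 : ℚ) < p := by exact_mod_cast hp.pos
  have hp' := Nat.prime_iff_prime_int.1 hp
  have g1 : G1 C N (C.act (Vd (1 / p)) f) := gen hp (hs.t1 hf.t1 hp.pos) dvd_rfl
    fun a b c d h1 h2 h3 => by
      rw [conj hp.pos h1, hf _ _ _ _ (by linear_combination h1) (h2.mul_left _) h3]
  refine ⟨fun n hn => ?_, g1⟩
  have l : C.act (Lw (N / p)) (C.act (Vd (1 / p)) f) = C.act (Vd (1 / p)) f := by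
    have := hf 1 0 N 1 (by norm_num) dvd_rfl (by simp)
    rw [Lw_Vd (by positivity), show (N : ℚ) / p / (1 / p) = N by field_simp]
    exact congrArg _ (by simpa [zm, Lw] using this)
  obtain ⟨a, b, e⟩ : IsCoprime ((p : ℤ) ^ 2) N :=
    (hp'.irreducible.coprime_iff_not_dvd.2 (mt Int.natCast_dvd_natCast.1 hN)).pow_left
  have d1 : a * p ^ 2 * 1 - -b * N = 1 := by linear_combination e
  have d2 : (1 + p * a * b * N + N ^ 2 * b ^ 2 * p ^ 2 * a ^ 2) * (1 - p * a * b * N) -
      -(N ^ 2 * b ^ 3 * a) * (N * (p ^ 3 * a ^ 2)) = 1 := by ring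
  have f1 := g1 _ _ _ _ d1 dvd_rfl (by simp)
  have f2 := g1 _ _ _ _ d2 (dvd_mul_right _ _) ⟨-(p * a * b), by ring⟩
  have eq : (a : ℚ) * p ^ 2 + b * N = 1 := by exact_mod_cast e
  have f3 : C.act (Tr (-(N * b ^ 2) / p)) (C.act (Vd (1 / p)) f) = C.act (Vd (1 / p)) f := by
    refine left (by simp) (det_zm_pos d2) (right (det_zm_pos d1)
      (by rw [Mt.det_mul, det_Tr, one_mul]; exact det_zm_pos d2) ?_ f1) f2
    refine Eq.trans (congrArg (fun x => C.act x _) (?_ : _ = Lw (N / p) * zm _ _ _ _))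
      (by rw [← act_act (by simp) (det_zm_pos d1), l, f1])
    ext <;> simp only [zm, Tr, Lw, Mt.mul_a, Mt.mul_b, Mt.mul_c, Mt.mul_d] <;> push_cast <;>
      field_simp
    · ring
    · ring
    · linear_combination N * p * a * eq
    · linear_combination -N * b * eq
  refine β_fix f3 fun ⟨m, hm⟩ => ?_
  have hm' : (n : ℤ) * (N * b ^ 2) = p * -m := by
    rw [← mul_div_assoc, div_eq_iff hq.ne'] at hm
    exact_mod_cast (show (n : ℚ) * (N * b ^ 2) = p * -m by linear_combination -hm)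
  rcases hp'.dvd_or_dvd (Dvd.intro _ hm'.symm) with q | q
  · exact hn (Int.natCast_dvd_natCast.1 q)
  rcases hp'.dvd_or_dvd q with q | q
  · exact hN (Int.natCast_dvd_natCast.1 q)
  · exact hp'.not_dvd_one (e ▸ ((dvd_pow_self _ two_ne_zero).mul_left a).add
      ((hp'.dvd_of_dvd_pow q).mul_right _))

end SUPX

open SUPX

theorem rSUP : SSUP := by
  intro V _ _ C _ p N f hp hs
  refine ⟨fun hf a b c d h1 h2 => gen hp (hs.t1 hf.t1 hp.pos) (one_dvd _)
    (fun a b c d h1 h2 _ => ?_) a b c d h1 h2 (one_dvd _), fun hN hf => hf.t1.ext0 fun n => ?_⟩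
  · rw [conj hp.pos h1, hf _ _ _ _ (by linear_combination h1)
      (by push_cast; exact mul_dvd_mul_left _ h2)]
  induction n using Nat.strong_induction_on generalizing f with
  | _ n ih =>
    rcases Nat.eq_zero_or_pos n with rfl | h0
    · exact β_zero f
    by_cases hn : p ∣ n
    · obtain ⟨m, rfl⟩ := hn
      obtain ⟨s1, s2⟩ := step hp hN hs hf
      have := ih m (lt_mul_left (Nat.pos_of_mul_pos_left h0) hp.one_lt) _ s1 s2
      rw [β_Vi hp.pos, mul_eq_zero, inv_eq_zero, Nat.cast_eq_zero] at this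
      rw [Nat.cast_mul]
      exact this.resolve_left hp.ne_zero
    · exact hs n hn

end Pool.Agent.MP_b2c033_nt.UN
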