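import Pool.Agent.MP_b2c033_nt.UN.Spec

/-!
One-prime newform theory: the trace to a lower level.
-/

set_option autoImplicit false

noncomputable section

namespace Pool.Agent.MP_b2c033_nt.UN

open U Finset CongruenceSubgroup
open scoped InnerProductSpace MatrixGroups

namespace TRX

theorem mem_iff (L : ℕ) (γ γ' : SZ) : γ⁻¹ * γ' ∈ Gamma L ↔
    ((γ 0 0 : ℤ) : ZMod L) = (γ' 0 0 : ℤ) ∧ ((γ 0 1 : ℤ) : ZMod L) = (γ' 0 1 : ℤ) ∧
    ((γ 1 0 : ℤ) : ZMod L) = (γ' 1 0 : ℤ) ∧ ((γ 1 1 : ℤ) : ZMod L) = (γ' 1 1 : ℤ) := by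
  rw [Gamma_mem', map_mul, map_inv, inv_mul_eq_one]
  constructor
  · intro h
    have h1 := fun i j => congrArg (fun M : SL(2, ZMod L) => M i j) h
    exact ⟨h1 0 0, h1 0 1, h1 1 0, h1 1 1⟩
  · intro h
    ext i j
    fin_cases i <;> fin_cases j
    · exact h.1
    · exact h.2.1
    · exact h.2.2.1
    · exact h.2.2.2

variable {V : Type} [NormedAddCommGroup V] [InnerProductSpace ℂ V] {C : CS V}

theorem act_ofZ (γ δ : SZ) (y : V) :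
    C.act (ofZ (γ * δ)) y = C.act (ofZ δ) (C.act (ofZ γ) y) := by
  rw [ofZ_mul, C.act_mul _ _ _ (by simp) (by simp)]

theorem lev {L : ℕ} {y : V} (h : G0 C L y) (ν : ℚ) :
    Lev L fun γ => C.β ν (C.act (ofZ γ) y) := fun γ δ hδ => by
  have h1 : γ * δ * γ⁻¹ ∈ Gamma L := (Gamma_normal L).conj_mem δ hδ γ
  have h2 : γ * δ = γ * δ * γ⁻¹ * γ := by group
  have h3 := fix0_iff.2 h _ ((mem_G0 _ _).2 ((mem_GG _ _).1 h1).2.1)
  show C.β ν (C.act (ofZ (γ * δ)) y) = C.β ν (C.act (ofZ γ) y)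
  rw [h2, act_ofZ, h3]

/-- The twist by `q` modulo `P`. -/
theorem twist (av : AvFacts) (q e P : ℕ) (hc : q.Coprime P) : ∃ ψ : SZ → SZ,
    (∀ (γ : SZ) (N : ℕ), N ∣ q ^ e * P → γ ∈ Gamma0 N → ψ γ ∈ Gamma0 N) ∧
    (∀ γ γ' : SZ, (ψ γ)⁻¹ * ψ γ' ∈ Gamma (q ^ e * P) → γ⁻¹ * γ' ∈ Gamma (q ^ e * P)) ∧
    ∀ γ : SZ, (P : ℤ) ∣ γ 1 0 * ψ γ 1 1 - q * γ 1 1 * ψ γ 1 0 := by
  have hc' : IsCoprime (q : ℤ) (P : ℤ) := Nat.isCoprime_iff_coprime.2 hc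
  have h1 : IsCoprime ((q : ℤ) + P) ((q ^ e * P : ℕ) : ℤ) := by
    push_cast
    refine IsCoprime.mul_right (IsCoprime.pow_right ?_) ?_
    · have := hc'.symm.mul_add_right_left 1
      rwa [one_mul] at this
    · have := hc'.add_mul_right_left 1
      rwa [one_mul] at this
  obtain ⟨w, t, hw⟩ := h1
  have h2 : ∀ γ : SZ, γ 0 0 * γ 1 1 - γ 0 1 * ((q : ℤ) + P) * (γ 1 0 * w) ≡ 1
      [ZMOD (q ^ e * P : ℕ)] := fun γ => by
    rw [Int.modEq_iff_dvd]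
    exact ⟨-(γ 0 1 * γ 1 0 * t), by linear_combination -detZ γ + γ 0 1 * γ 1 0 * hw⟩
  choose ψ h00 h01 h10 h11 using fun γ => av.lift _ _ _ _ _ (h2 γ)
  have hw' : (w : ZMod (q ^ e * P)) * (((q : ℤ) + P : ℤ) : ZMod (q ^ e * P)) = 1 := by
    have := congrArg (fun z : ℤ => (z : ZMod (q ^ e * P))) hw
    simp only [Int.cast_add, Int.cast_mul, Int.cast_natCast, ZMod.natCast_self, mul_zero,
      add_zero, Int.cast_one] at this
    simpa using this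
  refine ⟨ψ, fun γ N hN hγ => ?_, fun γ γ' h => ?_, fun γ => ?_⟩
  · rw [mem_G0] at hγ ⊢
    have h3 := (Int.natCast_dvd_natCast.2 hN).trans (h10 γ).dvd
    have e1 : ψ γ 1 0 = γ 1 0 * w - (γ 1 0 * w - ψ γ 1 0) := by ring
    rw [e1]
    exact dvd_sub (hγ.mul_right _) h3
  · rw [mem_iff] at h ⊢
    simp only [← ZMod.intCast_eq_intCast_iff] at h00 h01 h10 h11
    rw [h00, h00, h01, h01, h10, h10, h11, h11] at h
    obtain ⟨g0, g1, g2, g3⟩ := h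
    rw [Int.cast_mul, Int.cast_mul] at g1 g2
    refine ⟨g0, ?_, ?_, g3⟩
    · linear_combination (w : ZMod (q ^ e * P)) * g1 -
        (((γ 0 1 : ℤ) : ZMod (q ^ e * P)) - (γ' 0 1 : ℤ)) * hw'
    · linear_combination (((q : ℤ) + P : ℤ) : ZMod (q ^ e * P)) * g2 -
        (((γ 1 0 : ℤ) : ZMod (q ^ e * P)) - (γ' 1 0 : ℤ)) * hw'
  · obtain ⟨k, hk⟩ := (h10 γ).dvd
    obtain ⟨l, hl⟩ := (h11 γ).dvd
    push_cast at hk hl hw
    exact ⟨γ 1 0 * γ 1 1 * (w + t * q ^ e) - γ 1 0 * q ^ e * l + q * γ 1 1 * q ^ e * k, by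
      linear_combination -(γ 1 0) * hl + q * γ 1 1 * hk - γ 1 0 * γ 1 1 * hw⟩

end TRX

open TRX in
theorem rTR : OfTR := by
  intro hHK hPER V _ _ C hC N D y hN hD hy
  have hL : 0 < N * D := Nat.mul_pos hN hD
  obtain ⟨s, hs, hH, -, -, hAv⟩ := hC.av.fin (Gamma0 N) (N * D) hL
  have hc : (s.card : ℂ) ≠ 0 := by exact_mod_cast hs.card_pos.ne'
  have hr : (s.card : ℝ)⁻¹ ≠ 0 := inv_ne_zero (by exact_mod_cast hs.card_pos.ne')
  have key : ∀ (ν : ℚ) (ψ : SZ → SZ), (∀ γ ∈ Gamma0 N, ψ γ ∈ Gamma0 N) →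
      (∀ γ γ', (ψ γ)⁻¹ * ψ γ' ∈ Gamma (N * D) → γ⁻¹ * γ' ∈ Gamma (N * D)) →
      ∑ γ ∈ s, C.β ν (C.act (ofZ (ψ γ)) y) = ∑ γ ∈ s, C.β ν (C.act (ofZ γ) y) := by
    intro ν ψ h1 h2
    have h3 := hC.av.perm ℂ (Gamma0 N) (N * D) _ ψ hL (lev hy ν) h1 fun γ _ γ' _ => h2 γ γ'
    rw [hAv, hAv] at h3
    exact smul_right_injective ℂ hr h3
  have hβ : ∀ ν, C.β ν ((s.card : ℂ)⁻¹ • ∑ γ ∈ s, C.act (ofZ γ) y) =
      (s.card : ℂ)⁻¹ * ∑ γ ∈ s, C.β ν (C.act (ofZ γ) y) := fun ν => by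
    rw [map_smul, map_sum, smul_eq_mul]
  refine ⟨(s.card : ℂ)⁻¹ • ∑ γ ∈ s, C.act (ofZ γ) y, fix0_iff.1 fun δ hδ => ?_,
    fun q lam hq hqD hrel n => ?_, fun hrat ν => ?_, fun Λ hp => ?_, fun x hx => ?_⟩
  · refine sub_eq_zero.1 (C.β_inj _ fun ν => ?_)
    rw [map_sub, hβ, map_smul, map_sum, map_smul, map_sum, smul_eq_mul,
      ← key ν (fun γ => γ * δ) (fun γ hγ => mul_mem hγ hδ) fun γ γ' h => ?_]
    · simp only [act_ofZ, sub_self]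
    · have h1 := (Gamma_normal (N * D)).conj_mem _ h δ
      have h2 : δ * ((γ * δ)⁻¹ * (γ' * δ)) * δ⁻¹ = γ⁻¹ * γ' := by group
      rwa [h2] at h1
  · obtain ⟨e, P, hP, hE⟩ := Nat.exists_eq_pow_mul_and_not_dvd hL.ne' q hq.ne_one
    have hP0 : 0 < P := Nat.pos_of_ne_zero fun h => hP (h ▸ dvd_zero q)
    have hqD' : q.Coprime D := (Nat.Prime.coprime_iff_not_dvd hq).2 hqD
    have heN : q ^ e ∣ N := (Nat.Coprime.pow_left e hqD').dvd_of_dvd_mul_right ⟨P, hE⟩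
    have hiff : e = 0 ↔ ¬q ∣ N := by
      refine ⟨fun h h' => hP ?_, fun h => ?_⟩
      · rw [h, pow_zero, one_mul] at hE
        exact hE ▸ h'.mul_right D
      · by_contra h0
        exact h ((dvd_pow_self q h0).trans heN)
    obtain ⟨ψ, p1, p2, p3⟩ := twist hC.av q e P ((Nat.Prime.coprime_iff_not_dvd hq).2 hP)
    rw [← hE] at p1 p2
    have p1' : ∀ γ ∈ Gamma0 N, ψ γ ∈ Gamma0 N := fun γ => p1 γ N (dvd_mul_right N D)
    have hE' : N * D = q ^ e * (P * 1) := by rw [mul_one, hE]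
    have hd : ∀ γ ∈ Gamma0 N, (q : ℤ) ^ e ∣ γ 1 0 := fun γ hγ =>
      (by exact_mod_cast heN : (q : ℤ) ^ e ∣ (N : ℤ)).trans ((mem_G0 _ _).1 hγ)
    have hrel' : Rel C (q ^ e * (P * 1)) q lam y := by
      rw [← hE']
      exact hrel.lev ⟨fun h => h.mul_right D, fun h => hqD'.dvd_of_dvd_mul_right h⟩
    have one : ∀ γ ∈ s, lam * C.β n (C.act (ofZ (ψ γ)) y) = C.β (q * n) (C.act (ofZ γ) y) +
        if e = 0 then q * C.β (n / q) (C.act (ofZ (ψ (ψ γ))) y) else 0 := fun γ hγ => by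
      have h1 := hHK V C hC q e P 1 lam y hq hP0 one_pos (by rwa [mul_one]) (hE' ▸ hy) hrel'
        _ _ _ _ _ _ _ _ _ _ _ _ (detZ γ) (detZ (ψ γ)) (detZ (ψ (ψ γ))) (hd γ (hH γ hγ))
        (hd _ (p1' γ (hH γ hγ))) ⟨p3 γ, by simp⟩ (fun _ => ⟨p3 (ψ γ), by simp⟩) n (n * P)
        (by push_cast; ring)
      rw [Nat.cast_one, div_one, Vd_one] at h1
      exact h1
    have h4 := sum_congr rfl one
    rw [← mul_sum, key n ψ p1' p2, sum_add_distrib] at h4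
    have h5 := key (n / q) (fun γ => ψ (ψ γ)) (fun γ hγ => p1' _ (p1' γ hγ))
      fun γ γ' h => p2 _ _ (p2 _ _ h)
    rw [hβ, hβ, hβ]
    by_cases h0 : e = 0
    · simp only [if_pos h0] at h4
      rw [← mul_sum, h5] at h4
      rw [if_neg (hiff.1 h0)]
      linear_combination (s.card : ℂ)⁻¹ * h4
    · simp only [if_neg h0, sum_const_zero] at h4
      rw [if_pos (not_not.1 fun h => h0 (hiff.2 h))]
      linear_combination (s.card : ℂ)⁻¹ * h4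
  · obtain ⟨r, hr'⟩ := hC.gal1 y (N * D) N ν hL (dvd_mul_right N D) (fix0_iff.2 hy) hrat
    rw [hAv, Complex.real_smul] at hr'
    refine ⟨r, ?_⟩
    rw [hβ, ← hr']
    push_cast
    rfl
  · obtain ⟨q0, q1, q2, q3, -⟩ := hPER V C hC Λ
    have h1 := q2 _ (s.card : ℚ)⁻¹ (sum_induction (fun γ => C.act (ofZ γ) y) (PerL C Λ) q1 q0
      (s := s) fun γ _ => q3 y _ (by simp) hp)
    push_cast at h1
    exact h1
  · rw [inner_smul_left, sum_inner,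
      sum_congr rfl fun γ hγ => inner_fix (by simp) y (fix0_iff.2 hx γ (hH γ hγ))]
    simp only [sum_const, nsmul_eq_mul, map_inv₀, map_natCast]
    rw [inv_mul_cancel_left₀ hc]

end Pool.Agent.MP_b2c033_nt.UN
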