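import Pool.Agent.MP_b2c033_nt.UN.Spec

/-!
Explicit traces from level `p N` to level `N`.
-/

set_option autoImplicit false

noncomputable section

namespace Pool.Agent.MP_b2c033_nt.UN

open U Finset CongruenceSubgroup

namespace TXX

variable {V : Type} [NormedAddCommGroup V] [InnerProductSpace ℂ V] {C : CS V}

theorem act_mul' (x y : SZ) (f : V) :
    C.act (ofZ (x * y)) f = C.act (ofZ y) (C.act (ofZ x) f) := by
  rw [ofZ_mul, C.act_mul _ _ _ (by simp) (by simp)]

/-- The sum over a family of representatives. -/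
theorem tr {H K : Subgroup SZ} {f : V} (hf : C.Fix H f) {I : Type} [Fintype I] (r : I → SZ)
    (mem : ∀ i, r i ∈ K) (cov : ∀ γ ∈ K, ∃ i, γ * (r i)⁻¹ ∈ H)
    (inj : ∀ i j, r i * (r j)⁻¹ ∈ H → i = j) : C.Fix K (∑ i, C.act (ofZ (r i)) f) := by
  intro γ hγ
  choose j hj using fun i => cov _ (mul_mem (mem i) hγ)
  rw [map_sum]
  refine sum_reps _ _ j (fun i i' e => inj _ _ ?_) fun i => ?_
  · have := mul_mem (hj i) (inv_mem (hj i'))
    rwa [e, show r i * γ * (r (j i'))⁻¹ * (r i' * γ * (r (j i'))⁻¹)⁻¹ = r i * (r i')⁻¹ by group]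
      at this
  · rw [← act_mul', ← inv_mul_cancel_right (r i * γ) (r (j i)), act_mul', hf _ (hj i)]

theorem ent (x y : SZ) : (x * y⁻¹) 1 0 = x 1 0 * y 1 1 - x 1 1 * y 1 0 := by
  simp [Matrix.SpecialLinearGroup.coe_inv, Matrix.adjugate_fin_two, Matrix.mul_apply,
    Fin.sum_univ_two, sub_eq_add_neg]

theorem ex_t {p : ℕ} (hp : p.Prime) (x y : ℤ) (hx : ¬(p : ℤ) ∣ x) :
    ∃ t : Fin p, (p : ℤ) ∣ x * (t : ℕ) - y := by
  have := Fact.mk hp
  refine ⟨⟨((y : ZMod p) / x).val, ZMod.val_lt _⟩, ?_⟩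
  rw [← ZMod.intCast_zmod_eq_zero_iff_dvd] at hx ⊢
  push_cast
  rw [ZMod.natCast_zmod_val, mul_div_cancel₀ _ hx, sub_self]

theorem fin_eq {p : ℕ} {s t : Fin p} (h : (p : ℤ) ∣ (s : ℕ) - (t : ℕ)) : s = t := by
  have := s.2
  have := t.2
  have := Int.eq_zero_of_abs_lt_dvd h (abs_lt.2 ⟨by omega, by omega⟩)
  exact Fin.ext (by omega)

theorem ndvd {p : ℕ} (hp : p.Prime) {a b c d : ℤ} (h : a * d - b * c = 1) (h1 : (p : ℤ) ∣ c)
    (h2 : (p : ℤ) ∣ d) : False :=
  (Nat.prime_iff_prime_int.1 hp).not_dvd_one (h ▸ dvd_sub (h2.mul_left a) (h1.mul_left b))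

end TXX

open TXX in
theorem rTX : STX := by
  intro V _ _ C _ p N f hp hf
  have pp := Nat.prime_iff_prime_int.1 hp
  refine ⟨fun hN => ?_, fun hN a b c d h1 h2 h3 => ?_⟩
  · rcases N.eq_zero_or_pos with rfl | N0
    · intro a b c d h1 h2
      have e : ∀ t : ℕ, C.act (Lw (t * ((0 : ℕ) : ℚ))) f = f := fun t => by
        rw [Nat.cast_zero, mul_zero]
        exact act_one f
      rw [Ls_apply, map_sum]
      exact sum_congr rfl fun t _ => by rw [e, hf a b c d h1 h2]
    have n0 : (N : ℤ) ≠ 0 := by exact_mod_cast N0.ne'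
    have k := tr (K := Gamma0 N) (fix0_iff.2 hf)
      (fun t : Fin p => mkZ 1 0 ((t : ℕ) * N) 1 (by ring))
      (fun t => (mem_G0 _ _).2 (by simp)) (fun γ hγ => by
        obtain ⟨c, hc⟩ := (mem_G0 _ _).1 hγ
        obtain ⟨t, s, ht⟩ := ex_t hp (γ 1 1) c fun q =>
          ndvd hp (detZ γ) ((Int.natCast_dvd_natCast.2 hN).trans ⟨c, hc⟩) q
        refine ⟨t, (mem_G0 _ _).2 ⟨-s, ?_⟩⟩
        rw [ent, mkZ_11, mkZ_10, hc]
        push_cast
        linear_combination -(N : ℤ) * ht) fun s t h => by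
        rw [mem_G0, ent, mkZ_11, mkZ_10, mkZ_11, mkZ_10, Nat.cast_mul, mul_one, one_mul,
          ← sub_mul] at h
        exact fin_eq ((mul_dvd_mul_iff_right n0).1 h)
    rw [Ls_apply, sum_range]
    refine fix0_iff.1 (Eq.subst (motive := C.Fix _) (sum_congr rfl fun t _ => ?_) k)
    exact congrArg (fun x => C.act x f) (by ext <;> simp [ofZ, Lw])
  · have pc : ¬(p : ℤ) ∣ c := fun q => ndvd hp h1 q h3
    have cop : IsCoprime (p : ℤ) N :=
      Nat.isCoprime_iff_coprime.2 ((Nat.Prime.coprime_iff_not_dvd hp).2 hN)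
    have pd : ∀ {z : ℤ}, ((p * N : ℕ) : ℤ) ∣ z → (p : ℤ) ∣ z := fun q =>
      (Int.natCast_dvd_natCast.2 (dvd_mul_right p N)).trans q
    have k := tr (K := Gamma0 N) (fix0_iff.2 hf)
      (fun o : Option (Fin p) => o.elim 1 fun t =>
        mkZ a (a * (t : ℕ) + b) c (c * (t : ℕ) + d) (by linear_combination h1))
      (fun o => by
        cases o
        · exact one_mem _
        · exact (mem_G0 _ _).2 h2) (fun γ hγ => by
        have hc := (mem_G0 _ _).1 hγ
        by_cases q : (p : ℤ) ∣ γ 1 0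
        · refine ⟨none, ?_⟩
          rw [Option.elim_none, inv_one, mul_one, mem_G0, Nat.cast_mul]
          exact cop.mul_dvd q hc
        · obtain ⟨t, ht⟩ := ex_t hp (γ 1 0) (γ 1 1) q
          refine ⟨some t, ?_⟩
          rw [Option.elim_some, mem_G0, ent, mkZ_11, mkZ_10, Nat.cast_mul]
          refine cop.mul_dvd ?_ (dvd_sub (hc.mul_right _) (h2.mul_left _))
          rw [show γ 1 0 * (c * (t : ℕ) + d) - γ 1 1 * c =
            (γ 1 0 * (t : ℕ) - γ 1 1) * c + γ 1 0 * d by ring]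
          exact dvd_add (ht.mul_right _) (h3.mul_left _)) fun o o' h => by
        rw [mem_G0, ent] at h
        replace h := pd h
        rcases o with _ | s <;> rcases o' with _ | t
        · rfl
        · exact absurd (by simpa using h) pc
        · exact absurd (by simpa using h) pc
        · rw [Option.elim_some, Option.elim_some, mkZ_11, mkZ_10, mkZ_11, mkZ_10,
            show c * (c * (t : ℕ) + d) - (c * (s : ℕ) + d) * c =
              c * (c * ((t : ℕ) - (s : ℕ))) by ring] at h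
          rw [fin_eq ((pp.dvd_mul.1 ((pp.dvd_mul.1 h).resolve_left pc)).resolve_left pc)]
    have p0 : (0 : ℚ) < p := by exact_mod_cast hp.pos
    rw [Fintype.sum_option, Option.elim_none, ofZ_one, act_one, add_comm] at k
    rw [Up_apply, sum_range]
    refine fix0_iff.1 (Eq.subst (motive := fun x => C.Fix _ (x + f))
      (sum_congr rfl fun t _ => ?_) k)
    rw [up_eq hp.pos, Vd_Vd p0 (by positivity), mul_one_div_cancel p0.ne', Vd_one,
      act_act (det_zm_pos h1) (by simp)]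
    exact congrArg (fun x => C.act x f) (by ext <;> simp [ofZ, Tr, zm])

end Pool.Agent.MP_b2c033_nt.UN
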