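import Pool.Agent.MP_b2c033_nt.UN.Bridge
import Pool.Agent.MP_b2c033_nt.UN.RHK
import Pool.Agent.MP_b2c033_nt.UN.RHE
import Pool.Agent.MP_b2c033_nt.UN.RTX
import Pool.Agent.MP_b2c033_nt.UN.RSUP
import Pool.Agent.MP_b2c033_nt.UN.RST
import Pool.Agent.MP_b2c033_nt.UN.RSTR
import Pool.Agent.MP_b2c033_nt.UN.RS1
import Pool.Agent.MP_b2c033_nt.UN.RPER
import Pool.Agent.MP_b2c033_nt.UN.RTR
import Pool.Agent.MP_b2c033_nt.UN.RF0
import Pool.Agent.MP_b2c033_nt.UN.RNEW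
import Pool.Agent.MP_b2c033_nt.UN.RAL
import Pool.Agent.MP_b2c033_nt.UN.RLOC
import Pool.Agent.MP_b2c033_nt.UN.RCMP
import Pool.Agent.MP_b2c033_nt.UN.RHYP
import Pool.Agent.MP_b2c033_nt.UN.RDQ

/-!
One-prime newform theory: the block.
-/

namespace Pool.Agent.MP_b2c033_nt.UN

theorem aS1 : SS1 := rS1 rSUP rHE (rSTR rST rHE)

theorem aTR : STR := rTR rHK rPER

theorem aN : SN :=
  sn_of aS1 (rF0 rHE rPER) (rNEW rSUP rHE rPER aTR) (rLOC rHE rTX aTR (rAL rSUP rHK))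
    (rCMP rPER aS1) (rHYP rSUP) rDQ

end Pool.Agent.MP_b2c033_nt.UN

namespace Pool.Agent.MP_b2c033_nt.U

theorem s_New : S_New := UN.s_New_of UN.aN

end Pool.Agent.MP_b2c033_nt.U
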