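import Pool.Agent.MP_b2c033_nt.UN.Spec

/-!
Multiplicativity of the coefficients at all cusps.
-/

set_option autoImplicit false

noncomputable section

namespace Pool.Agent.MP_b2c033_nt.UN

open U Finset
open scoped InnerProductSpace

namespace MUX

variable {V : Type} [NormedAddCommGroup V] [InnerProductSpace ℂ V] {C : CS V} {g : V}

theorem fixh {N r : ℕ} (h : G0 C N g) (r0 : 0 < r) {a b c d : ℤ} (h1 : a * d - b * c = 1)
    (hb : (r : ℤ) ∣ b) (hc : (N : ℤ) ∣ c) :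
    C.act (zm a b c d) (C.act (Vd (1 / r)) g) = C.act (Vd (1 / r)) g := by
  obtain ⟨b, rfl⟩ := hb
  have r1 : (0 : ℚ) < r := by exact_mod_cast r0
  have h2 : a * d - b * (c * r) = 1 := by linear_combination h1
  rw [act_comm (x' := zm a b (c * r) d) (y' := Vd (1 / r)) 1 one_ne_zero (by simpa)
    (det_zm_pos h1) (det_zm_pos h2) (by simpa) (by ext <;> simp [zm, Vd, r1.ne', mul_comm]) g,
    h _ _ _ _ h2 (hc.mul_right _)]

theorem same {N r : ℕ} (h : G0 C N g) (r0 : 0 < r) {a b c d a' b' c' d' : ℤ}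
    (h1 : a * d - b * c = 1) (h2 : a' * d' - b' * c' = 1) (hb : (r : ℤ) ∣ b * a' - a * b')
    (hc : (N : ℤ) ∣ c * d' - d * c') :
    C.act (zm a b c d) (C.act (Vd (1 / r)) g) = C.act (zm a' b' c' d') (C.act (Vd (1 / r)) g) := by
  have h3 : (a * d' - b * c') * (d * a' - c * b') - (b * a' - a * b') * (c * d' - d * c') = 1 := by
    linear_combination (a' * d' - b' * c') * h1 + h2
  have e : zm a b c d = zm (a * d' - b * c') (b * a' - a * b') (c * d' - d * c') (d * a' - c * b') *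
      zm a' b' c' d' := by
    rw [zm_mul]
    congr 1
    · linear_combination (-a) * h2
    · linear_combination (-b) * h2
    · linear_combination (-c) * h2
    · linear_combination (-d) * h2
  rw [e, C.act_mul _ _ _ (det_zm_pos h3) (det_zm_pos h2), fixh h r0 h3 hb hc]

theorem ex_tw (av : AvFacts) {N₁ N₂ q : ℕ} (hq : q.Coprime N₂) (γ : SZ) (hc : (N₁ : ℤ) ∣ γ 1 0) :
    ∃ δ : SZ, (N₁ : ℤ) ∣ δ 1 0 ∧ Tw N₂ q γ δ := by
  obtain ⟨u, v, huv⟩ := Nat.isCoprime_iff_coprime.2 hq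
  obtain ⟨k, hk⟩ := hc
  obtain ⟨δ, h1, h2, h3, h4⟩ := av.lift (N₁ * N₂) (γ 0 0) (γ 0 1 * q) (γ 1 0 * u) (γ 1 1)
    (Int.modEq_iff_dvd.2 ⟨-(γ 0 1 * k * v), by
      push_cast
      linear_combination (-1) * detZ γ + γ 0 1 * γ 1 0 * huv - γ 0 1 * v * N₂ * hk⟩)
  have d1 : (N₁ : ℤ) ∣ (N₁ * N₂ : ℕ) := by exact_mod_cast dvd_mul_right N₁ N₂
  have d2 : (N₂ : ℤ) ∣ (N₁ * N₂ : ℕ) := by exact_mod_cast dvd_mul_left N₂ N₁
  refine ⟨δ, ((h3.of_dvd d1).dvd_iff).2 (Dvd.dvd.mul_right ⟨k, hk⟩ _), h1.of_dvd d2, h2.of_dvd d2,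
    ((h3.of_dvd d2).mul_right _).trans (Int.modEq_iff_dvd.2 ⟨γ 1 0 * v, ?_⟩), h4.of_dvd d2⟩
  linear_combination (-γ 1 0) * huv

theorem tw_div {L q m : ℕ} (hq : q.Coprime L) {γ δ γ' : SZ} (h1 : Tw L q γ δ)
    (h2 : Tw L (q * m : ℕ) γ γ') : Tw L m δ γ' := by
  obtain ⟨a1, a2, a3, a4⟩ := h1
  obtain ⟨b1, b2, b3, b4⟩ := h2
  push_cast at b2 b3
  refine ⟨b1.trans a1.symm, b2.trans ?_, ?_, b4.trans a4.symm⟩
  · rw [← mul_assoc]
    exact a2.symm.mul_right _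
  · refine Int.modEq_iff_dvd.2 ((Nat.isCoprime_iff_coprime.2 hq.symm).dvd_of_dvd_mul_left ?_)
    have := (b3.trans a3.symm).dvd
    rwa [show δ 1 0 * q - γ' 1 0 * (q * m) = q * (δ 1 0 - γ' 1 0 * m) by ring] at this

theorem tw_dvd {N₁ N₂ : ℕ} {q : ℤ} (hN : N₁.Coprime N₂) {γ δ : SZ} (h1 : (N₁ : ℤ) ∣ γ 1 0)
    (h2 : (N₁ : ℤ) ∣ δ 1 0) (h : Tw N₂ q γ δ) :
    ((N₁ * N₂ : ℕ) : ℤ) ∣ γ 1 0 * δ 1 1 - q * γ 1 1 * δ 1 0 ∧
      (N₂ : ℤ) ∣ q * γ 0 1 * δ 0 0 - γ 0 0 * δ 0 1 := by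
  obtain ⟨a1, a2, a3, a4⟩ := h
  refine ⟨?_, ?_⟩
  · rw [Nat.cast_mul]
    refine (Nat.isCoprime_iff_coprime.2 hN).mul_dvd
      (dvd_sub (h1.mul_right _) (h2.mul_left _)) ?_
    have := (a3.mul a4.symm).dvd
    rwa [show δ 1 0 * q * γ 1 1 = q * γ 1 1 * δ 1 0 by ring] at this
  · have := (a1.symm.mul a2).dvd
    rwa [show δ 0 0 * (γ 0 1 * q) = q * γ 0 1 * δ 0 0 by ring] at this

end MUX

open MUX in
theorem rMU : OfMU := by
  intro hk V _ _ C hC N g lam N0 hg h1 hr N₁ N₂ r m n hN cop hrN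
  have N2 : 0 < N₂ := Nat.pos_of_mul_pos_left (hN ▸ N0)
  have N1 : N₁ ≠ 0 := fun e => by simp [hN, e] at N0
  have r0 : 0 < r := Nat.pos_of_dvd_of_pos hrN N2
  have rz : (r : ℤ) ∣ N₂ := Int.natCast_dvd_natCast.2 hrN
  have N2' : (N₂ : ℚ) ≠ 0 := by exact_mod_cast N2.ne'
  induction m using Nat.strong_induction_on with
  | _ m ih =>
  intro c1 c2 γ γ' d1 d2 tw
  rcases Nat.eq_zero_or_pos m with rfl | m0
  · rw [β_zero, zero_mul]
    exact C.β_neg _ _ (by simp)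
  by_cases m1 : m = 1
  · subst m1
    obtain ⟨k1, k2⟩ := tw_dvd cop d1 d2 tw
    rw [Nat.cast_one, one_mul] at k1 k2
    rw [Nat.cast_one, one_mul, h1, one_mul, ofZ_eq, ofZ_eq,
      same hg r0 (detZ γ) (detZ γ') (rz.trans k2) (hN ▸ k1)]
  obtain ⟨q, hq, k, rfl⟩ := Nat.exists_prime_and_dvd m1
  have k0 : 0 < k := Nat.pos_of_mul_pos_left m0
  have lt : k < q * k := lt_mul_left k0 hq.one_lt
  have qN : q.Coprime N₂ := Nat.Coprime.coprime_mul_right c1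
  have qn : q.Coprime n := Nat.Coprime.coprime_mul_right c2
  have kN : k.Coprime N₂ := Nat.Coprime.coprime_mul_left c1
  have kn : k.Coprime n := Nat.Coprime.coprime_mul_left c2
  have q' : (q : ℚ) ≠ 0 := by exact_mod_cast hq.ne_zero
  obtain ⟨γ₁, e1, t1⟩ := ex_tw hC.av qN γ d1
  obtain ⟨γ₂, e2, t2⟩ := ex_tw hC.av qN γ₁ e1
  have t3 := tw_div qN t1 tw
  obtain ⟨e, M, hM, hNM⟩ := Nat.exists_eq_pow_mul_and_not_dvd N1 q hq.ne_one
  obtain ⟨P, hP⟩ := hrN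
  have eN : N = q ^ e * (M * P * r) := by rw [hN, hNM, hP]; ring
  have nd : ¬q ∣ M * P * r := by
    rw [mul_assoc, mul_comm P r, ← hP]
    exact fun h => (hq.dvd_mul.1 h).elim hM (hq.coprime_iff_not_dvd.1 qN)
  have MP : ((M * P : ℕ) : ℤ) ∣ (N₁ * N₂ : ℕ) :=
    Int.natCast_dvd_natCast.2 ⟨q ^ e * r, by rw [← hN, eN]; ring⟩
  have qe : (q : ℤ) ^ e ∣ N₁ := by exact_mod_cast Dvd.intro _ hNM.symm
  have MP0 : 0 < M * P := Nat.pos_of_ne_zero fun h => nd (by rw [h, zero_mul]; exact dvd_zero _)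
  obtain ⟨k1, k2⟩ := tw_dvd cop d1 e1 t1
  obtain ⟨k3, k4⟩ := tw_dvd cop e1 e2 t2
  have H := hk V C hC q e (M * P) r (lam q) g hq MP0 r0 nd (eN ▸ hg) (eN ▸ hr q hq)
    _ _ _ _ _ _ _ _ _ _ _ _ (detZ γ) (detZ γ₁) (detZ γ₂) (qe.trans d1) (qe.trans e1)
    ⟨MP.trans k1, rz.trans k2⟩ (fun _ => ⟨MP.trans k3, rz.trans k4⟩) (k * n / N₂) (k * n * M) (by
      rw [div_mul_eq_mul_div, div_eq_iff N2', hP]
      push_cast
      ring)
  rw [← ofZ_eq, ← ofZ_eq, ← ofZ_eq, ih k lt kN kn γ₁ γ' e1 d2 t3] at H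
  have third : C.β (k * n / N₂ / q) (C.act (ofZ γ₂) (C.act (Vd (1 / r)) g)) =
      C.β (k / q) g * C.β (n / N₂) (C.act (ofZ γ') (C.act (Vd (1 / r)) g)) := by
    by_cases hd : q ∣ k
    · obtain ⟨j, rfl⟩ := hd
      have a1 : ((q * j : ℕ) : ℚ) * n / N₂ / q = j * n / N₂ := by push_cast; field_simp
      have a2 : ((q * j : ℕ) : ℚ) / q = j := by push_cast; field_simp
      rw [a1, a2]
      exact ih j ((Nat.le_mul_of_pos_left j hq.pos).trans_lt lt) (Nat.Coprime.coprime_mul_left kN)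
        (Nat.Coprime.coprime_mul_left kn) γ₂ γ' e2 d2 (tw_div qN t2 t3)
    · rw [hg.t1.β_div hq.pos hd, zero_mul]
      refine β_fix (x := N₂) ?_ ?_
      · have a1 : ofZ γ₂ * Tr N₂ =
            zm (γ₂ 0 0) (γ₂ 0 0 * N₂ + γ₂ 0 1) (γ₂ 1 0) (γ₂ 1 0 * N₂ + γ₂ 1 1) := by
          ext <;> simp [ofZ, Tr, zm]
        rw [act_act (by simp) (by simp), a1, ofZ_eq]
        refine same hg r0 (by linear_combination detZ γ₂) (detZ γ₂)
          (rz.trans ⟨γ₂ 0 0 ^ 2, by ring⟩) ?_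
        obtain ⟨y, hy⟩ := e2
        exact ⟨-(y * γ₂ 1 0), by rw [hN]; push_cast; linear_combination (-N₂ * γ₂ 1 0) * hy⟩
      · rintro ⟨z, hz⟩
        have a1 : ((k * n : ℕ) : ℚ) = q * z := by
          rw [← hz]
          push_cast
          field_simp
        have a2 : (q : ℤ) ∣ (k * n : ℕ) := ⟨z, by exact_mod_cast a1⟩
        exact hd (qn.dvd_of_dvd_mul_right (Int.natCast_dvd_natCast.1 a2))
  have R := hr q hq k
  have iff : e = 0 ↔ ¬q ∣ N := by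
    refine ⟨fun h => by rwa [eN, h, pow_zero, one_mul], fun h => by_contra fun h' => h ?_⟩
    exact eN ▸ (dvd_pow_self q h').mul_right _
  rw [third] at H
  rw [show ((q * k : ℕ) : ℚ) * n / N₂ = q * (k * n / N₂) by push_cast; ring, Nat.cast_mul]
  by_cases h0 : q ∣ N
  · rw [if_neg (fun h => iff.1 h h0)] at H
    rw [if_pos h0] at R
    linear_combination C.β (n / N₂) (C.act (ofZ γ') (C.act (Vd (1 / r)) g)) * R - H
  · rw [if_pos (iff.2 h0)] at H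
    rw [if_neg h0] at R
    linear_combination C.β (n / N₂) (C.act (ofZ γ') (C.act (Vd (1 / r)) g)) * R - H

end Pool.Agent.MP_b2c033_nt.UN
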