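import Pool.Agent.MP_b2c033_nt.UN.Bridge
import Pool.Agent.MP_b2c033_nt.UN.RHK
import Pool.Agent.MP_b2c033_nt.UN.RMU

/-!
Multiplicativity of the coefficients of a newform at all cusps.
-/

namespace Pool.Agent.MP_b2c033_nt.UN

theorem aMU : SMU := rMU rHK

end Pool.Agent.MP_b2c033_nt.UN
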