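import Pool.Agent.MP_b2c033_nt.UN.Spec
import Pool.Agent.MP_b2c033_nt.U.Spec

/-!
One-prime newform theory: assembly of the steps and passage to the shared statements.
-/

set_option autoImplicit false

noncomputable section

namespace Pool.Agent.MP_b2c033_nt.UN

open U Finset CongruenceSubgroup
open scoped InnerProductSpace

variable {V : Type} [NormedAddCommGroup V] [InnerProductSpace ℂ V] {C : CS V}

theorem Rel.dep {N p : ℕ} {g : V} (h : Rel C N p 0 g) (hp : p ∣ N) : Dep C p g := by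
  rintro n ⟨m, rfl⟩
  have := h m
  rw [if_pos hp, zero_mul, add_zero] at this
  rw [Nat.cast_mul, ← this]

theorem sn_of (hS1 : SS1) (hF0 : SF0) (hNEW : SNEW) (hLOC : SLOC) (hCMP : SCMP) (hHYP : SHYP)
    (hDQ : SDQ) : SN := by
  classical
  intro V _ _ C hC E M F hE hM hF h1 hr hp
  have hon := hE.hon M F hM h1 hr hp
  have s1 := hS1 V C hC E M F hM hF h1 hon
  have pl : PerL C E.Λ F := ⟨M, 1, hM, one_pos, h1.gg, fun a b c d h _ h3 h4 => by
    simpa using hp a b c d h h3 h4⟩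
  obtain ⟨N, g, lam, cl, eig⟩ := hNEW V C hC E M (hF0 V C hC E M F hM hF s1 hr pl)
  have loc := hLOC V C hC N g lam eig
  have cmp := hCMP V C hC E N g lam hE eig loc cl.rat cl.per
  refine ⟨N, g, lam, eig, loc, cmp, ?_⟩
  have hlev : ∀ l : List ℕ, (∀ p ∈ l, p.Prime) →
      ∃ K, 0 < K ∧ G0 C K (l.foldr (fun p x => E.Q C p x) F) := by
    intro l
    induction l with
    | nil => exact fun _ => ⟨M, hM, s1.lev⟩
    | cons p l ih =>
      intro hl
      obtain ⟨K, hK, h⟩ := ih fun q hq => hl q (List.mem_cons_of_mem _ hq)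
      have hp := (hl p List.mem_cons_self).pos
      exact ⟨K * p ^ 2, by positivity, h.qq _ _ hp⟩
  have key : ∀ l : List ℕ, (∀ p ∈ l, p.Prime ∧ E.Hy N p) → ∀ k : ℕ, 0 < k →
      (∃ Y ∈ Zs C g, l.foldr (fun p x => E.Q C p x) F = (k : ℂ) • Y) →
      ∃ Y ∈ Zs C g, F = ((k * l.prod : ℕ) : ℂ) • Y := by
    intro l
    induction l with
    | nil => exact fun _ k _ h => by simpa using h
    | cons p l ih =>
      rintro hl k hk ⟨Y, hY, he⟩
      obtain ⟨hp, ⟨N₂, hN₂⟩, hh⟩ := hl p List.mem_cons_self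
      have hl' : ∀ q ∈ l, q.Prime ∧ E.Hy N q := fun q hq => hl q (List.mem_cons_of_mem _ hq)
      obtain ⟨K, hK, hG⟩ := hlev l fun q hq => (hl' q hq).1
      have hk' : (k : ℂ) ≠ 0 := by exact_mod_cast hk.ne'
      have hN : N = p * (p * N₂) := by rw [hN₂]; ring
      have hpos : 0 < p * N₂ := Nat.pos_of_mul_pos_left (hN ▸ eig.pos)
      obtain ⟨h0, hL⟩ := loc.e2 p _ hp hN (dvd_mul_right _ _)
      have hdep : Dep C p g := (h0 ▸ eig.rel p hp).dep ⟨_, hN⟩
      have hε : E.ε p = 1 ∨ (E.ε p = 0 ∧ (E.a p = 1 ∨ E.a p = -1)) := by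
        by_cases hg : E.gd p
        · exact Or.inl (if_pos hg)
        · exact Or.inr ⟨if_neg hg, (hE.bad p hp hg).resolve_left (hh.resolve_left hg)⟩
      obtain ⟨Y', hY', he'⟩ := hHYP V C hC p (p * N₂) K (E.a p) (E.ε p) g _ hp hpos hK
        (dvd_mul_right _ _) (hN ▸ eig.lev) hdep hL (hG.smul (k : ℂ)⁻¹) hε (by
          rw [map_smul]
          have he2 : QQ C (E.a p) (E.ε p) p (l.foldr (fun p x => E.Q C p x) F) = (k : ℂ) • Y := he
          rwa [he2, smul_smul, inv_mul_cancel₀ hk', one_smul])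
      obtain ⟨Z, hZ, hF'⟩ := ih hl' (k * p) (Nat.mul_pos hk hp.pos) ⟨Y', hY', by
        rw [Nat.cast_mul, mul_smul, ← he', smul_smul, mul_inv_cancel₀ hk', one_smul]⟩
      exact ⟨Z, hZ, by rw [List.prod_cons, ← mul_assoc]; exact hF'⟩
  have hmem : ∀ p, p ∈ (N.primeFactors.filter (E.Hy N)).toList ↔ p.Prime ∧ E.Hy N p := fun p => by
    rw [mem_toList, mem_filter, Nat.mem_primeFactors]
    exact ⟨fun h => ⟨h.1.1, h.2⟩,
      fun h => ⟨⟨h.1, (dvd_pow_self p two_ne_zero).trans h.2.1, eig.pos.ne'⟩, h.2⟩⟩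
  obtain ⟨Y, hY, he⟩ := key _ (fun p h => (hmem p).1 h) 1 one_pos
    ⟨_, hDQ V C hC E M N F g lam hM hon s1 cl loc cmp _ (nodup_toList _) hmem, by simp⟩
  refine ⟨Y, hY, ?_⟩
  rw [he, one_mul, prod_toList]
  rfl

/-- The data of an integral model. -/
def edW (W : WeierstrassCurve ℤ) (Λ : AddSubgroup ℂ) : ED := ⟨ap W, fun p => ¬(p : ℤ) ∣ W.Δ, Λ⟩

theorem edW_ε (W : WeierstrassCurve ℤ) (Λ : AddSubgroup ℂ) (p : ℕ) :
    (edW W Λ).ε p * p = gp W p := by
  unfold ED.ε gp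
  by_cases h : (p : ℤ) ∣ W.Δ
  · have h' : ¬(edW W Λ).gd p := not_not.2 h
    rw [if_pos h, if_neg h']; simp
  · have h' : (edW W Λ).gd p := h
    rw [if_neg h, if_pos h']; simp

theorem int_div {f : V} (hf : T1 C f) {n q : ℕ} (hq : 1 < q) (hn : 0 < n)
    (ih : ∀ m < n, ∃ z : ℤ, C.β (m : ℕ) f = z) : ∃ z : ℤ, C.β (n / q) f = z := by
  by_cases h : q ∣ n
  · obtain ⟨m, rfl⟩ := h
    have hq' : (q : ℚ) ≠ 0 := by exact_mod_cast (by omega : q ≠ 0)
    rw [Nat.cast_mul, mul_div_cancel_left₀ _ hq']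
    exact ih m (lt_mul_left (Nat.pos_of_mul_pos_left hn) hq)
  · exact ⟨0, by rw [hf.β_div (by omega) h]; simp⟩

theorem edW_ok {W : WeierstrassCurve ℤ} {Λ : AddSubgroup ℂ} (hA : ApFacts W) (hH : Hon C W Λ) :
    (edW W Λ).OK C := by
  refine ⟨hA.le, fun p hp h => ?_, fun N f hN h1 hr hp => ?_⟩
  · by_cases h4 : (p : ℤ) ∣ W.c₄
    · exact Or.inl (hA.add p hp (not_not.1 h) h4)
    · exact Or.inr (hA.mul p hp (not_not.1 h) h4)
  have H := hH N f hN (fix1_iff.2 h1) hr (per1_iff.2 hp)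
  have hint : ∀ n : ℕ, ∃ z : ℤ, C.β n f = z := by
    intro n
    induction n using Nat.strong_induction_on with
    | _ n ih =>
      rcases Nat.eq_zero_or_pos n with rfl | h0
      · exact ⟨0, by rw [β_zero]; simp⟩
      obtain ⟨s, hs⟩ := hr n
      have hden : s.den = 1 := by
        by_contra hd
        obtain ⟨p, hp, hps⟩ := Nat.exists_prime_and_dvd hd
        obtain ⟨r, hr1, hr2⟩ := H p n hp
        obtain ⟨z1, hz1⟩ := int_div h1.t1 hp.one_lt h0 ih
        obtain ⟨z2, hz2⟩ := int_div h1.t1 (Nat.one_lt_pow two_ne_zero hp.one_lt) h0 ih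
        rw [Nat.cast_pow] at hz2
        rw [hs, hz1, hz2] at hr2
        have e : s = n * r + ((ap W p * z1 - gp W p * z2 : ℤ) : ℚ) := by
          have : (s : ℂ) = ((n * r + ((ap W p * z1 - gp W p * z2 : ℤ) : ℚ) : ℚ) : ℂ) := by
            push_cast
            linear_combination hr2
          exact_mod_cast this
        rw [e, Rat.add_intCast_den] at hps
        exact hr1 (hps.trans (by simpa using Rat.mul_den_dvd (n : ℚ) r))
      exact ⟨s.num, by rw [hs, ← Rat.cast_intCast (α := ℂ), (Rat.den_eq_one_iff s).1 hden]⟩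
  refine ⟨hint, fun p k n hp hn => ?_⟩
  rcases Nat.eq_zero_or_pos n with rfl | h0
  · exact ⟨0, by rw [β_zero]; simp⟩
  obtain ⟨r, hr1, hr2⟩ := H p n hp
  obtain ⟨z0, hz0⟩ := hint n
  obtain ⟨z1, hz1⟩ := int_div h1.t1 hp.one_lt h0 fun m _ => hint m
  obtain ⟨z2, hz2⟩ := int_div h1.t1 (Nat.one_lt_pow two_ne_zero hp.one_lt) h0 fun m _ => hint m
  rw [Nat.cast_pow] at hz2
  rw [ED.Q, β_QQ _ _ hp.pos, edW_ε]
  change ∃ z : ℤ, C.β n f - ap W p * C.β (n / p) f + gp W p * C.β (n / p ^ 2) f = p ^ k * z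
  rw [hz0, hz1, hz2] at hr2 ⊢
  have e : (z0 - ap W p * z1 + gp W p * z2) * r.den = n * r.num := by
    have h2 : (((z0 - ap W p * z1 + gp W p * z2 : ℤ) : ℚ) : ℂ) = ((n * r : ℚ) : ℂ) := by
      push_cast
      exact hr2
    have h3 : ((z0 - ap W p * z1 + gp W p * z2 : ℤ) : ℚ) = n * r := by exact_mod_cast h2
    have h4 : ((z0 - ap W p * z1 + gp W p * z2 : ℤ) : ℚ) * r.den = n * r.num := by
      rw [h3, mul_assoc, Rat.mul_den_eq_num]
    exact_mod_cast h4
  have hc : IsCoprime ((p : ℤ) ^ k) (r.den : ℤ) :=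
    (Nat.isCoprime_iff_coprime.2 ((Nat.Prime.coprime_iff_not_dvd hp).2 hr1)).pow_left
  have hd : (p : ℤ) ^ k ∣ (z0 - ap W p * z1 + gp W p * z2) * r.den := by
    rw [e]
    exact Dvd.dvd.mul_right (by exact_mod_cast hn) _
  obtain ⟨z, hz⟩ := hc.dvd_of_dvd_mul_right hd
  exact ⟨z, by exact_mod_cast hz⟩

theorem zs_comb {g Y : V} (h : Y ∈ Zs C g) : ∃ c : ℕ →₀ ℤ, c 0 = 0 ∧ Y = C.comb g c := by
  have hadd : ∀ c c' : ℕ →₀ ℤ, C.comb g (c + c') = C.comb g c + C.comb g c' := fun c c' =>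
    Finsupp.sum_add_index' (fun _ => by simp) fun _ _ _ => by rw [Int.cast_add, add_smul]
  induction h using Submodule.span_induction with
  | mem x hx =>
    obtain ⟨δ, hδ, rfl⟩ := hx
    refine ⟨Finsupp.single δ 1, Finsupp.single_eq_of_ne hδ.ne, ?_⟩
    rw [CS.comb, Finsupp.sum_single_index (by simp)]
    simp
  | zero => exact ⟨0, rfl, rfl⟩
  | add x y _ _ hx hy =>
    obtain ⟨c, h1, rfl⟩ := hx
    obtain ⟨c', h2, rfl⟩ := hy
    exact ⟨c + c', by simp [h1, h2], (hadd c c').symm⟩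
  | smul k x _ hx =>
    obtain ⟨c, h1, rfl⟩ := hx
    refine ⟨k • c, by simp [h1], ?_⟩
    rw [CS.comb, CS.comb, Finsupp.sum_smul_index' (fun _ => by simp), Finsupp.smul_sum]
    refine Finsupp.sum_congr fun δ _ => ?_
    rw [smul_eq_mul, Int.cast_mul, mul_smul]
    exact (Int.cast_smul_eq_zsmul ℂ k _).symm

theorem lam_eq {N p : ℕ} {lam : ℂ} {g : V} (h : Rel C N p lam g) (hg : T1 C g) (hp : p.Prime)
    (h1 : C.β 1 g = 1) : C.β p g = lam := by
  have h2 := h 1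
  have h3 := hg.β_div hp.pos (n := 1) fun hd => hp.ne_one (Nat.dvd_one.1 hd)
  rw [h3, Nat.cast_one, h1] at h2
  simpa using h2.symm

theorem sq_dvd_iff {N p : ℕ} (hN : 0 < N) (hp : p.Prime) (h : N.factorization p = 1) :
    p ∣ N ∧ ¬p ^ 2 ∣ N := by
  refine ⟨(hp.dvd_iff_one_le_factorization hN.ne').2 h.ge, fun h2 => ?_⟩
  have := (hp.pow_dvd_iff_le_factorization hN.ne').1 h2
  omega

theorem s_New_of (hN : SN) : S_New := by
  classical
  intro V _ _ C hC W Λ M F hA hH hD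
  obtain ⟨N, g, lam, eig, loc, cmp, Y, hY, hF⟩ := hN V C hC (edW W Λ) M F (edW_ok hA hH) hD.pos
    hD.ne (fix1_iff.1 hD.fix) hD.rat (per1_iff.1 hD.per)
  have hT := eig.lev.t1
  have h2 : ∀ p : ℕ, p.Prime → p ^ 2 ∣ N → lam p = 0 ∧ Ls C p ((N : ℚ) / p) g = 0 := by
    rintro p hp ⟨k, hk⟩
    have hp' : (p : ℚ) ≠ 0 := by exact_mod_cast hp.ne_zero
    have e : (N : ℚ) / p = (p * k : ℕ) := by rw [hk]; push_cast; field_simp
    rw [e]
    exact loc.e2 p (p * k) hp (by rw [hk]; ring) (dvd_mul_right _ _)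
  have hl : ∀ p : ℕ, p.Prime → lam p = ((if p ^ 2 ∣ N then 0 else ap W p : ℤ) : ℂ) := by
    intro p hp
    split_ifs with h
    · rw [(h2 p hp h).1, Int.cast_zero]
    · by_cases h1 : p ∣ N
      · exact (cmp.e1 p hp h1 h).2.1
      · exact (cmp.e0 p hp h1).2
  have hint : ∀ n : ℕ, ∃ z : ℤ, C.β n g = z := by
    intro n
    induction n using Nat.strong_induction_on with
    | _ n ih =>
      rcases Nat.eq_zero_or_pos n with rfl | h0
      · exact ⟨0, by rw [β_zero]; simp⟩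
      by_cases hn1 : n = 1
      · exact ⟨1, by rw [hn1, Nat.cast_one, eig.one, Int.cast_one]⟩
      obtain ⟨q, hq, k, rfl⟩ := Nat.exists_prime_and_dvd hn1
      have hk0 : 0 < k := Nat.pos_of_mul_pos_left h0
      have hlt : k < q * k := lt_mul_left hk0 hq.one_lt
      obtain ⟨z1, hz1⟩ := ih k hlt
      obtain ⟨z2, hz2⟩ := int_div hT hq.one_lt hk0 fun m hm => ih m (hm.trans hlt)
      have h := eig.rel q hq k
      rw [hl q hq, hz1, hz2] at h
      refine ⟨(if q ^ 2 ∣ N then 0 else ap W q) * z1 - if q ∣ N then 0 else q * z2, ?_⟩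
      rw [Nat.cast_mul, eq_sub_of_add_eq h.symm, Int.cast_sub, Int.cast_mul]
      by_cases hqN : q ∣ N <;> simp [hqN]
  choose b hb using hint
  have hbp : ∀ p : ℕ, p.Prime → (b p : ℂ) = lam p := fun p hp => by
    rw [← hb, lam_eq (eig.rel p hp) hT hp eig.one]
  have hbp' : ∀ p : ℕ, p.Prime → b p = if p ^ 2 ∣ N then 0 else ap W p := fun p hp => by
    have := (hbp p hp).trans (hl p hp)
    exact_mod_cast this
  have hal : ∀ p : ℕ, p.Prime → ∃ w : ℤ, (w = 1 ∨ w = -1) ∧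
      (N.factorization p = 1 → b p = -w) ∧
      ∀ γ ∈ Gamma0 (N / p ^ N.factorization p), (p : ℤ) ^ N.factorization p ∣ γ 1 1 →
        C.act (ofZ γ) g = (w : ℂ) • C.act (Vd (1 / p ^ N.factorization p)) g := by
    intro p hp
    obtain ⟨w, hw, h3, h4⟩ := loc.wq _ _ (Nat.ordProj_mul_ordCompl_eq_self N p).symm
      ((Nat.coprime_ordCompl hp eig.pos.ne').pow_left _)
    refine ⟨w, hw, fun h1 => ?_, fun γ hγ hd => ?_⟩
    · rw [h1, pow_one] at h3
      have := (hbp p hp).trans (h3 hp)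
      exact_mod_cast this
    · have := h4 _ _ _ _ (detZ γ) ((mem_G0 _ _).1 hγ) (by exact_mod_cast hd)
      rwa [Nat.cast_pow] at this
  obtain ⟨c, hc0, rfl⟩ := zs_comb hY
  have hy : (edW W Λ).hy N = hyp W N := by
    refine prod_congr (filter_congr fun p hp => and_congr Iff.rfl ?_) fun _ _ => rfl
    have hp' := Nat.prime_of_mem_primeFactors hp
    refine ⟨fun h h' => h.elim (fun h1 => h1 h'.1) fun h1 => h1 (hA.add p hp' h'.1 h'.2),
      fun h => ?_⟩
    by_cases h1 : (p : ℤ) ∣ W.Δ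
    · refine Or.inr fun h0 => ?_
      have h0' : ap W p = 0 := h0
      rcases hA.mul p hp' h1 fun h4 => h ⟨h1, h4⟩ with h5 | h5 <;> omega
    · exact Or.inl h1
  refine ⟨N, g, b, c, ⟨⟨eig.pos, ?_, ?_, fun p n hp => ?_, fun p hp => ?_, fun p hp h1 => ?_,
    fun p hp h => by rw [hbp' p hp, if_pos h]⟩, fix0_iff.2 eig.lev, hb, fun p hp _ => hal p hp,
    fun p hp h => ?_, ?_⟩, ⟨fun p hp h => ?_, fun p hp h => ?_⟩, fun h => hD.ne ?_,
    Finsupp.notMem_support_iff.2 hc0, by rw [← hy]; exact hF⟩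
  · have := (hb 0).symm.trans (β_zero g)
    exact_mod_cast this
  · have := hb 1
    rw [Nat.cast_one, eig.one] at this
    exact_mod_cast this.symm
  · have h := eig.rel p hp n
    have h3 : C.β (n / p) g = dn b p n := by
      unfold dn
      split_ifs with hd
      · obtain ⟨m, rfl⟩ := hd
        have hp' : (p : ℚ) ≠ 0 := by exact_mod_cast hp.ne_zero
        rw [Nat.cast_mul, mul_div_cancel_left₀ _ hp', Nat.mul_div_cancel_left _ hp.pos, hb]
      · rw [hT.β_div hp.pos hd, Int.cast_zero]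
    rw [← hbp p hp, hb, h3, ← Nat.cast_mul, hb] at h
    by_cases hpN : p ∣ N
    · rw [if_pos hpN] at h ⊢
      have : (b p * b n : ℤ) = b (p * n) + 0 := by exact_mod_cast h
      linear_combination -this
    · rw [if_neg hpN] at h ⊢
      have : (b p * b n : ℤ) = b (p * n) + p * dn b p n := by exact_mod_cast h
      linear_combination -this
  · rw [hbp' p hp]
    split_ifs
    · simp
    · exact hA.le p hp
  · obtain ⟨w, hw, h3, _⟩ := hal p hp
    rw [h3 h1]
    omega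
  · rw [← Ls_apply]
    exact (h2 p hp h).2
  · obtain ⟨w, hw, _, h4⟩ := loc.wq N 1 (mul_one N).symm (Nat.coprime_one_right N)
    have hN' : (0 : ℚ) < N := by exact_mod_cast eig.pos
    have h5 := congrArg (C.act (Vd N)) (h4 0 (-1) 1 0 (by norm_num) (one_dvd _) (dvd_zero _))
    rw [map_smul, Vd_Vd (by positivity) hN', one_div, inv_mul_cancel₀ hN'.ne', Vd_one,
      act_act (det_zm_pos (by norm_num)) (by rw [det_Vd]; exact hN')] at h5
    refine ⟨w, hw, ?_⟩
    rw [← h5]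
    exact congrArg (fun x => C.act x g) (by ext <;> simp [zm, Vd])
  · exact ⟨(cmp.e0 p hp h).1, by
      rw [hbp' p hp, if_neg fun h' => h ((dvd_pow_self p two_ne_zero).trans h')]⟩
  · obtain ⟨h3, h4⟩ := sq_dvd_iff eig.pos hp h
    obtain ⟨h5, _, h6⟩ := cmp.e1 p hp h3 h4
    exact ⟨not_not.1 h5, fun h7 => h6 (hA.add p hp (not_not.1 h5) h7), by rw [hbp' p hp, if_neg h4]⟩
  · rw [hF, h]
    simp [CS.comb]

/-- The relations of a rational newform. -/
theorem nf_rel {N : ℕ} {g : V} {b : ℕ → ℤ} (h : NF C N g b) (q : ℕ) (hq : q.Prime) :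
    Rel C N q (b q) g := fun n => by
  have hT := (fix0_iff.1 h.fix).t1
  have h3 : C.β (n / q) g = dn b q n := by
    unfold dn
    split_ifs with hd
    · obtain ⟨m, rfl⟩ := hd
      have hp' : (q : ℚ) ≠ 0 := by exact_mod_cast hq.ne_zero
      rw [Nat.cast_mul, mul_div_cancel_left₀ _ hp', Nat.mul_div_cancel_left _ hq.pos, h.co]
    · rw [hT.β_div hq.pos hd, Int.cast_zero]
  rw [h3, ← Nat.cast_mul, h.co, h.co, h.coef.rel q n hq]
  split_ifs <;> push_cast <;> ring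

theorem nf_mult (hMU : SMU) (hC : C.Good) {N : ℕ} {g : V} {b : ℕ → ℤ} (h : NF C N g b) :
    Mult C N g :=
  hMU V C hC N g (fun q => b q) h.coef.pos (fix0_iff.1 h.fix) (by
    have := h.co 1
    rwa [Nat.cast_one, h.coef.one, Int.cast_one] at this) (nf_rel h)

end Pool.Agent.MP_b2c033_nt.UN
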