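import Pool.Agent.MP_b2c033_nt.U.Core

/-!
One-prime newform theory: operators, levels, relations.
-/

set_option autoImplicit false

noncomputable section

namespace Pool.Agent.MP_b2c033_nt.UN

open U Finset
open scoped InnerProductSpace

/-- An integer matrix. -/
def zm (a b c d : ℤ) : Mt := ⟨a, b, c, d⟩

variable {V : Type} [NormedAddCommGroup V] [InnerProductSpace ℂ V] (C : CS V)

/-- The operator `U_p`. -/
def Up (p : ℕ) : V →ₗ[ℂ] V := ∑ t ∈ range p, C.act ⟨1, t, 0, p⟩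

/-- The sum of the translates by `L ^ (t y)`, `t mod p`. -/
def Ls (p : ℕ) (y : ℚ) : V →ₗ[ℂ] V := ∑ t ∈ range p, C.act (Lw (t * y))

/-- The projection to the coefficients divisible by `p`. -/
def Pj (p : ℕ) : V →ₗ[ℂ] V := (p : ℂ)⁻¹ • ∑ t ∈ range p, C.act (Tr (t / p))

/-- Fixed by `Γ₀(N)`. -/
def G0 (N : ℕ) (f : V) : Prop :=
  ∀ a b c d : ℤ, a * d - b * c = 1 → (N : ℤ) ∣ c → C.act (zm a b c d) f = f

/-- Fixed by `Γ₁(N)`. -/
def G1 (N : ℕ) (f : V) : Prop :=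
  ∀ a b c d : ℤ, a * d - b * c = 1 → (N : ℤ) ∣ c → (N : ℤ) ∣ d - 1 → C.act (zm a b c d) f = f

/-- Fixed by `Γ(N)`. -/
def GG (N : ℕ) (f : V) : Prop := ∀ a b c d : ℤ, a * d - b * c = 1 → (N : ℤ) ∣ b → (N : ℤ) ∣ c →
  (N : ℤ) ∣ d - 1 → C.act (zm a b c d) f = f

/-- Fixed by the translation. -/
def T1 (f : V) : Prop := C.act (Tr 1) f = f

/-- The relation `(R_q)` at level `N` with eigenvalue `lam`. -/
def Rel (N q : ℕ) (lam : ℂ) (f : V) : Prop := ∀ n : ℕ,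
  lam * C.β n f = C.β (q * n) f + (if q ∣ N then 0 else q * C.β (n / q) f)

/-- The coefficients vanish off the multiples of `p`. -/
def Sup (p : ℕ) (f : V) : Prop := ∀ n : ℕ, ¬p ∣ n → C.β n f = 0

/-- The coefficients vanish on the multiples of `p`. -/
def Dep (p : ℕ) (f : V) : Prop := ∀ n : ℕ, p ∣ n → C.β n f = 0

/-- A multiple of `f` has its periods on a principal congruence subgroup in `Λ`. -/
def PerL (Λ : AddSubgroup ℂ) (f : V) : Prop := ∃ N k : ℕ, 0 < N ∧ 0 < k ∧ GG C N f ∧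
  ∀ a b c d : ℤ, a * d - b * c = 1 → (N : ℤ) ∣ b → (N : ℤ) ∣ c → (N : ℤ) ∣ d - 1 →
    k * C.per (zm a b c d) f ∈ Λ

/-- The periods on `Γ₁(N)` lie in `Λ`. -/
def Per1 (Λ : AddSubgroup ℂ) (N : ℕ) (f : V) : Prop := ∀ a b c d : ℤ, a * d - b * c = 1 →
  (N : ℤ) ∣ c → (N : ℤ) ∣ d - 1 → C.per (zm a b c d) f ∈ Λ

/-- The operator `1 - (a/p) V_p + (ε/p) V_p ^ 2`. -/
def QQ (a ε : ℂ) (p : ℕ) : V →ₗ[ℂ] V :=
  LinearMap.id - (a / p) • C.act (Vd p) + (ε / p) • C.act (Vd (p ^ 2))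

/-- The integer combinations of the `g | V_δ`. -/
def Zs (g : V) : Submodule ℤ V :=
  Submodule.span ℤ {x | ∃ δ : ℕ, 0 < δ ∧ x = C.act (Vd δ) g}

/-- The data of the curve: the numbers `a p`, the good primes, the lattice. -/
structure ED where
  a : ℕ → ℤ
  gd : ℕ → Prop
  Λ : AddSubgroup ℂ

open Classical in
/-- The indicator of the good primes. -/
def ED.ε (E : ED) (p : ℕ) : ℂ := if E.gd p then 1 else 0

/-- The operator of the curve at `p`. -/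
def ED.Q (E : ED) (p : ℕ) : V →ₗ[ℂ] V := QQ C (E.a p) (E.ε p) p

/-- The congruences of Honda, integral form. -/
def ED.Hon (E : ED) (f : V) : Prop := (∀ n : ℕ, ∃ z : ℤ, C.β n f = z) ∧
  ∀ p k n : ℕ, p.Prime → p ^ k ∣ n → ∃ z : ℤ, C.β n (E.Q C p f) = p ^ k * z

/-- What is used about the curve. -/
structure ED.OK (E : ED) : Prop where
  le : ∀ p : ℕ, p.Prime → |E.a p| ≤ p
  bad : ∀ p : ℕ, p.Prime → ¬E.gd p → E.a p = 0 ∨ E.a p = 1 ∨ E.a p = -1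
  hon : ∀ N f, 0 < N → G1 C N f → C.Rat f → Per1 C E.Λ N f → E.Hon C f

/-- The hypothetical primes. -/
def ED.Hy (E : ED) (N p : ℕ) : Prop := p ^ 2 ∣ N ∧ (E.gd p ∨ E.a p ≠ 0)

open Classical in
/-- Their product. -/
def ED.hy (E : ED) (N : ℕ) : ℕ := ∏ p ∈ N.primeFactors with E.Hy N p, p

/-- The consequences of the congruences. -/
structure S1 (E : ED) (M : ℕ) (F : V) : Prop where
  lev : G0 C M F
  rel : ∀ l : ℕ, l.Prime → ¬l ∣ M → E.gd l ∧ Rel C M l (E.a l) F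
  nil : ∀ p : ℕ, p.Prime → ∃ K : ℕ, Dep C (p ^ K) (E.Q C p F)

/-- A normalised eigenform of level `N` that is new at every prime. -/
structure Eig (N : ℕ) (g : V) (lam : ℕ → ℂ) : Prop where
  pos : 0 < N
  lev : G0 C N g
  one : C.β 1 g = 1
  rel : ∀ q : ℕ, q.Prime → Rel C N q (lam q) g
  new : ∀ (p N' : ℕ) x, p.Prime → N = p * N' → G0 C N' x →
    (∀ q : ℕ, q.Prime → q ≠ p → Rel C N q (lam q) x) → x = 0

/-- The local structure of a newform. -/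
structure Loc (N : ℕ) (g : V) (lam : ℕ → ℂ) : Prop where
  wq : ∀ Q N' : ℕ, N = Q * N' → Q.Coprime N' → ∃ w : ℤ, (w = 1 ∨ w = -1) ∧
    (Q.Prime → lam Q = -w) ∧ ∀ a b c d : ℤ, a * d - b * c = 1 → (N' : ℤ) ∣ c → (Q : ℤ) ∣ d →
      C.act (zm a b c d) g = (w : ℂ) • C.act (Vd (1 / Q)) g
  e2 : ∀ p N' : ℕ, p.Prime → N = p * N' → p ∣ N' → lam p = 0 ∧ Ls C p N' g = 0

/-- The eigenvalues and the curve. -/
structure Cmp (E : ED) (N : ℕ) (lam : ℕ → ℂ) : Prop where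
  e0 : ∀ p : ℕ, p.Prime → ¬p ∣ N → E.gd p ∧ lam p = E.a p
  e1 : ∀ p : ℕ, p.Prime → p ∣ N → ¬p ^ 2 ∣ N → ¬E.gd p ∧ lam p = E.a p ∧ E.a p ≠ 0

/-- The second matrix is the twist of the first by `q`, modulo `P` below and `r` above. -/
def Cq (q P r a b c d a' b' c' d' : ℤ) : Prop :=
  P ∣ c * d' - q * d * c' ∧ r ∣ q * b * a' - a * b'

/-- Multiplicativity of the coefficients at all cusps. -/
def Mult (N : ℕ) (g : V) : Prop := ∀ N₁ N₂ r m n : ℕ, N = N₁ * N₂ → N₁.Coprime N₂ →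
  r ∣ N₂ → m.Coprime N₂ → m.Coprime n → ∀ γ γ' : SZ, (N₁ : ℤ) ∣ γ 1 0 → (N₁ : ℤ) ∣ γ' 1 0 →
  Tw N₂ m γ γ' → C.β (m * n / N₂) (C.act (ofZ γ) (C.act (Vd (1 / r)) g)) =
    C.β m g * C.β (n / N₂) (C.act (ofZ γ') (C.act (Vd (1 / r)) g))

end Pool.Agent.MP_b2c033_nt.UN
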