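import Pool.Agent.MP_b2c033_nt.UN.Spec

/-!
One-prime newform theory, row NEW: the form of least level in the class is new at every prime.
-/

set_option autoImplicit false

noncomputable section

namespace Pool.Agent.MP_b2c033_nt.UN

open U Finset
open scoped InnerProductSpace

namespace NEWX

variable {V : Type} [NormedAddCommGroup V] [InnerProductSpace ℂ V] {C : CS V}

/-- The vectors of level `K` with the relations away from `p`. -/
def Fam (C : CS V) (N p : ℕ) (lam : ℕ → ℂ) (K : ℕ) (x : V) : Prop :=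
  G0 C K x ∧ ∀ q : ℕ, q.Prime → q ≠ p → Rel C N q (lam q) x

theorem dvd_iff {N K p q j : ℕ} (hp : p.Prime) (hq : q.Prime) (hne : q ≠ p)
    (h : N = K * p ^ j) : q ∣ N ↔ q ∣ K := by
  rw [h]
  refine ⟨fun hd => (hq.dvd_mul.1 hd).resolve_right fun h' => hne ?_, fun hd => hd.mul_right _⟩
  exact (Nat.prime_dvd_prime_iff_eq hq hp).1 (hq.dvd_of_dvd_pow h')

/-- At the least level the first coefficient is injective on the family. -/
theorem inj {N p K j : ℕ} {lam : ℕ → ℂ} (hp : p.Prime) (hK : 0 < K) (hN : N = K * p ^ (j + 1))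
    (hS : ∀ (N : ℕ) f, Sup C p f →
      (G0 C (p * N) f → G0 C N (C.act (Vd (1 / p)) f)) ∧ (¬p ∣ N → G1 C N f → f = 0))
    (hmin : ∀ K' < K, ∀ j' x, N = K' * p ^ (j' + 1) → Fam C N p lam K' x → x = 0)
    {z : V} (hz : Fam C N p lam K z) (h1 : C.β 1 z = 0) : z = 0 := by
  have hs : Sup C p z := rel_sup hp hz.1.t1 hz.2 h1
  by_cases hd : p ∣ K
  · obtain ⟨K', rfl⟩ := hd
    have hK' : 0 < K' := Nat.pos_of_mul_pos_left hK
    refine act_inj (C := C) (x := Vd (1 / p)) (by simpa using hp.pos) ?_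
    exact hmin K' (lt_mul_left hK' hp.one_lt) (j + 1) _ (by rw [hN]; ring)
      ⟨(hS K' z hs).1 hz.1, fun q hq hne => (hz.2 q hq hne).vi hp.pos⟩
  · exact (hS K z hs).2 hd hz.1.g1

theorem Fam.smul {N p K : ℕ} {lam : ℕ → ℂ} {x : V} (h : Fam C N p lam K x) (s : ℂ) :
    Fam C N p lam K (s • x) := ⟨h.1.smul s, fun q hq hne => (h.2 q hq hne).smul s⟩

theorem Fam.sub {N p K : ℕ} {lam : ℕ → ℂ} {x y : V} (h : Fam C N p lam K x)
    (h' : Fam C N p lam K y) : Fam C N p lam K (x - y) :=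
  ⟨h.1.sub h'.1, fun q hq hne => (h.2 q hq hne).sub (h'.2 q hq hne)⟩

theorem rat_dep {g : V} {p : ℕ} (hp : 0 < p) (ht : T1 C g) (hr : C.Rat g) :
    C.Rat (g - Pj C p g) := fun ν => by
  by_cases h0 : C.β ν (g - Pj C p g) = 0
  · exact ⟨0, by rw [h0, Rat.cast_zero]⟩
  obtain ⟨n, _, rfl⟩ := (ht.sub (ht.pj hp)).nat h0
  rw [map_sub, β_Pj ht hp]
  split_ifs
  · exact ⟨0, by rw [sub_self, Rat.cast_zero]⟩
  · rw [sub_zero]; exact hr n

theorem per_dep {g : V} {p : ℕ} {P : V → Prop} (h0 : P 0) (ha : ∀ f g, P f → P g → P (f + g))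
    (hs : ∀ f (r : ℚ), P f → P ((r : ℂ) • f)) (hx : ∀ f (x : Mt), 0 < x.det → P f → P (C.act x f))
    (hg : P g) : P (g - Pj C p g) := by
  have h1 : P (∑ t ∈ range p, C.act (Tr (t / p)) g) :=
    sum_induction _ P ha h0 fun t _ => hx g _ (by simp) hg
  have h2 := ha _ _ hg (hs _ (-(p : ℚ)⁻¹) h1)
  rwa [Rat.cast_neg, Rat.cast_inv, Rat.cast_natCast, neg_smul, ← sub_eq_add_neg,
    ← Pj_apply] at h2

end NEWX

open NEWX in
theorem rNEW : OfNEW := by
  intro hSUP hHE hPER hTR V _ _ C hC E M hex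
  classical
  obtain ⟨g, lam, hg⟩ := Nat.find_spec hex
  have hmin : ∀ K < Nat.find hex, ∀ g lam, ¬Cl C E M K g lam := fun K hK g lam h =>
    Nat.find_min hex hK ⟨g, lam, h⟩
  generalize Nat.find hex = N at hg hmin
  refine ⟨N, g, lam, hg, hg.pos, hg.lev, hg.one, hg.rel, fun p N' x₀ hp hN' hx₀ hr₀ => ?_⟩
  by_contra hne
  have hex' : ∃ K j x, N = K * p ^ (j + 1) ∧ Fam C N p lam K x ∧ x ≠ 0 :=
    ⟨N', 0, x₀, by rw [hN']; ring, ⟨hx₀, hr₀⟩, hne⟩
  obtain ⟨j, x₁, hN, hx₁, hne₁⟩ := Nat.find_spec hex'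
  have hmin' : ∀ K' < Nat.find hex', ∀ j' x, N = K' * p ^ (j' + 1) → Fam C N p lam K' x → x = 0 :=
    fun K' hK' j' x h1 h2 => by
      by_contra h3
      exact Nat.find_min hex' hK' ⟨j', x, h1, h2, h3⟩
  generalize Nat.find hex' = K at hN hx₁ hmin'
  have hK : 0 < K := Nat.pos_of_mul_pos_right (hN ▸ hg.pos)
  have hinj : ∀ z, Fam C N p lam K z → C.β 1 z = 0 → z = 0 := fun z hz h1 =>
    inj hp hK hN (fun N f => hSUP V C hC p N f hp) hmin' hz h1
  have hb : C.β 1 x₁ ≠ 0 := fun h => hne₁ (hinj _ hx₁ h)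
  obtain ⟨x, hx, hx1⟩ : ∃ x, Fam C N p lam K x ∧ C.β 1 x = 1 :=
    ⟨(C.β 1 x₁)⁻¹ • x₁, hx₁.smul _, by rw [map_smul, smul_eq_mul, inv_mul_cancel₀ hb]⟩
  have huniq : ∀ z, Fam C N p lam K z → C.β 1 z • x = z := fun z hz =>
    sub_eq_zero.1 (hinj _ ((hx.smul _).sub hz)
      (by rw [map_sub, map_smul, smul_eq_mul, hx1, mul_one, sub_self]))
  have hcop : ∀ q : ℕ, q.Prime → q ≠ p → q.Coprime p := fun q hq h =>
    (Nat.coprime_primes hq hp).2 h
  have hxt := hx.1.t1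
  have hgt := hg.lev.t1
  -- the relation at `p`
  obtain ⟨μ, hμ⟩ : ∃ μ, Rel C K p μ x := by
    refine ⟨_, (rel_iff hp.pos hxt).2 (huniq _ ⟨?_, fun q hq h => ?_⟩)⟩
    · split_ifs with hd
      · rw [add_zero]
        exact (hHE V C hC p K x hp).2.1 hd (hx.1.mono (dvd_mul_left _ _))
      · exact (hHE V C hC p K x hp).2.2.1 hd hx.1
    · have h1 := (hx.2 q hq h).up hxt hp.pos hq.pos (hcop q hq h)
      split_ifs
      · rwa [add_zero]
      · exact h1.add ((hx.2 q hq h).vd hxt hp.pos hq.pos (hcop q hq h).symm)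
  -- the depleted form and its trace
  have hpN : p ∣ N := ⟨N', hN'⟩
  have hyl : G0 C (K * p ^ (j + 2)) (g - Pj C p g) := by
    have e : K * p ^ (j + 2) = N * p := by rw [hN]; ring
    rw [e, Pj_eq hp.pos]
    exact (hg.lev.mono (dvd_mul_right _ _)).sub ((((hHE V C hC p N g hp).2.1 hpN
      (hg.lev.mono (dvd_mul_left _ _))).vd hp.pos).smul _)
  obtain ⟨y', hl', hr', hq', hp', hi'⟩ :=
    hTR V C hC K (p ^ (j + 2)) _ hK (pow_pos hp.pos _) hyl
  have hy' : Fam C N p lam K y' := ⟨hl', fun q hq h => by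
    have e := dvd_iff hp hq h hN
    refine (hr' q _ hq (fun h' => h ?_) (((hg.rel q hq).sub ((hg.rel q hq).pj hgt hp.pos hq.pos
      (hcop q hq h).symm)).lev e)).lev e.symm
    exact (Nat.prime_dvd_prime_iff_eq hq hp).1 (hq.dvd_of_dvd_pow h')⟩
  have hyt : T1 C (g - Pj C p g) := hyl.t1
  have hsup : Sup C p (x - g) := rel_sup hp (hxt.sub hgt)
    (fun q hq h => (hx.2 q hq h).sub (hg.rel q hq)) (by rw [map_sub, hx1, hg.one, sub_self])
  have hdep : Dep C p (g - Pj C p g) := fun n hn => by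
    rw [map_sub, β_Pj hgt hp.pos, if_pos hn, sub_self]
  have hsup' : Sup C p (x - (g - Pj C p g)) := fun n hn => by
    have h1 := hsup n hn
    rw [map_sub] at h1
    rw [map_sub, map_sub, β_Pj hgt hp.pos, if_neg hn, sub_zero, h1]
  have hy0 : y' ≠ 0 := fun h0 => by
    have h1 := hi' x hx.1
    have h2 := orth hp.pos hyt (hxt.sub hyt) hdep hsup'
    rw [h0, inner_zero_left] at h1
    rw [inner_sub_right, ← h1, zero_sub, neg_eq_zero, inner_self_eq_zero] at h2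
    have h3 := β_Pj hgt hp.pos 1
    rw [if_neg hp.not_dvd_one, ← sub_eq_zero.1 h2, Nat.cast_one, hg.one] at h3
    exact one_ne_zero h3
  have hrat := hq' (rat_dep hp.pos hgt hg.rat)
  obtain ⟨P0, Pa, Ps, Px, -⟩ := hPER V C hC E.Λ
  have hper := hp' E.Λ (per_dep P0 Pa Ps Px hg.per)
  obtain ⟨r, hr⟩ := hrat 1
  have hyx := huniq _ hy'
  rw [hr] at hyx
  have hr0 : (r : ℂ) ≠ 0 := fun h => hy0 (by rw [← hyx, h, zero_smul])
  have hxy : x = ((r⁻¹ : ℚ) : ℂ) • y' := by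
    rw [← hyx, smul_smul, Rat.cast_inv, inv_mul_cancel₀ hr0, one_smul]
  refine hmin K ?_ x (Function.update lam p μ) ⟨hK, fun q hq h => hg.dvd q hq ?_, hx.1, hx1,
    fun q hq => ?_, fun l hl h => ?_, fun ν => ?_, ?_⟩
  · rw [hN]
    exact lt_mul_right hK (Nat.one_lt_pow (Nat.succ_ne_zero j) hp.one_lt)
  · rw [hN]; exact h.mul_right _
  · by_cases h : q = p
    · rw [h, Function.update_self]; exact hμ
    · rw [Function.update_of_ne h]; exact (hx.2 q hq h).lev (dvd_iff hp hq h hN)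
  · rw [Function.update_of_ne fun e : l = p => h (by rw [e]; exact hg.dvd p hp hpN)]
    exact hg.out l hl h
  · obtain ⟨s, hs⟩ := hrat ν
    exact ⟨r⁻¹ * s, by rw [hxy, map_smul, smul_eq_mul, hs, Rat.cast_mul]⟩
  · rw [hxy]; exact Ps _ _ hper

end Pool.Agent.MP_b2c033_nt.UN
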