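import Pool.Agent.MP_b2c033_nt.UN.Basic

/-!
One-prime newform theory: the statements of the steps.
-/

set_option autoImplicit false

noncomputable section

namespace Pool.Agent.MP_b2c033_nt.UN

open U Finset
open scoped InnerProductSpace

/-- Quantification over all good spaces. -/
def All (Φ : ∀ (V : Type) [NormedAddCommGroup V] [InnerProductSpace ℂ V] (_ : CS V), Prop) :
    Prop := ∀ (V : Type) [NormedAddCommGroup V] [InnerProductSpace ℂ V] (C : CS V), C.Good → Φ V C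

/-- Row ST: the bound of Sturm, and the coefficients are bounded by the norm. -/
def SST : Prop := All fun _ _ _ C => ∀ N : ℕ, 0 < N →
  (∃ B : ℕ, ∀ f, G1 C N f → (∀ n : ℕ, n ≤ B → C.β n f = 0) → f = 0) ∧
  ∀ n : ℕ, ∃ K : ℝ, ∀ f, G1 C N f → ‖C.β n f‖ ≤ K * ‖f‖

/-- Row SUP. -/
def SSUP : Prop := All fun _ _ _ C => ∀ (p N : ℕ) f, p.Prime → Sup C p f →
  (G0 C (p * N) f → G0 C N (C.act (Vd (1 / p)) f)) ∧ (¬p ∣ N → G1 C N f → f = 0)

/-- Row HE: the Hecke operators preserve the levels. -/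
def SHE : Prop := All fun _ _ _ C => ∀ (p N : ℕ) f, p.Prime →
  (p ∣ N → G1 C N f → G1 C N (Up C p f)) ∧ (p ∣ N → G0 C (p * N) f → G0 C N (Up C p f)) ∧
  (¬p ∣ N → G0 C N f → G0 C N (Up C p f + C.act (Vd p) f)) ∧
  (¬p ∣ N → G1 C N f → ∀ a b c d : ℤ, a * d - b * c = 1 → (N : ℤ) ∣ c → (N : ℤ) ∣ d - p →
    G1 C N (C.act (zm a b c d) f) ∧ G1 C N (Up C p f + C.act (Vd p) (C.act (zm a b c d) f)))

/-- Row TX: explicit traces. -/
def STX : Prop := All fun _ _ _ C => ∀ (p N : ℕ) f, p.Prime → G0 C (p * N) f →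
  (p ∣ N → G0 C N (Ls C p N f)) ∧ (¬p ∣ N → ∀ a b c d : ℤ, a * d - b * c = 1 → (N : ℤ) ∣ c →
    (p : ℤ) ∣ d → G0 C N (Up C p (C.act (Vd p) (C.act (zm a b c d) f)) + f))

/-- Row HK: the Hecke relation at the other cusps. -/
def SHK : Prop := All fun _ _ _ C => ∀ (q e P r : ℕ) (lam : ℂ) h, q.Prime → 0 < P → 0 < r →
  ¬q ∣ P * r → G0 C (q ^ e * (P * r)) h → Rel C (q ^ e * (P * r)) q lam h →
  ∀ a b c d a' b' c' d' a'' b'' c'' d'' : ℤ, a * d - b * c = 1 → a' * d' - b' * c' = 1 →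
  a'' * d'' - b'' * c'' = 1 → (q : ℤ) ^ e ∣ c → (q : ℤ) ^ e ∣ c' →
  Cq q P r a b c d a' b' c' d' → (e = 0 → Cq q P r a' b' c' d' a'' b'' c'' d'') →
  ∀ (ν : ℚ) (n : ℤ), ν * (P * r) = n →
    lam * C.β ν (C.act (zm a' b' c' d') (C.act (Vd (1 / r)) h)) =
      C.β (q * ν) (C.act (zm a b c d) (C.act (Vd (1 / r)) h)) +
        if e = 0 then q * C.β (ν / q) (C.act (zm a'' b'' c'' d'') (C.act (Vd (1 / r)) h)) else 0

/-- Row MU. -/
def SMU : Prop := All fun _ _ _ C => ∀ (N : ℕ) g (lam : ℕ → ℂ), 0 < N → G0 C N g →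
  C.β 1 g = 1 → (∀ q : ℕ, q.Prime → Rel C N q (lam q) g) → Mult C N g

def OfMU : Prop := SHK → SMU

/-- Row STR: nilpotence. -/
def SSTR : Prop := All fun _ _ _ C => ∀ (p N : ℕ) f, p.Prime → 0 < N → p ∣ N → G1 C N f →
  (∀ k n : ℕ, p ^ k ∣ n → ∃ z : ℤ, C.β n f = p ^ k * z) → ∃ K : ℕ, Dep C (p ^ K) f

def OfSTR : Prop := SST → SHE → SSTR

/-- Row S1. -/
def SS1 : Prop := All fun _ _ _ C => ∀ (E : ED) (M : ℕ) F, 0 < M → F ≠ 0 → G1 C M F →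
  E.Hon C F → S1 C E M F

def OfS1 : Prop := SSUP → SHE → SSTR → SS1

/-- Row PER: the class of forms with periods in the rational span of the lattice. -/
def SPER : Prop := All fun _ _ _ C => ∀ Λ : AddSubgroup ℂ, PerL C Λ 0 ∧
  (∀ f g, PerL C Λ f → PerL C Λ g → PerL C Λ (f + g)) ∧
  (∀ f (r : ℚ), PerL C Λ f → PerL C Λ ((r : ℂ) • f)) ∧
  (∀ f (x : Mt), 0 < x.det → PerL C Λ f → PerL C Λ (C.act x f)) ∧
  ∀ (N : ℕ) f, 0 < N → G1 C N f → PerL C Λ f → ∃ k : ℕ, 0 < k ∧ Per1 C Λ N ((k : ℂ) • f)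

/-- Row TR: the trace. -/
def STR : Prop := All fun _ _ _ C => ∀ (N D : ℕ) y, 0 < N → 0 < D → G0 C (N * D) y →
  ∃ y', G0 C N y' ∧ (∀ (q : ℕ) lam, q.Prime → ¬q ∣ D → Rel C N q lam y → Rel C N q lam y') ∧
    (C.Rat y → C.Rat y') ∧ (∀ Λ, PerL C Λ y → PerL C Λ y') ∧
    ∀ x, G0 C N x → ⟪y', x⟫_ℂ = ⟪y, x⟫_ℂ

def OfTR : Prop := SHK → SPER → STR

/-- The class in which the least level is taken. -/
structure Cl {V : Type} [NormedAddCommGroup V] [InnerProductSpace ℂ V] (C : CS V) (E : ED)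
    (M N : ℕ) (g : V) (lam : ℕ → ℂ) : Prop where
  pos : 0 < N
  dvd : ∀ p : ℕ, p.Prime → p ∣ N → p ∣ M
  lev : G0 C N g
  one : C.β 1 g = 1
  rel : ∀ q : ℕ, q.Prime → Rel C N q (lam q) g
  out : ∀ l : ℕ, l.Prime → ¬l ∣ M → lam l = E.a l
  rat : C.Rat g
  per : PerL C E.Λ g

/-- Row F0: the class is not empty. -/
def SF0 : Prop := All fun _ _ _ C => ∀ (E : ED) (M : ℕ) F, 0 < M → F ≠ 0 → S1 C E M F →
  C.Rat F → PerL C E.Λ F → ∃ N g lam, Cl C E M N g lam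

def OfF0 : Prop := SHE → SPER → SF0

/-- Row NEW: the least level. -/
def SNEW : Prop := All fun _ _ _ C => ∀ (E : ED) (M : ℕ), (∃ N g lam, Cl C E M N g lam) →
  ∃ N g lam, Cl C E M N g lam ∧ Eig C N g lam

def OfNEW : Prop := SSUP → SHE → SPER → STR → SNEW

/-- Row AL: Atkin-Lehner operators at prime powers. -/
def SAL : Prop := All fun _ _ _ C => ∀ (N : ℕ) g lam, Eig C N g lam → ∀ p e N' : ℕ, p.Prime →
  N = p ^ e * N' → ¬p ∣ N' → ∃ w : ℤ, (w = 1 ∨ w = -1) ∧ ∀ a b c d : ℤ, a * d - b * c = 1 →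
    (N' : ℤ) ∣ c → (p : ℤ) ^ e ∣ d → C.act (zm a b c d) g = (w : ℂ) • C.act (Vd (1 / p ^ e)) g

def OfAL : Prop := SSUP → SHK → SAL

/-- Row LOC. -/
def SLOC : Prop := All fun _ _ _ C => ∀ (N : ℕ) g lam, Eig C N g lam → Loc C N g lam

def OfLOC : Prop := SHE → STX → STR → SAL → SLOC

/-- Row CMP. -/
def SCMP : Prop := All fun _ _ _ C => ∀ (E : ED) (N : ℕ) g lam, E.OK C → Eig C N g lam →
  Loc C N g lam → C.Rat g → PerL C E.Λ g → Cmp E N lam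

def OfCMP : Prop := SPER → SS1 → SCMP

/-- Row HYP. -/
def SHYP : Prop := All fun _ _ _ C => ∀ (p N K : ℕ) (a : ℤ) (ε : ℂ) g G, p.Prime → 0 < N →
  0 < K → p ∣ N → G0 C (p * N) g → Dep C p g → Ls C p N g = 0 → G0 C K G →
  (ε = 1 ∨ (ε = 0 ∧ (a = 1 ∨ a = -1))) → QQ C a ε p G ∈ Zs C g →
  ∃ Y ∈ Zs C g, G = (p : ℂ) • Y

def OfHYP : Prop := SSUP → SHYP

/-- Row DQ: after all operators of the curve at the primes of `l` the form is an integer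
combination. -/
def SDQ : Prop := All fun _ _ _ C => ∀ (E : ED) (M N : ℕ) F g lam, 0 < M → E.Hon C F →
  S1 C E M F → Cl C E M N g lam → Loc C N g lam → Cmp E N lam → ∀ l : List ℕ, l.Nodup →
  (∀ p, p ∈ l ↔ p.Prime ∧ E.Hy N p) → l.foldr (fun p x => E.Q C p x) F ∈ Zs C g

/-- The statement of the block in its own terms. -/
def SN : Prop := All fun _ _ _ C => ∀ (E : ED) (M : ℕ) F, E.OK C → 0 < M → F ≠ 0 → G1 C M F →
  C.Rat F → Per1 C E.Λ M F → ∃ N g lam, Eig C N g lam ∧ Loc C N g lam ∧ Cmp E N lam ∧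
    ∃ Y ∈ Zs C g, F = (E.hy N : ℂ) • Y

end Pool.Agent.MP_b2c033_nt.UN
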